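import Pool.Agent.Helper15.BN

/-!
# Linear change of coordinates
-/

set_option linter.unusedSectionVars false
set_option linter.unusedSimpArgs false

namespace Pool.Agent.Helper15

open MvPolynomial

variable {n : ℕ} (E : Fin n → Fin n → Prop) (κ : Fin n → ℕ) (z : ∀ i, Fin (κ i))

/-- The parameter `θ(X_j = a | b)` in the quotient ring. -/
noncomputable def th (j : Fin n) (a : Fin (κ j)) (b : ∀ i : {i : Fin n // E i j}, Fin (κ i)) :
    MvPolynomial (Option (Param E κ)) ℝ ⧸ relations E κ :=
  Ideal.Quotient.mk (relations E κ) (X (some ⟨j, a, b⟩))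

/-- The element `z` in the quotient ring. -/
noncomputable def zz : MvPolynomial (Option (Param E κ)) ℝ ⧸ relations E κ :=
  Ideal.Quotient.mk (relations E κ) (X none)

theorem sum_th (j : Fin n) (b : ∀ i : {i : Fin n // E i j}, Fin (κ i)) :
    ∑ a, th E κ j a b = zz E κ := by
  unfold th zz
  rw [← map_sum, Ideal.Quotient.eq]
  exact Ideal.subset_span ⟨j, b, rfl⟩

variable {κ}

/-- The set of states agreeing with `w` except at the vertices of `D` where `w` is the
distinguished state. -/
def box (D : Finset (Fin n)) (w : ∀ i, Fin (κ i)) : Finset (∀ i, Fin (κ i)) :=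
  Fintype.piFinset fun i => if i ∈ D ∧ w i = z i then Finset.univ else {w i}

/-- The sum of the variables over a box. -/
noncomputable def lin (D : Finset (Fin n)) (w : ∀ i, Fin (κ i)) :
    MvPolynomial (∀ i, Fin (κ i)) ℝ := ∑ u ∈ box z D w, X u

theorem paramMap_lin (D : Finset (Fin n)) (hD : ∀ i ∈ D, IsSink E i) (w : ∀ i, Fin (κ i)) :
    paramMap E κ (lin z D w) =
      ∏ j, if j ∈ D ∧ w j = z j then zz E κ else th E κ j (w j) (fun i => w i) := by
  unfold lin paramMap box
  rw [map_sum]
  simp only [aeval_X]
  have h1 : ∀ u ∈ Fintype.piFinset (fun i => if i ∈ D ∧ w i = z i then Finset.univ else {w i}),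
      (∏ j, Ideal.Quotient.mk (relations E κ) (X (some (⟨j, u j, fun i => u i⟩ : Param E κ)))) =
      ∏ j, th E κ j (u j) (fun i => w i) := by
    intro u hu
    refine Finset.prod_congr rfl fun j _ => ?_
    unfold th
    have : (fun i : {i : Fin n // E i j} => u i) = fun i : {i : Fin n // E i j} => w i := by
      funext i
      have h2 := Fintype.mem_piFinset.1 hu i
      have h3 : ¬ (i.1 ∈ D ∧ w i.1 = z i.1) := fun h => hD _ h.1 j i.2
      rw [if_neg h3] at h2
      exact Finset.mem_singleton.1 h2
    rw [this]
  rw [Finset.sum_congr rfl h1]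
  rw [← Finset.prod_univ_sum (fun i => if i ∈ D ∧ w i = z i then Finset.univ else {w i})
    (fun j a => th E κ j a (fun i => w i))]
  refine Finset.prod_congr rfl fun j _ => ?_
  by_cases h : j ∈ D ∧ w j = z j
  · rw [if_pos h, if_pos h, sum_th]
  · rw [if_neg h, if_neg h, Finset.sum_singleton]

theorem lin_empty (w : ∀ i, Fin (κ i)) : lin z ∅ w = X w := by
  unfold lin box
  have : (Fintype.piFinset fun i => if i ∈ (∅ : Finset (Fin n)) ∧ w i = z i then
      (Finset.univ : Finset (Fin (κ i))) else {w i}) = {w} := by
    ext u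
    simp [Fintype.mem_piFinset, funext_iff]
  rw [this, Finset.sum_singleton]

theorem lin_insert_of_ne {D : Finset (Fin n)} {s : Fin n} {w : ∀ i, Fin (κ i)}
    (h : w s ≠ z s) : lin z (insert s D) w = lin z D w := by
  unfold lin box
  congr 1
  congr 1
  funext i
  by_cases his : i = s
  · subst his
    rw [if_neg (fun h' => h h'.2), if_neg (fun h' => h h'.2)]
  · simp [Finset.mem_insert, his]

theorem lin_insert_of_eq {D : Finset (Fin n)} {s : Fin n} (hs : s ∉ D) {w : ∀ i, Fin (κ i)}
    (h : w s = z s) : lin z (insert s D) w = ∑ a, lin z D (Function.update w s a) := by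
  unfold lin
  rw [← Finset.sum_fiberwise (box z (insert s D) w) (fun u => u s)]
  refine Finset.sum_congr rfl fun a _ => ?_
  congr 1
  ext u
  unfold box
  simp only [Finset.mem_filter, Fintype.mem_piFinset]
  constructor
  · rintro ⟨h1, h2⟩ i
    by_cases his : i = s
    · subst his
      rw [if_neg (fun h' => hs h'.1), Function.update_self, Finset.mem_singleton, h2]
    · have := h1 i
      rw [Function.update_of_ne his]
      simpa [Finset.mem_insert, his] using this
  · intro h1
    have h2 := h1 s
    rw [if_neg (fun h' => hs h'.1), Function.update_self, Finset.mem_singleton] at h2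
    refine ⟨fun i => ?_, h2⟩
    by_cases his : i = s
    · subst his
      rw [if_pos ⟨Finset.mem_insert_self _ _, h⟩]
      exact Finset.mem_univ _
    · have := h1 i
      rw [Function.update_of_ne his] at this
      simpa [Finset.mem_insert, his] using this

theorem X_mem_span_lin (D : Finset (Fin n)) (w : ∀ i, Fin (κ i)) :
    (X w : MvPolynomial (∀ i, Fin (κ i)) ℝ) ∈ Submodule.span ℝ (Set.range (lin z D)) := by
  have key : ∀ (D : Finset (Fin n)) (w : ∀ i, Fin (κ i)),
      lin z ∅ w ∈ Submodule.span ℝ (Set.range (lin z D)) := by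
    intro D
    induction D using Finset.induction_on with
    | empty => intro w; exact Submodule.subset_span ⟨w, rfl⟩
    | insert s D hs ih =>
      intro w
      refine Submodule.span_le.2 ?_ (ih w)
      rintro _ ⟨v, rfl⟩
      by_cases h : v s = z s
      · have h1 := lin_insert_of_eq z hs h
        rw [← Finset.add_sum_erase _ _ (Finset.mem_univ (z s))] at h1
        rw [← h, Function.update_eq_self] at h1
        have h2 : lin z D v = lin z (insert s D) v -
            ∑ a ∈ Finset.univ.erase (v s), lin z (insert s D) (Function.update v s a) := by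
          rw [h1, eq_sub_iff_add_eq]
          congr 1
          refine Finset.sum_congr rfl fun a ha => ?_
          refine lin_insert_of_ne z ?_
          rw [Function.update_self, ← h]
          exact (Finset.mem_erase.1 ha).1
        rw [h2]
        refine Submodule.sub_mem _ (Submodule.subset_span ⟨v, rfl⟩)
          (Submodule.sum_mem _ fun a _ => Submodule.subset_span ⟨_, rfl⟩)
      · rw [← lin_insert_of_ne z h]
        exact Submodule.subset_span ⟨v, rfl⟩
  have := key D w
  rwa [lin_empty] at this

/-- The linear change of coordinates. -/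
noncomputable def psi (D : Finset (Fin n)) :
    MvPolynomial (∀ i, Fin (κ i)) ℝ →ₐ[ℝ] MvPolynomial (∀ i, Fin (κ i)) ℝ :=
  aeval (lin z D)

theorem psi_X (D : Finset (Fin n)) (w : ∀ i, Fin (κ i)) : psi z D (X w) = lin z D w := by
  unfold psi; rw [aeval_X]

/-- Every variable is the image of a linear form. -/
theorem exists_linear_preimage (D : Finset (Fin n)) (w : ∀ i, Fin (κ i)) :
    ∃ L ∈ Submodule.span ℝ (Set.range (X : (∀ i, Fin (κ i)) → MvPolynomial _ ℝ)),
      psi z D L = X w := by
  have h := X_mem_span_lin z D w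
  have h2 : Set.range (lin z D) = (psi z D).toLinearMap '' Set.range (X : (∀ i, Fin (κ i)) →
      MvPolynomial (∀ i, Fin (κ i)) ℝ) := by
    ext f
    simp only [Set.mem_range, Set.mem_image, exists_exists_eq_and, AlgHom.toLinearMap_apply,
      psi_X]
  rw [h2, ← Submodule.map_span] at h
  obtain ⟨L, hL, hL2⟩ := h
  exact ⟨L, hL, hL2⟩

theorem psi_surjective (D : Finset (Fin n)) : Function.Surjective (psi z D) := by
  rw [← AlgHom.range_eq_top, eq_top_iff]
  rw [← MvPolynomial.adjoin_range_X, Algebra.adjoin_le_iff]
  rintro _ ⟨w, rfl⟩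
  obtain ⟨L, _, hL⟩ := exists_linear_preimage z D w
  exact ⟨L, hL⟩

end Pool.Agent.Helper15
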