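import Mathlib

/-!
# Graph theory: existence of a suitable vertex
-/

set_option linter.unusedSectionVars false
set_option linter.unusedSimpArgs false

namespace Pool.Agent.Helper15

open Relation

theorem cyc_adj {k : ℕ} (hk : 3 ≤ k) {i j : Fin k} (h : i < j) :
    (SimpleGraph.cycleGraph k).Adj i j ↔ (j.val = i.val + 1 ∨ (i.val = 0 ∧ j.val + 1 = k)) := by
  rw [SimpleGraph.cycleGraph_adj']
  have h1 : (j - i).val = j.val - i.val := Fin.sub_val_of_le h.le
  have h2 : (i - j).val = k + i.val - j.val := Fin.coe_sub_iff_lt.2 h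
  have h3 : i.val < j.val := h
  have h4 := j.isLt
  rw [h1, h2]
  omega

section Cycles

variable {V : Type*} (H : SimpleGraph V)

/-- `q 0, …, q r` is an induced path. -/
def IndPath (q : ℕ → V) (r : ℕ) : Prop :=
  ∀ i j, i < j → j ≤ r → q i ≠ q j ∧ (H.Adj (q i) (q j) ↔ j = i + 1)

/-- Every induced cycle of length greater than three has length four and contains two
vertices of `S`. -/
def CycCond (S : Set V) : Prop :=
  ∀ (k : ℕ) (f : SimpleGraph.cycleGraph k ↪g H), 3 < k →
    k = 4 ∧ ∃ i j : Fin k, i ≠ j ∧ f i ∈ S ∧ f j ∈ S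

variable {H}

/-- Closing an induced path by a vertex gives an induced cycle. -/
theorem exists_cycle {q : ℕ → V} {r : ℕ} (hq : IndPath H q r) (hr : 2 ≤ r) {x : V}
    (h0 : H.Adj x (q 0)) (hl : H.Adj x (q r))
    (hx : ∀ i, 0 < i → i < r → x ≠ q i ∧ ¬ H.Adj x (q i)) :
    ∃ f : SimpleGraph.cycleGraph (r + 2) ↪g H,
      ∀ i : Fin (r + 2), f i = if i.val = 0 then x else q (i.val - 1) := by
  have hxne : ∀ i ≤ r, x ≠ q i := by
    intro i hi
    rcases Nat.eq_zero_or_pos i with rfl | h1
    · exact h0.ne
    · rcases lt_or_eq_of_le hi with h2 | rfl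
      · exact (hx i h1 h2).1
      · exact hl.ne
  obtain ⟨c, hc⟩ : ∃ c : Fin (r + 2) → V,
      c = fun i : Fin (r + 2) => if i.val = 0 then x else q (i.val - 1) := ⟨_, rfl⟩
  have key : ∀ i j : Fin (r + 2), i < j →
      c i ≠ c j ∧ (H.Adj (c i) (c j) ↔ (SimpleGraph.cycleGraph (r + 2)).Adj i j) := by
    intro i j hij
    have h3 : i.val < j.val := hij
    have h4 := j.isLt
    rw [cyc_adj (by omega) hij]
    by_cases hi : i.val = 0
    · have e1 : c i = x := by rw [hc]; simp [hi]
      have e2 : c j = q (j.val - 1) := by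
        rw [hc]; simp only
        rw [if_neg (by omega)]
      rw [e1, e2]
      refine ⟨hxne _ (by omega), ?_⟩
      constructor
      · intro h
        by_contra h5
        have h6 : 0 < j.val - 1 := by omega
        have h7 : j.val - 1 < r := by omega
        exact (hx _ h6 h7).2 h
      · rintro (h | h)
        · have : j.val - 1 = 0 := by omega
          rw [this]; exact h0
        · have : j.val - 1 = r := by omega
          rw [this]; exact hl
    · have e1 : c i = q (i.val - 1) := by
        rw [hc]; simp only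
        rw [if_neg hi]
      have e2 : c j = q (j.val - 1) := by
        rw [hc]; simp only
        rw [if_neg (by omega)]
      rw [e1, e2]
      obtain ⟨h5, h6⟩ := hq (i.val - 1) (j.val - 1) (by omega) (by omega)
      refine ⟨h5, ?_⟩
      rw [h6]
      omega
  have key2 : ∀ i j : Fin (r + 2),
      H.Adj (c i) (c j) ↔ (SimpleGraph.cycleGraph (r + 2)).Adj i j := by
    intro i j
    rcases lt_trichotomy i j with h | rfl | h
    · exact (key i j h).2
    · simp
    · rw [SimpleGraph.adj_comm, (key j i h).2, SimpleGraph.adj_comm]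
  refine ⟨⟨⟨c, ?_⟩, ?_⟩, ?_⟩
  · intro i j hij
    rcases lt_trichotomy i j with h | h | h
    · exact absurd hij (key i j h).1
    · exact h
    · exact absurd hij.symm (key j i h).1
  · intro i j
    exact key2 i j
  · intro i
    change c i = _
    rw [hc]

/-- Under the cycle condition, closing an induced path forces length two and two vertices of `S`
among the four. -/
theorem CycCond.close {S : Set V} (hS : CycCond H S) (hind : ∀ s ∈ S, ∀ t ∈ S, ¬ H.Adj s t)
    {q : ℕ → V} {r : ℕ} (hq : IndPath H q r) (hr : 2 ≤ r) {x : V}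
    (h0 : H.Adj x (q 0)) (hl : H.Adj x (q r))
    (hx : ∀ i, 0 < i → i < r → x ≠ q i ∧ ¬ H.Adj x (q i)) :
    r = 2 ∧ ((x ∈ S ∧ q 1 ∈ S) ∨ (q 0 ∈ S ∧ q 2 ∈ S)) := by
  obtain ⟨f, hf⟩ := exists_cycle hq hr h0 hl hx
  obtain ⟨h4, i, j, hij, hi, hj⟩ := hS (r + 2) f (by omega)
  have hr2 : r = 2 := by omega
  subst hr2
  refine ⟨rfl, ?_⟩
  have h01 : H.Adj (q 0) (q 1) := ((hq 0 1 (by omega) (by omega)).2).2 rfl
  have h12 : H.Adj (q 1) (q 2) := ((hq 1 2 (by omega) (by omega)).2).2 rfl
  rw [hf] at hi hj
  have hi4 := i.isLt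
  have hj4 := j.isLt
  have hij' : i.val ≠ j.val := fun h => hij (Fin.ext h)
  obtain ⟨i, hil⟩ := i
  obtain ⟨j, hjl⟩ := j
  simp only at hi hj hi4 hj4 hij'
  have key : ∀ i j, i < j → j < 4 → (if i = 0 then x else q (i - 1)) ∈ S →
      (if j = 0 then x else q (j - 1)) ∈ S → ((x ∈ S ∧ q 1 ∈ S) ∨ (q 0 ∈ S ∧ q 2 ∈ S)) := by
    intro i j hij hj4 hi hj
    have cases : (i = 0 ∧ j = 1) ∨ (i = 0 ∧ j = 2) ∨ (i = 0 ∧ j = 3) ∨ (i = 1 ∧ j = 2) ∨
      (i = 1 ∧ j = 3) ∨ (i = 2 ∧ j = 3) := by omega
    rcases cases with ⟨rfl, rfl⟩ | ⟨rfl, rfl⟩ | ⟨rfl, rfl⟩ | ⟨rfl, rfl⟩ | ⟨rfl, rfl⟩ | ⟨rfl, rfl⟩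
    · exact absurd h0 (hind _ hi _ hj)
    · exact Or.inl ⟨hi, hj⟩
    · exact absurd hl (hind _ hi _ hj)
    · exact absurd h01 (hind _ hi _ hj)
    · exact Or.inr ⟨hi, hj⟩
    · exact absurd h12 (hind _ hi _ hj)
  rcases lt_or_gt_of_ne hij' with h | h
  · exact key i j h hj4 hi hj
  · exact key j i h hi4 hj hi

/-- Existence of an induced path inside `U` from `y` to the first vertex of `A`. -/
theorem exists_indPath (U A : V → Prop) (y y' : V) (hy : U y)
    (hA : A y') (h : ReflTransGen (fun a b => H.Adj a b ∧ U b) y y') :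
    ∃ (m : ℕ) (p : ℕ → V), p 0 = y ∧ A (p m) ∧ (∀ i ≤ m, U (p i)) ∧ (∀ i < m, ¬ A (p i)) ∧
      IndPath H p m := by
  classical
  let Q : ℕ → Prop := fun m => ∃ p : ℕ → V, p 0 = y ∧ A (p m) ∧ (∀ i ≤ m, U (p i)) ∧
    (∀ i < m, H.Adj (p i) (p (i + 1)))
  have hQ : ∃ m, Q m := by
    have key : ∀ y', ReflTransGen (fun a b => H.Adj a b ∧ U b) y y' →
        ∃ (m : ℕ) (p : ℕ → V), p 0 = y ∧ p m = y' ∧ (∀ i ≤ m, U (p i)) ∧
          (∀ i < m, H.Adj (p i) (p (i + 1))) := by
      intro y' h
      induction h with
      | refl => exact ⟨0, fun _ => y, rfl, rfl, fun _ _ => hy, fun i hi => by omega⟩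
      | @tail b c _ h2 ih =>
        obtain ⟨m, p, h3, h4, h5, h6⟩ := ih
        refine ⟨m + 1, fun i => if i ≤ m then p i else c, by simp [h3], by simp, ?_, ?_⟩
        · intro i hi
          by_cases him : i ≤ m
          · simp only [him, if_true]; exact h5 i him
          · simp only [him, if_false]; exact h2.2
        · intro i hi
          have him : i ≤ m := by omega
          simp only [him, if_true]
          by_cases him2 : i + 1 ≤ m
          · simp only [him2, if_true]; exact h6 i (by omega)
          · simp only [him2, if_false]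
            have : i = m := by omega
            rw [this, h4]
            exact h2.1
    obtain ⟨m, p, h1, h2, h3, h4⟩ := key y' h
    exact ⟨m, p, h1, by rw [h2]; exact hA, h3, h4⟩
  have hm := Nat.find_spec hQ
  have hmin : ∀ m' < Nat.find hQ, ¬ Q m' := fun m' hm' => Nat.find_min hQ hm'
  obtain ⟨m, hmdef⟩ : ∃ m, m = Nat.find hQ := ⟨_, rfl⟩
  rw [← hmdef] at hm hmin
  obtain ⟨p, h1, h2, h3, h4⟩ := hm
  refine ⟨m, p, h1, h2, h3, ?_, ?_⟩
  · intro i hi hAi
    exact hmin i hi ⟨p, h1, hAi, fun j hj => h3 j (by omega), fun j hj => h4 j (by omega)⟩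
  · -- shortcuts are impossible
    have short : ∀ i j, i < j → j ≤ m → ∀ d, i + 1 + d = j → (H.Adj (p i) (p j)) → d = 0 := by
      intro i j hij hj d hd hadj
      by_contra hd0
      refine hmin (m - d) (by omega)
        ⟨fun k => if k ≤ i then p k else p (k + d), by simp [h1], ?_, ?_, ?_⟩
      · have : ¬ (m - d ≤ i) := by omega
        simp only [this, if_false]
        have e : m - d + d = m := by omega
        rw [e]; exact h2
      · intro k hk
        by_cases hki : k ≤ i
        · simp only [hki, if_true]; exact h3 k (by omega)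
        · simp only [hki, if_false]; exact h3 (k + d) (by omega)
      · intro k hk
        by_cases hki : k + 1 ≤ i
        · have hki2 : k ≤ i := by omega
          simp only [hki, hki2, if_true]; exact h4 k (by omega)
        · by_cases hki2 : k ≤ i
          · simp only [hki2, hki, if_true, if_false]
            have e1 : k = i := by omega
            have e2 : k + 1 + d = j := by omega
            rw [e2, e1]; exact hadj
          · simp only [hki2, hki, if_false]
            have e : k + 1 + d = k + d + 1 := by omega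
            rw [e]; exact h4 (k + d) (by omega)
    intro i j hij hj
    constructor
    · intro heq
      -- equal vertices: remove the segment
      by_cases hjm : j = m
      · rw [hjm] at heq
        exact hmin i (by omega) ⟨p, h1, by rw [heq]; exact h2, fun k hk => h3 k (by omega),
          fun k hk => h4 k (by omega)⟩
      · have hadj : H.Adj (p i) (p (j + 1)) := by
          rw [heq]; exact h4 j (by omega)
        have := short i (j + 1) (by omega) (by omega) (j - i) (by omega) hadj
        omega
    · constructor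
      · intro hadj
        have := short i j hij hj (j - i - 1) (by omega) hadj
        omega
      · intro h
        rw [h]
        exact h4 i (by omega)

/-- The neighbours of `s` in `W` are pairwise adjacent. -/
def NC (H : SimpleGraph V) (W : Finset V) (s : V) : Prop :=
  ∀ a ∈ W, ∀ b ∈ W, H.Adj s a → H.Adj s b → a ≠ b → H.Adj a b

/-- The vertex `v` is suitable for elimination. -/
def Nest (H : SimpleGraph V) (W S' : Finset V) (v : V) : Prop :=
  NC H W v ∧
  (∀ s ∈ S', H.Adj s v → NC H W s ∨ ∀ a ∈ W, H.Adj v a → H.Adj s a) ∧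
  (∀ s ∈ S', ∀ t ∈ S', H.Adj s v → H.Adj t v → ¬ NC H W s → ¬ NC H W t →
    (∀ a ∈ W, H.Adj s a → H.Adj t a) ∨ (∀ a ∈ W, H.Adj t a → H.Adj s a))

theorem nest_exists {S : Set V} (hS : CycCond H S) (hind : ∀ s ∈ S, ∀ t ∈ S, ¬ H.Adj s t)
    [DecidableEq V] :
    ∀ (n : ℕ) (W S' B : Finset V), W.card + S'.card + (W \ B).card = n →
      (∀ s ∈ S', s ∈ S) → (∀ w ∈ W, w ∉ S) → B ⊆ W → (W \ B).Nonempty →
      ((∀ a ∈ B, ∀ b ∈ B, a ≠ b → H.Adj a b) ∨
        ∃ s ∈ S, s ∉ S' ∧ ∀ a ∈ W, a ∈ B ↔ H.Adj s a) →
      ∃ v ∈ W, v ∉ B ∧ Nest H W S' v := by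
  classical
  intro n
  induction n using Nat.strong_induction_on with
  | _ n ih =>
  intro W S' B hn hS' hW hBW hne hB
  obtain ⟨x0, hx0⟩ := hne
  have hx0' := Finset.mem_sdiff.1 hx0
  obtain ⟨U, hU⟩ : ∃ U : V → Prop, U = fun y => (y ∈ W ∧ y ∉ B) ∨ y ∈ S' := ⟨_, rfl⟩
  have hUx0 : U x0 := by rw [hU]; exact Or.inl hx0'
  have hUB : ∀ y, U y → y ∉ B := by
    intro y hy hyB
    rw [hU] at hy
    rcases hy with h | h
    · exact h.2 hyB
    · exact hW y (hBW hyB) (hS' y h)
  obtain ⟨K, hK⟩ : ∃ K : V → Prop,
      K = fun y => ReflTransGen (fun a b => H.Adj a b ∧ U b) x0 y := ⟨_, rfl⟩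
  have hKU : ∀ y, K y → U y := by
    intro y hy
    rw [hK] at hy
    rcases ReflTransGen.cases_tail hy with h | ⟨c, _, h⟩
    · rw [h]; exact hUx0
    · exact h.2
  have hKc : ∀ y y', K y → H.Adj y y' → U y' → K y' := by
    intro y y' hy ha hu
    rw [hK] at hy ⊢
    exact hy.tail ⟨ha, hu⟩
  have hKx0 : K x0 := by rw [hK]
  by_cases hall : (∀ y, U y → K y) ∧ (∀ b ∈ B, ∃ y, K y ∧ H.Adj y b)
  swap
  · -- restrict to a component and its boundary
    obtain ⟨W1, hW1⟩ : ∃ W1, W1 = W.filter (fun a => K a ∨ (a ∈ B ∧ ∃ y, K y ∧ H.Adj y a)) :=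
      ⟨_, rfl⟩
    obtain ⟨S1, hS1⟩ : ∃ S1, S1 = S'.filter K := ⟨_, rfl⟩
    obtain ⟨B1, hB1⟩ : ∃ B1, B1 = B.filter (fun a => ∃ y, K y ∧ H.Adj y a) := ⟨_, rfl⟩
    have mW1 : ∀ a, a ∈ W1 ↔ a ∈ W ∧ (K a ∨ (a ∈ B ∧ ∃ y, K y ∧ H.Adj y a)) := by
      intro a; rw [hW1, Finset.mem_filter]
    have mS1 : ∀ a, a ∈ S1 ↔ a ∈ S' ∧ K a := by
      intro a; rw [hS1, Finset.mem_filter]
    have mB1 : ∀ a, a ∈ B1 ↔ a ∈ B ∧ ∃ y, K y ∧ H.Adj y a := by
      intro a; rw [hB1, Finset.mem_filter]
    have hW1W : W1 ⊆ W := fun a ha => ((mW1 a).1 ha).1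
    have hS1S : S1 ⊆ S' := fun a ha => ((mS1 a).1 ha).1
    have hout : ∀ a, a ∈ W1 → a ∉ B1 → a ∉ B ∧ K a := by
      intro a ha hb
      obtain ⟨h1, h2⟩ := (mW1 a).1 ha
      rcases h2 with h2 | h2
      · exact ⟨hUB a (hKU a h2), h2⟩
      · exact absurd ((mB1 a).2 h2) hb
    have hsub : W1 \ B1 ⊆ W \ B := by
      intro a ha
      obtain ⟨h1, h2⟩ := Finset.mem_sdiff.1 ha
      exact Finset.mem_sdiff.2 ⟨hW1W h1, (hout a h1 h2).1⟩
    have hlt : W1.card + S1.card < W.card + S'.card := by
      have c1 := Finset.card_le_card hW1W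
      have c2 := Finset.card_le_card hS1S
      rcases not_and_or.1 hall with h | h
      · push Not at h
        obtain ⟨y, hy1, hy2⟩ := h
        have hyB := hUB y hy1
        rw [hU] at hy1
        rcases hy1 with h3 | h3
        · have : W1 ⊂ W := by
            refine Finset.ssubset_iff_subset_ne.2 ⟨hW1W, fun h => ?_⟩
            have : y ∈ W1 := by rw [h]; exact h3.1
            rcases ((mW1 y).1 this).2 with h4 | h4
            · exact hy2 h4
            · exact hyB h4.1
          have := Finset.card_lt_card this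
          omega
        · have : S1 ⊂ S' := by
            refine Finset.ssubset_iff_subset_ne.2 ⟨hS1S, fun h => ?_⟩
            have : y ∈ S1 := by rw [h]; exact h3
            exact hy2 ((mS1 y).1 this).2
          have := Finset.card_lt_card this
          omega
      · push Not at h
        obtain ⟨b, hb1, hb2⟩ := h
        have : W1 ⊂ W := by
          refine Finset.ssubset_iff_subset_ne.2 ⟨hW1W, fun h => ?_⟩
          have : b ∈ W1 := by rw [h]; exact hBW hb1
          rcases ((mW1 b).1 this).2 with h4 | h4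
          · exact hUB b (hKU b h4) hb1
          · obtain ⟨_, y, hy, hyb⟩ := h4
            exact hb2 y hy hyb
        have := Finset.card_lt_card this
        omega
    have hcard := Finset.card_le_card hsub
    obtain ⟨v, hv1, hv2, hv3, hv4, hv5⟩ := ih (W1.card + S1.card + (W1 \ B1).card) (by omega)
      W1 S1 B1 rfl (fun s hs => hS' s (hS1S hs)) (fun w hw => hW w (hW1W hw))
      (by
        intro a ha
        have h1 := (mB1 a).1 ha
        exact (mW1 a).2 ⟨hBW h1.1, Or.inr h1⟩)
      ⟨x0, Finset.mem_sdiff.2 ⟨(mW1 x0).2 ⟨hx0'.1, Or.inl hKx0⟩,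
        fun h => hx0'.2 ((mB1 x0).1 h).1⟩⟩
      (by
        rcases hB with hB | ⟨s, hs1, hs2, hs3⟩
        · left
          intro a ha b hb hab
          exact hB a ((mB1 a).1 ha).1 b ((mB1 b).1 hb).1 hab
        · right
          refine ⟨s, hs1, fun h => hs2 (hS1S h), fun a ha => ?_⟩
          constructor
          · intro h
            exact (hs3 a (hW1W ha)).1 ((mB1 a).1 h).1
          · intro h
            have h1 := (hs3 a (hW1W ha)).2 h
            rcases ((mW1 a).1 ha).2 with h2 | h2
            · exact absurd h1 (hUB a (hKU a h2))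
            · exact (mB1 a).2 h2)
    obtain ⟨hvB, hvK⟩ := hout v hv1 hv2
    have hnb : ∀ y, K y → ∀ a ∈ W, H.Adj y a → a ∈ W1 := by
      intro y hy a ha hya
      by_cases haB : a ∈ B
      · exact (mW1 a).2 ⟨ha, Or.inr ⟨haB, y, hy, hya⟩⟩
      · refine (mW1 a).2 ⟨ha, Or.inl (hKc y a hy hya ?_)⟩
        rw [hU]; exact Or.inl ⟨ha, haB⟩
    have hsS1 : ∀ s ∈ S', H.Adj s v → s ∈ S1 := by
      intro s hs hsv
      refine (mS1 s).2 ⟨hs, hKc v s hvK hsv.symm ?_⟩
      rw [hU]; exact Or.inr hs
    have hNC : ∀ y, K y → (NC H W1 y ↔ NC H W y) := by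
      intro y hy
      constructor
      · intro h a ha b hb hya hyb hab
        exact h a (hnb y hy a ha hya) b (hnb y hy b hb hyb) hya hyb hab
      · intro h a ha b hb hya hyb hab
        exact h a (hW1W ha) b (hW1W hb) hya hyb hab
    refine ⟨v, hW1W hv1, hvB, (hNC v hvK).1 hv3, ?_, ?_⟩
    · intro s hs hsv
      have h1 := hsS1 s hs hsv
      have h2 := ((mS1 s).1 h1).2
      rcases hv4 s h1 hsv with h3 | h3
      · exact Or.inl ((hNC s h2).1 h3)
      · exact Or.inr fun a ha hva => h3 a (hnb v hvK a ha hva) hva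
    · intro s hs t ht hsv htv hns hnt
      have h1 := hsS1 s hs hsv
      have h2 := ((mS1 s).1 h1).2
      have h3 := hsS1 t ht htv
      have h4 := ((mS1 t).1 h3).2
      rcases hv5 s h1 t h3 hsv htv (fun h => hns ((hNC s h2).1 h))
        (fun h => hnt ((hNC t h4).1 h)) with h5 | h5
      · exact Or.inl fun a ha hsa => h5 a (hnb s h2 a ha hsa) hsa
      · exact Or.inr fun a ha hta => h5 a (hnb t h4 a ha hta) hta
  · obtain ⟨hall1, hall2⟩ := hall
    obtain ⟨y, hyU, hymax⟩ : ∃ y, U y ∧ ∀ y', U y' →
        (B.filter (H.Adj y')).card ≤ (B.filter (H.Adj y)).card := by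
      obtain ⟨y, hy1, hy2⟩ := Finset.exists_max_image ((W \ B) ∪ S')
        (fun y => (B.filter (H.Adj y)).card) ⟨x0, Finset.mem_union_left _ hx0⟩
      refine ⟨y, ?_, fun y' hy' => hy2 y' ?_⟩
      · rw [hU]
        rcases Finset.mem_union.1 hy1 with h | h
        · exact Or.inl (Finset.mem_sdiff.1 h)
        · exact Or.inr h
      · rw [hU] at hy'
        rcases hy' with h | h
        · exact Finset.mem_union_left _ (Finset.mem_sdiff.2 h)
        · exact Finset.mem_union_right _ h
    have hsymm : ∀ y, K y → ReflTransGen (fun a b => H.Adj a b ∧ U b) y x0 := by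
      intro y hy
      rw [hK] at hy
      have key : ReflTransGen (fun a b => H.Adj a b ∧ U b) y x0 ∧ U y := by
        induction hy with
        | refl => exact ⟨ReflTransGen.refl, hUx0⟩
        | tail _ h2 ih2 => exact ⟨ReflTransGen.head ⟨h2.1.symm, ih2.2⟩ ih2.1, h2.2⟩
      exact key.1
    have hfull : ∀ b ∈ B, H.Adj y b := by
      by_contra hcon
      push Not at hcon
      obtain ⟨b0, hb0, hyb0⟩ := hcon
      obtain ⟨y1, hy1K, hy1b⟩ := hall2 b0 hb0
      obtain ⟨A, hA⟩ : ∃ A : V → Prop, A = fun y' => ∃ b ∈ B, ¬ H.Adj y b ∧ H.Adj y' b :=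
        ⟨_, rfl⟩
      have hAy1 : A y1 := by rw [hA]; exact ⟨b0, hb0, hyb0, hy1b⟩
      have hpath : ReflTransGen (fun a b => H.Adj a b ∧ U b) y y1 := by
        refine (hsymm y (hall1 y hyU)).trans ?_
        rw [hK] at hy1K
        exact hy1K
      obtain ⟨m, p, hp0, hpm, hpU, hpA, hpI⟩ := exists_indPath U A y y1 hyU hAy1 hpath
      have hm0 : m ≠ 0 := by
        rintro rfl
        rw [hp0, hA] at hpm
        obtain ⟨b, _, h1, h2⟩ := hpm
        exact h1 h2
      rw [hA] at hpm
      obtain ⟨b', hb'B, hyb', hpmb'⟩ := hpm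
      obtain ⟨a, haB, hya, hpma⟩ : ∃ a ∈ B, H.Adj y a ∧ ¬ H.Adj (p m) a := by
        by_contra hcon
        push Not at hcon
        have hss : B.filter (H.Adj y) ⊂ B.filter (H.Adj (p m)) := by
          refine Finset.ssubset_iff_subset_ne.2 ⟨?_, fun h => ?_⟩
          · intro c hc
            obtain ⟨h1, h2⟩ := Finset.mem_filter.1 hc
            exact Finset.mem_filter.2 ⟨h1, hcon c h1 h2⟩
          · have : b' ∈ B.filter (H.Adj y) := by
              rw [h]; exact Finset.mem_filter.2 ⟨hb'B, hpmb'⟩
            exact hyb' (Finset.mem_filter.1 this).2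
        have h1 := Finset.card_lt_card hss
        have h2 := hymax (p m) (hpU m le_rfl)
        omega
      -- the last vertex of the path adjacent to `a`
      obtain ⟨j, hjm, hja, hjmax⟩ : ∃ j, j < m ∧ H.Adj a (p j) ∧
          ∀ i, j < i → i ≤ m → ¬ H.Adj a (p i) := by
        have h0 : H.Adj a (p 0) := by rw [hp0]; exact hya.symm
        refine ⟨Nat.findGreatest (fun i => H.Adj a (p i)) m, ?_, ?_, ?_⟩
        · refine lt_of_le_of_ne (Nat.findGreatest_le m) fun h => ?_
          have := Nat.findGreatest_spec (P := fun i => H.Adj a (p i)) (Nat.zero_le m) h0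
          rw [h] at this
          exact hpma this.symm
        · exact Nat.findGreatest_spec (P := fun i => H.Adj a (p i)) (Nat.zero_le m) h0
        · intro i hi him
          exact Nat.findGreatest_is_greatest hi him
      have haS : a ∉ S := hW a (hBW haB)
      have hb'S : b' ∉ S := hW b' (hBW hb'B)
      have hUne : ∀ i ≤ m, ∀ c ∈ B, p i ≠ c := by
        intro i hi c hc h
        exact hUB (p i) (hpU i hi) (h ▸ hc)
      obtain ⟨q, hq⟩ : ∃ q : ℕ → V, q = fun i => if i ≤ m - j then p (j + i) else b' := ⟨_, rfl⟩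
      have hq1 : ∀ i, i ≤ m - j → q i = p (j + i) := by
        intro i hi; rw [hq]; simp only; rw [if_pos hi]
      have hq2 : q (m - j + 1) = b' := by
        rw [hq]; simp only; rw [if_neg (by omega)]
      have hqI : IndPath H q (m - j + 1) := by
        intro i i' hii hi'
        by_cases h1 : i' ≤ m - j
        · rw [hq1 i (by omega), hq1 i' h1]
          obtain ⟨h2, h3⟩ := hpI (j + i) (j + i') (by omega) (by omega)
          refine ⟨h2, ?_⟩
          rw [h3]; omega
        · have h2 : i' = m - j + 1 := by omega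
          rw [h2, hq2, hq1 i (by omega)]
          refine ⟨hUne _ (by omega) b' hb'B, ?_⟩
          constructor
          · intro h3
            by_contra h4
            have h5 := hpA (j + i) (by omega)
            rw [hA] at h5
            exact h5 ⟨b', hb'B, hyb', h3⟩
          · intro h3
            have h4 : j + i = m := by omega
            rw [h4]; exact hpmb'
      have haq : ∀ i, 0 < i → i < m - j + 1 → a ≠ q i ∧ ¬ H.Adj a (q i) := by
        intro i hi1 hi2
        rw [hq1 i (by omega)]
        exact ⟨fun h => hUne (j + i) (by omega) a haB h.symm, hjmax (j + i) (by omega) (by omega)⟩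
      have haq0 : H.Adj a (q 0) := by
        rw [hq1 0 (by omega)]; exact hja
      by_cases hab : H.Adj a b'
      · obtain ⟨h1, h2⟩ := hS.close hind hqI (by omega) haq0 (by rw [hq2]; exact hab) haq
        rcases h2 with h2 | h2
        · exact haS h2.1
        · rw [← h1, hq2] at h2
          exact hb'S h2.2
      · have hane : a ≠ b' := by rintro rfl; exact hyb' hya
        rcases hB with hB | ⟨s, hs1, hs2, hs3⟩
        · exact hab (hB a haB b' hb'B hane)
        · obtain ⟨q', hq'⟩ : ∃ q' : ℕ → V, q' = fun i => if i = 0 then a else q (i - 1) := ⟨_, rfl⟩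
          have hq'0 : q' 0 = a := by rw [hq']; simp
          have hq'1 : ∀ i, 0 < i → q' i = q (i - 1) := by
            intro i hi
            rw [hq']; simp only; rw [if_neg (by omega)]
          have hq'I : IndPath H q' (m - j + 2) := by
            intro i i' hii hi'
            rw [hq'1 i' (by omega)]
            by_cases h0 : i = 0
            · subst h0
              rw [hq'0]
              by_cases h1 : i' - 1 = 0
              · rw [h1]
                refine ⟨haq0.ne, ?_⟩
                constructor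
                · intro _; omega
                · intro _; exact haq0
              · by_cases h2 : i' - 1 = m - j + 1
                · rw [h2, hq2]
                  refine ⟨hane, ?_⟩
                  constructor
                  · intro h; exact absurd h hab
                  · intro h; omega
                · obtain ⟨h3, h4⟩ := haq (i' - 1) (by omega) (by omega)
                  refine ⟨h3, ?_⟩
                  constructor
                  · intro h; exact absurd h h4
                  · intro h; omega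
            · rw [hq'1 i (by omega)]
              obtain ⟨h3, h4⟩ := hqI (i - 1) (i' - 1) (by omega) (by omega)
              refine ⟨h3, ?_⟩
              rw [h4]; omega
          have hsa : H.Adj s a := (hs3 a (hBW haB)).1 haB
          have hsb : H.Adj s b' := (hs3 b' (hBW hb'B)).1 hb'B
          have hsU : ∀ i ≤ m, s ≠ p i ∧ ¬ H.Adj s (p i) := by
            intro i hi
            have h1 := hpU i hi
            rw [hU] at h1
            rcases h1 with h1 | h1
            · refine ⟨fun h => hW (p i) h1.1 (h ▸ hs1), fun h => h1.2 ((hs3 _ h1.1).2 h)⟩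
            · exact ⟨fun h => hs2 (h ▸ h1), hind s hs1 _ (hS' _ h1)⟩
          obtain ⟨h1, _⟩ := hS.close hind hq'I (by omega) (by rw [hq'0]; exact hsa)
            (by rw [hq'1 _ (by omega)]
                have : m - j + 2 - 1 = m - j + 1 := by omega
                rw [this, hq2]; exact hsb)
            (by
              intro i hi1 hi2
              rw [hq'1 i hi1, hq1 (i - 1) (by omega)]
              exact hsU _ (by omega))
          omega
    rw [hU] at hyU
    rcases hyU with ⟨hyW, hyB⟩ | hyS
    · -- `y` is not a sink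
      have hyS : y ∉ S := hW y hyW
      have hBcl : ∀ a ∈ B, ∀ b ∈ B, a ≠ b → H.Adj a b := by
        rcases hB with hB | ⟨s, hs1, hs2, hs3⟩
        · exact hB
        · intro a ha b hb hab
          by_contra hnab
          obtain ⟨q, hq⟩ : ∃ q : ℕ → V,
            q = fun i => if i = 0 then a else if i = 1 then y else b := ⟨_, rfl⟩
          have q0 : q 0 = a := by rw [hq]; simp
          have q1 : q 1 = y := by rw [hq]; simp
          have q2 : q 2 = b := by rw [hq]; simp
          have hI : IndPath H q 2 := by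
            intro i i' hii hi'
            have cases : (i = 0 ∧ i' = 1) ∨ (i = 0 ∧ i' = 2) ∨ (i = 1 ∧ i' = 2) := by omega
            rcases cases with ⟨rfl, rfl⟩ | ⟨rfl, rfl⟩ | ⟨rfl, rfl⟩
            · rw [q0, q1]
              exact ⟨fun h => hyB (h ▸ ha), by simp [(hfull a ha).symm]⟩
            · rw [q0, q2]
              exact ⟨hab, by simp [hnab]⟩
            · rw [q1, q2]
              exact ⟨fun h => hyB (h ▸ hb), by simp [hfull b hb]⟩
          obtain ⟨_, h2⟩ := hS.close hind (x := s) hI le_rfl
            (by rw [q0]; exact (hs3 a (hBW ha)).1 ha)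
            (by rw [q2]; exact (hs3 b (hBW hb)).1 hb)
            (by
              intro i hi1 hi2
              have : i = 1 := by omega
              rw [this, q1]
              exact ⟨fun h => hyS (h ▸ hs1), fun h => hyB ((hs3 y hyW).2 h)⟩)
          rcases h2 with h2 | h2
          · rw [q1] at h2; exact hyS h2.2
          · rw [q0] at h2; exact hW a (hBW ha) h2.1
      by_cases hWall : ∀ a ∈ W, a ∈ B ∨ a = y
      · have hWcl : ∀ a ∈ W, ∀ b ∈ W, a ≠ b → H.Adj a b := by
          intro a ha b hb hab
          rcases hWall a ha with h1 | h1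
          · rcases hWall b hb with h2 | h2
            · exact hBcl a h1 b h2 hab
            · rw [h2]; exact (hfull a h1).symm
          · rcases hWall b hb with h2 | h2
            · rw [h1]; exact hfull b h2
            · exact absurd (h1.trans h2.symm) hab
        refine ⟨y, hyW, hyB, fun a ha b hb _ _ hab => hWcl a ha b hb hab,
          fun s _ _ => Or.inl fun a ha b hb _ _ hab => hWcl a ha b hb hab,
          fun s _ t _ _ _ h1 _ => absurd (fun a ha b hb _ _ hab => hWcl a ha b hb hab) h1⟩
      · push Not at hWall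
        obtain ⟨c, hcW, hcB, hcy⟩ := hWall
        have hss : W \ insert y B ⊂ W \ B := by
          refine Finset.ssubset_iff_subset_ne.2 ⟨?_, fun h => ?_⟩
          · exact Finset.sdiff_subset_sdiff (Finset.Subset.refl _) (Finset.subset_insert _ _)
          · have : y ∈ W \ insert y B := by
              rw [h]; exact Finset.mem_sdiff.2 ⟨hyW, hyB⟩
            exact (Finset.mem_sdiff.1 this).2 (Finset.mem_insert_self _ _)
        have hcard := Finset.card_lt_card hss
        obtain ⟨v, hv1, hv2, hv3⟩ := ih (W.card + S'.card + (W \ insert y B).card) (by omega)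
          W S' (insert y B) rfl hS' hW (Finset.insert_subset hyW hBW)
          ⟨c, Finset.mem_sdiff.2 ⟨hcW, by
            rw [Finset.mem_insert, not_or]; exact ⟨hcy, hcB⟩⟩⟩
          (Or.inl (by
            intro a ha b hb hab
            rcases Finset.mem_insert.1 ha with h1 | h1
            · rcases Finset.mem_insert.1 hb with h2 | h2
              · exact absurd (h1.trans h2.symm) hab
              · rw [h1]; exact hfull b h2
            · rcases Finset.mem_insert.1 hb with h2 | h2
              · rw [h2]; exact (hfull a h1).symm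
              · exact hBcl a h1 b h2 hab))
        exact ⟨v, hv1, fun h => hv2 (Finset.mem_insert_of_mem h), hv3⟩
    · -- `y` is a sink
      have hyS' := hS' y hyS
      have hcardS : (S'.erase y).card + 1 = S'.card := Finset.card_erase_add_one hyS
      by_cases hyW : ∀ a ∈ W, H.Adj y a
      · obtain ⟨v, hv1, hv2, hv3, hv4, hv5⟩ :=
          ih (W.card + (S'.erase y).card + (W \ B).card) (by omega)
          W (S'.erase y) B rfl (fun s hs => hS' s (Finset.mem_of_mem_erase hs)) hW hBW
          ⟨x0, hx0⟩
          (by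
            rcases hB with hB | ⟨s, hs1, hs2, hs3⟩
            · exact Or.inl hB
            · exact Or.inr ⟨s, hs1, fun h => hs2 (Finset.mem_of_mem_erase h), hs3⟩)
        refine ⟨v, hv1, hv2, hv3, ?_, ?_⟩
        · intro s hs hsv
          by_cases hsy : s = y
          · right; intro a ha _; rw [hsy]; exact hyW a ha
          · exact hv4 s (Finset.mem_erase.2 ⟨hsy, hs⟩) hsv
        · intro s hs t ht hsv htv hns hnt
          by_cases hsy : s = y
          · right; intro a ha _; rw [hsy]; exact hyW a ha
          · by_cases hty : t = y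
            · left; intro a ha _; rw [hty]; exact hyW a ha
            · exact hv5 s (Finset.mem_erase.2 ⟨hsy, hs⟩) t (Finset.mem_erase.2 ⟨hty, ht⟩)
                hsv htv hns hnt
      · push Not at hyW
        obtain ⟨c, hcW, hyc⟩ := hyW
        have hBsub : B ⊆ W.filter (H.Adj y) := fun b hb =>
          Finset.mem_filter.2 ⟨hBW hb, hfull b hb⟩
        have hcard : (W \ W.filter (H.Adj y)).card ≤ (W \ B).card :=
          Finset.card_le_card (Finset.sdiff_subset_sdiff (Finset.Subset.refl _) hBsub)
        obtain ⟨v, hv1, hv2, hv3, hv4, hv5⟩ :=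
          ih (W.card + (S'.erase y).card + (W \ W.filter (H.Adj y)).card) (by omega)
          W (S'.erase y) (W.filter (H.Adj y)) rfl
          (fun s hs => hS' s (Finset.mem_of_mem_erase hs)) hW (Finset.filter_subset _ _)
          ⟨c, Finset.mem_sdiff.2 ⟨hcW, fun h => hyc (Finset.mem_filter.1 h).2⟩⟩
          (Or.inr ⟨y, hyS', fun h => (Finset.mem_erase.1 h).1 rfl, fun a ha => by
            rw [Finset.mem_filter]; exact ⟨fun h => h.2, fun h => ⟨ha, h⟩⟩⟩)
        have hyv : ¬ H.Adj y v := fun h => hv2 (Finset.mem_filter.2 ⟨hv1, h⟩)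
        refine ⟨v, hv1, fun h => hv2 (hBsub h), hv3, ?_, ?_⟩
        · intro s hs hsv
          by_cases hsy : s = y
          · rw [hsy] at hsv; exact absurd hsv hyv
          · exact hv4 s (Finset.mem_erase.2 ⟨hsy, hs⟩) hsv
        · intro s hs t ht hsv htv hns hnt
          by_cases hsy : s = y
          · rw [hsy] at hsv; exact absurd hsv hyv
          · by_cases hty : t = y
            · rw [hty] at htv; exact absurd htv hyv
            · exact hv5 s (Finset.mem_erase.2 ⟨hsy, hs⟩) t (Finset.mem_erase.2 ⟨hty, ht⟩)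
                hsv htv hns hnt

end Cycles

end Pool.Agent.Helper15
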