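import Pool.Agent.Helper15.Alg1
import Pool.Agent.Helper15.Graph

/-!
# The global Markov ideal is contained in the prime ideal
-/

set_option linter.unusedSectionVars false
set_option linter.unusedSimpArgs false

namespace Pool.Agent.Helper15

open MvPolynomial Relation

variable {n : ℕ} (E : Fin n → Fin n → Prop) {κ : Fin n → ℕ} (z : ∀ i, Fin (κ i))

theorem marginal_eq_sum_filter (A B C : Finset (Fin n)) (a b c : ∀ i, Fin (κ i)) :
    marginal κ A B C a b c = ∑ u ∈ Finset.univ.filter (fun u : ∀ i, Fin (κ i) =>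
      (∀ i ∈ A, u i = a i) ∧ (∀ i ∈ B, u i = b i) ∧ (∀ i ∈ C, u i = c i)), X u := by
  unfold marginal
  exact (Finset.sum_subtype _ (fun u => by simp) _).symm

/-- States with prescribed values on `A`, `B`, `C` and `D`. -/
def tset (A B C D : Finset (Fin n)) (a b c : ∀ i, Fin (κ i)) : Finset (∀ i, Fin (κ i)) :=
  Fintype.piFinset fun i => if i ∈ A then {a i} else if i ∈ B then {b i} else
    if i ∈ C then {c i} else if i ∈ D then {z i} else Finset.univ

theorem mem_tset (A B C D : Finset (Fin n)) (hAB : Disjoint A B) (hAC : Disjoint A C)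
    (hBC : Disjoint B C) (hD : ∀ i ∈ D, i ∉ A ∧ i ∉ B ∧ i ∉ C) (a b c u : ∀ i, Fin (κ i)) :
    u ∈ tset z A B C D a b c ↔ (∀ i ∈ A, u i = a i) ∧ (∀ i ∈ B, u i = b i) ∧
      (∀ i ∈ C, u i = c i) ∧ (∀ i ∈ D, u i = z i) := by
  unfold tset
  rw [Fintype.mem_piFinset]
  constructor
  · intro h
    refine ⟨fun i hi => ?_, fun i hi => ?_, fun i hi => ?_, fun i hi => ?_⟩
    · have := h i
      rw [if_pos hi] at this
      exact Finset.mem_singleton.1 this
    · have := h i
      rw [if_neg (fun h' => Finset.disjoint_left.1 hAB h' hi), if_pos hi] at this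
      exact Finset.mem_singleton.1 this
    · have := h i
      rw [if_neg (fun h' => Finset.disjoint_left.1 hAC h' hi),
        if_neg (fun h' => Finset.disjoint_left.1 hBC h' hi), if_pos hi] at this
      exact Finset.mem_singleton.1 this
    · have := h i
      obtain ⟨h1, h2, h3⟩ := hD i hi
      rw [if_neg h1, if_neg h2, if_neg h3, if_pos hi] at this
      exact Finset.mem_singleton.1 this
  · rintro ⟨h1, h2, h3, h4⟩ i
    split_ifs with g1 g2 g3 g4
    · exact Finset.mem_singleton.2 (h1 i g1)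
    · exact Finset.mem_singleton.2 (h2 i g2)
    · exact Finset.mem_singleton.2 (h3 i g3)
    · exact Finset.mem_singleton.2 (h4 i g4)
    · exact Finset.mem_univ _

theorem mem_box (D : Finset (Fin n)) (w u : ∀ i, Fin (κ i)) :
    u ∈ box z D w ↔ ∀ i, u i = w i ∨ (i ∈ D ∧ w i = z i) := by
  unfold box
  rw [Fintype.mem_piFinset]
  refine forall_congr' fun i => ?_
  by_cases h : i ∈ D ∧ w i = z i
  · rw [if_pos h]; simp [h]
  · rw [if_neg h, Finset.mem_singleton]
    constructor
    · exact Or.inl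
    · rintro (h' | h')
      · exact h'
      · exact absurd h' h

theorem marginal_eq_sum_lin (A B C D : Finset (Fin n)) (hAB : Disjoint A B)
    (hAC : Disjoint A C) (hBC : Disjoint B C) (hD : ∀ i ∈ D, i ∉ A ∧ i ∉ B ∧ i ∉ C)
    (a b c : ∀ i, Fin (κ i)) :
    marginal κ A B C a b c = ∑ w ∈ tset z A B C D a b c, lin z D w := by
  classical
  rw [marginal_eq_sum_filter]
  unfold lin
  rw [← Finset.sum_fiberwise_of_maps_to (s := Finset.univ.filter (fun u : ∀ i, Fin (κ i) =>
      (∀ i ∈ A, u i = a i) ∧ (∀ i ∈ B, u i = b i) ∧ (∀ i ∈ C, u i = c i)))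
      (t := tset z A B C D a b c) (g := fun u i => if i ∈ D then z i else u i)]
  · refine Finset.sum_congr rfl fun w hw => ?_
    congr 1
    ext u
    rw [mem_tset z A B C D hAB hAC hBC hD] at hw
    obtain ⟨w1, w2, w3, w4⟩ := hw
    rw [mem_box]
    simp only [Finset.mem_filter, Finset.mem_univ, true_and]
    constructor
    · rintro ⟨⟨h1, h2, h3⟩, h4⟩ i
      have h5 := congrFun h4 i
      by_cases hi : i ∈ D
      · exact Or.inr ⟨hi, w4 i hi⟩
      · rw [if_neg hi] at h5
        exact Or.inl h5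
    · intro h
      have h' : ∀ i, i ∉ D → u i = w i := by
        intro i hi
        rcases h i with h1 | h1
        · exact h1
        · exact absurd h1.1 hi
      refine ⟨⟨fun i hi => ?_, fun i hi => ?_, fun i hi => ?_⟩, ?_⟩
      · rw [h' i (fun h => (hD i h).1 hi), w1 i hi]
      · rw [h' i (fun h => (hD i h).2.1 hi), w2 i hi]
      · rw [h' i (fun h => (hD i h).2.2 hi), w3 i hi]
      · funext i
        by_cases hi : i ∈ D
        · rw [if_pos hi, w4 i hi]
        · rw [if_neg hi, h' i hi]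
  · intro u hu
    simp only [Finset.mem_filter, Finset.mem_univ, true_and] at hu
    obtain ⟨h1, h2, h3⟩ := hu
    rw [mem_tset z A B C D hAB hAC hBC hD]
    refine ⟨fun i hi => ?_, fun i hi => ?_, fun i hi => ?_, fun i hi => ?_⟩
    · rw [if_neg (fun h => (hD i h).1 hi), h1 i hi]
    · rw [if_neg (fun h => (hD i h).2.1 hi), h2 i hi]
    · rw [if_neg (fun h => (hD i h).2.2 hi), h3 i hi]
    · rw [if_pos hi]

/-- The vertices used in the connectivity argument. -/
def HV (A B C : Finset (Fin n)) (i : Fin n) : Prop :=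
  (i ∉ C ∧ ¬ IsSink E i) ∨ (IsSink E i ∧ (i ∈ A ∨ i ∈ B ∨ i ∈ C))

/-- The vertices reachable from `A`. -/
def Reach (A B C : Finset (Fin n)) (i : Fin n) : Prop :=
  ∃ a ∈ A, ReflTransGen (fun a b => (SimpleGraph.fromRel E).Adj a b ∧ HV E A B C b) a i

theorem not_reach {E} (A B C : Finset (Fin n)) (hAC : Disjoint A C)
    (hperf : ∀ i, ¬ IsSink E i → ∀ a b, E a i → E b i → a ≠ b → E a b ∨ E b a)
    (hsep : IsSeparated E A B C) (b : Fin n) (hb : b ∈ B) : ¬ Reach E A B C b := by
  rintro ⟨a, ha, hab⟩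
  have hHa : HV E A B C a := by
    by_cases h : IsSink E a
    · exact Or.inr ⟨h, Or.inl ha⟩
    · exact Or.inl ⟨fun h' => Finset.disjoint_left.1 hAC ha h', h⟩
  obtain ⟨m, p, hp0, hpm, hpU, hpB, hpI⟩ :=
    exists_indPath (H := SimpleGraph.fromRel E) (HV E A B C) (fun i => i ∈ B) a b hHa hb hab
  -- the last vertex of the path in `A`
  obtain ⟨j, hjm, hjA, hjmax⟩ : ∃ j, j ≤ m ∧ p j ∈ A ∧ ∀ i, j < i → i ≤ m → p i ∉ A := by
    classical
    have h0 : p 0 ∈ A := by rw [hp0]; exact ha
    refine ⟨Nat.findGreatest (fun i => p i ∈ A) m, Nat.findGreatest_le m, ?_, ?_⟩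
    · exact Nat.findGreatest_spec (P := fun i => p i ∈ A) (Nat.zero_le m) h0
    · intro i hi him
      exact Nat.findGreatest_is_greatest hi him
  have htr : IsTrail E (m - j) (fun i => p (j + i)) := by
    refine ⟨?_, ?_⟩
    · intro i hi i' hi' h
      simp only at h
      rcases lt_trichotomy i i' with h1 | h1 | h1
      · exact absurd h (hpI (j + i) (j + i') (by omega) (by omega)).1
      · exact h1
      · exact absurd h.symm (hpI (j + i') (j + i) (by omega) (by omega)).1
    · intro i hi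
      have h1 := (hpI (j + i) (j + (i + 1)) (by omega) (by omega)).2.2 (by omega)
      rw [SimpleGraph.fromRel_adj] at h1
      exact h1.2
  obtain ⟨i, him, hi⟩ := hsep (m - j) _ htr hjA (by
    have : j + (m - j) = m := by omega
    rw [this]; exact hpm)
  simp only at hi
  have e1 : j + (i + 1) = j + i + 1 := by omega
  have e2 : j + (i + 2) = j + i + 2 := by omega
  rw [e1, e2] at hi
  have hUq := hpU (j + i + 1) (by omega)
  have hqA := hjmax (j + i + 1) (by omega) (by omega)
  have hqB := hpB (j + i + 1) (by omega)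
  have adj1 := (hpI (j + i) (j + i + 1) (by omega) (by omega)).2.2 rfl
  have adj2 := (hpI (j + i + 1) (j + i + 2) (by omega) (by omega)).2.2 rfl
  have nadj := (hpI (j + i) (j + i + 2) (by omega) (by omega))
  rw [SimpleGraph.fromRel_adj] at adj1 adj2
  rcases hi with ⟨h1, h2⟩ | ⟨⟨h1, h2⟩, h3⟩
  · rcases hUq with h4 | h4
    · exact h4.1 h1
    · refine h2 ⟨?_, ?_⟩
      · rcases adj1.2 with h | h
        · exact h
        · exact absurd h (h4.1 _)
      · rcases adj2.2 with h | h
        · exact absurd h (h4.1 _)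
        · exact h
  · rcases hUq with h4 | h4
    · have h5 := hperf _ h4.2 _ _ h1 h2 nadj.1
      have h6 := nadj.2.1 (by rw [SimpleGraph.fromRel_adj]; exact ⟨nadj.1, h5⟩)
      omega
    · rcases h4.2 with h | h | h
      · exact hqA h
      · exact hqB h
      · exact h3 _ ReflTransGen.refl h

theorem global_le_prime
    (hperf : ∀ i, ¬ IsSink E i → ∀ a b, E a i → E b i → a ≠ b → E a b ∨ E b a) :
    globalIdeal E κ ≤ primeIdeal E κ := by
  classical
  unfold globalIdeal
  rw [Ideal.span_le]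
  rintro f ⟨A, B, C, hAB, hAC, hBC, _, _, hsep, a, a', b, b', c, rfl⟩
  change _ ∈ RingHom.ker (paramMap E κ)
  rw [RingHom.mem_ker, map_sub, map_mul, map_mul, sub_eq_zero]
  have z : ∀ i, Fin (κ i) := a
  obtain ⟨D, hDdef⟩ : ∃ D : Finset (Fin n), D = Finset.univ.filter
    (fun s => IsSink E s ∧ s ∉ A ∧ s ∉ B ∧ s ∉ C) := ⟨_, rfl⟩
  have mD : ∀ i, i ∈ D ↔ IsSink E i ∧ i ∉ A ∧ i ∉ B ∧ i ∉ C := by
    intro i; rw [hDdef]; simp
  have hD : ∀ i ∈ D, i ∉ A ∧ i ∉ B ∧ i ∉ C := fun i hi => ((mD i).1 hi).2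
  have hDs : ∀ i ∈ D, IsSink E i := fun i hi => ((mD i).1 hi).1
  obtain ⟨F, hF⟩ : ∃ F : (j : Fin n) → (∀ i, Fin (κ i)) →
    MvPolynomial (Option (Param E κ)) ℝ ⧸ relations E κ, F = fun j w =>
      if j ∈ D ∧ w j = z j then zz E κ else th E κ j (w j) (fun i => w i) := ⟨_, rfl⟩
  have hmarg : ∀ a b : ∀ i, Fin (κ i), paramMap E κ (marginal κ A B C a b c) =
      ∑ w ∈ tset z A B C D a b c, ∏ j, F j w := by
    intro a b
    rw [marginal_eq_sum_lin z A B C D hAB hAC hBC hD, map_sum]
    refine Finset.sum_congr rfl fun w _ => ?_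
    rw [paramMap_lin E z D hDs, hF]
  rw [hmarg, hmarg, hmarg, hmarg, Finset.sum_mul_sum, Finset.sum_mul_sum,
    ← Finset.sum_product', ← Finset.sum_product']
  -- swapping the coordinates reachable from `A`
  obtain ⟨mix, hmix⟩ : ∃ mix : (∀ i, Fin (κ i)) → (∀ i, Fin (κ i)) → ∀ i, Fin (κ i),
    mix = fun w w' i => if Reach E A B C i then w' i else w i := ⟨_, rfl⟩
  have hmr : ∀ w w' i, Reach E A B C i → mix w w' i = w' i := by
    intro w w' i h; rw [hmix]; simp only; rw [if_pos h]
  have hmn : ∀ w w' i, ¬ Reach E A B C i → mix w w' i = w i := by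
    intro w w' i h; rw [hmix]; simp only; rw [if_neg h]
  have hAr : ∀ i ∈ A, Reach E A B C i := fun i hi => ⟨i, hi, ReflTransGen.refl⟩
  have hBr : ∀ i ∈ B, ¬ Reach E A B C i := not_reach A B C hAC hperf hsep
  have hmm : ∀ w w' : ∀ i, Fin (κ i), mix (mix w w') (mix w' w) = w := by
    intro w w'
    funext i
    by_cases h : Reach E A B C i
    · rw [hmr _ _ i h, hmr _ _ i h]
    · rw [hmn _ _ i h, hmn _ _ i h]
  have hmt : ∀ (a b a' b' w w' : ∀ i, Fin (κ i)), w ∈ tset z A B C D a b c →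
      w' ∈ tset z A B C D a' b' c → mix w w' ∈ tset z A B C D a' b c := by
    intro a b a' b' w w' hw hw'
    rw [mem_tset z A B C D hAB hAC hBC hD] at hw hw' ⊢
    refine ⟨fun i hi => ?_, fun i hi => ?_, fun i hi => ?_, fun i hi => ?_⟩
    · rw [hmr _ _ i (hAr i hi)]; exact hw'.1 i hi
    · rw [hmn _ _ i (hBr i hi)]; exact hw.2.1 i hi
    · by_cases h : Reach E A B C i
      · rw [hmr _ _ i h]; exact hw'.2.2.1 i hi
      · rw [hmn _ _ i h]; exact hw.2.2.1 i hi
    · by_cases h : Reach E A B C i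
      · rw [hmr _ _ i h]; exact hw'.2.2.2 i hi
      · rw [hmn _ _ i h]; exact hw.2.2.2 i hi
  have hstep : ∀ i i', Reach E A B C i → (E i i' ∨ E i' i) → HV E A B C i' →
      Reach E A B C i' := by
    intro i i' h1 h2 h3
    by_cases hii : i = i'
    · rw [← hii]; exact h1
    · obtain ⟨a, ha, hai⟩ := h1
      exact ⟨a, ha, hai.tail ⟨by rw [SimpleGraph.fromRel_adj]; exact ⟨hii, h2⟩, h3⟩⟩
  have hconn : ∀ j, j ∉ D → ∀ i i', (i = j ∨ E i j) → (i' = j ∨ E i' j) → i ∉ C → i' ∉ C →
      Reach E A B C i → Reach E A B C i' := by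
    intro j hj i i' hi hi' hiC hi'C hr
    have hHj : IsSink E j → HV E A B C j := by
      intro h
      right
      refine ⟨h, ?_⟩
      by_contra h'
      push Not at h'
      exact hj ((mD j).2 ⟨h, h'⟩)
    have hHp : ∀ i, E i j → i ∉ C → HV E A B C i := fun i h1 h2 =>
      Or.inl ⟨h2, fun h => h j h1⟩
    have hHj' : j ∉ C → HV E A B C j := by
      intro h
      by_cases hs : IsSink E j
      · exact hHj hs
      · exact Or.inl ⟨h, hs⟩
    rcases hi with rfl | hi
    · rcases hi' with rfl | hi'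
      · exact hr
      · exact hstep _ _ hr (Or.inr hi') (hHp _ hi' hi'C)
    · rcases hi' with rfl | hi'
      · exact hstep _ _ hr (Or.inl hi) (hHj' hi'C)
      · by_cases hii : i = i'
        · rw [← hii]; exact hr
        · by_cases hs : IsSink E j
          · exact hstep _ _ (hstep _ _ hr (Or.inl hi) (hHj hs)) (Or.inr hi') (hHp _ hi' hi'C)
          · exact hstep _ _ hr (hperf j hs _ _ hi hi' hii) (hHp _ hi' hi'C)
  have hprod : ∀ (a b a' b' w w' : ∀ i, Fin (κ i)), w ∈ tset z A B C D a b c →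
      w' ∈ tset z A B C D a' b' c →
      (∏ j, F j w) * (∏ j, F j w') = (∏ j, F j (mix w w')) * (∏ j, F j (mix w' w)) := by
    intro a b a' b' w w' hw hw'
    rw [← Finset.prod_mul_distrib, ← Finset.prod_mul_distrib]
    refine Finset.prod_congr rfl fun j _ => ?_
    rw [mem_tset z A B C D hAB hAC hBC hD] at hw hw'
    have hFc : ∀ (u v : ∀ i, Fin (κ i)), (∀ i, (i = j ∨ E i j) → u i = v i) → F j u = F j v := by
      intro u v huv
      rw [hF]
      simp only
      have e1 : u j = v j := huv j (Or.inl rfl)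
      have e2 : (fun i : {i : Fin n // E i j} => u i) = fun i : {i : Fin n // E i j} => v i := by
        funext i; exact huv i (Or.inr i.2)
      rw [e1, e2]
    have hCeq : ∀ i ∈ C, w i = w' i := fun i hi => (hw.2.2.1 i hi).trans (hw'.2.2.1 i hi).symm
    by_cases hj : j ∈ D
    · have hz : ∀ u : ∀ i, Fin (κ i), u j = z j → F j u = zz E κ := by
        intro u hu
        rw [hF]; simp only; rw [if_pos ⟨hj, hu⟩]
      have h1 := hw.2.2.2 j hj
      have h2 := hw'.2.2.2 j hj
      have h3 : ∀ u v : ∀ i, Fin (κ i), u j = z j → v j = z j → mix u v j = z j := by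
        intro u v hu hv
        by_cases h : Reach E A B C j
        · rw [hmr _ _ j h, hv]
        · rw [hmn _ _ j h, hu]
      rw [hz _ h1, hz _ h2, hz _ (h3 _ _ h1 h2), hz _ (h3 _ _ h2 h1)]
    · by_cases hex : ∃ i0, (i0 = j ∨ E i0 j) ∧ i0 ∉ C ∧ Reach E A B C i0
      · obtain ⟨i0, h1, h2, h3⟩ := hex
        have h4 : ∀ i, (i = j ∨ E i j) → mix w w' i = w' i ∧ mix w' w i = w i := by
          intro i hi
          by_cases hiC : i ∈ C
          · by_cases h : Reach E A B C i
            · exact ⟨hmr _ _ i h, hmr _ _ i h⟩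
            · rw [hmn _ _ i h, hmn _ _ i h, hCeq i hiC]; exact ⟨rfl, rfl⟩
          · have h := hconn j hj i0 i h1 hi h2 hiC h3
            exact ⟨hmr _ _ i h, hmr _ _ i h⟩
        rw [hFc (mix w w') w' (fun i hi => (h4 i hi).1), hFc (mix w' w) w (fun i hi => (h4 i hi).2),
          mul_comm]
      · push Not at hex
        have h4 : ∀ i, (i = j ∨ E i j) → mix w w' i = w i ∧ mix w' w i = w' i := by
          intro i hi
          by_cases hiC : i ∈ C
          · by_cases h : Reach E A B C i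
            · rw [hmr _ _ i h, hmr _ _ i h, hCeq i hiC]; exact ⟨rfl, rfl⟩
            · exact ⟨hmn _ _ i h, hmn _ _ i h⟩
          · have h := hex i hi hiC
            exact ⟨hmn _ _ i h, hmn _ _ i h⟩
        rw [hFc (mix w w') w (fun i hi => (h4 i hi).1),
          hFc (mix w' w) w' (fun i hi => (h4 i hi).2)]
  refine Finset.sum_nbij' (fun q => (mix q.1 q.2, mix q.2 q.1))
    (fun q => (mix q.1 q.2, mix q.2 q.1)) ?_ ?_ ?_ ?_ ?_
  · rintro ⟨w, w'⟩ hq
    obtain ⟨h1, h2⟩ := Finset.mem_product.1 hq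
    exact Finset.mem_product.2 ⟨hmt a b a' b' w w' h1 h2, hmt a' b' a b w' w h2 h1⟩
  · rintro ⟨w, w'⟩ hq
    obtain ⟨h1, h2⟩ := Finset.mem_product.1 hq
    exact Finset.mem_product.2 ⟨hmt a' b a b' w w' h1 h2, hmt a b' a' b w' w h2 h1⟩
  · rintro ⟨w, w'⟩ _
    simp only [hmm]
  · rintro ⟨w, w'⟩ _
    simp only [hmm]
  · rintro ⟨w, w'⟩ hq
    obtain ⟨h1, h2⟩ := Finset.mem_product.1 hq
    exact hprod a b a' b' w w' h1 h2

end Pool.Agent.Helper15
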