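import Pool.Agent.Helper15.Lower

/-!
# Adding the sinks
-/

set_option linter.unusedSectionVars false
set_option linter.unusedSimpArgs false

namespace Pool.Agent.Helper15

open Relation

variable {V : Type*} [DecidableEq V] [Fintype V] {α : V → Type*} [∀ i, DecidableEq (α i)]
  [∀ i, Fintype (α i)] (z : ∀ i, α i)

/-- The feature of a sink `s`: the values at `s` and its parents, unless the value at `s` is the
distinguished one. -/
def Fs (Pa : V → Finset V) (s : V) (r : ∀ i, α i) : ∀ i, α i :=
  if r s = z s then z else res z (insert s (Pa s)) r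

/-- Preservation of clique marginals and of the features of the sinks in `A`. -/
def MvF (Cl : Finset V → Prop) (Pa : V → Finset V) (N A : Finset V)
    (u w u' w' : ∀ i, α i) : Prop :=
  Mv z Cl N u w u' w' ∧ ∀ s ∈ A, Pres (Fs z Pa) s u w u' w'

/-- Supported rows with bounds for the sinks in `D`. -/
def GoodF (Pa : V → Finset V) (N A D : Finset V) (σ : (Σ i, α i) → Multiset (∀ i, α i))
    (T : Multiset (∀ i, α i)) : Prop :=
  (∀ r ∈ T, res z (N ∪ A) r = r) ∧ ∀ t : Σ i, α i, t.1 ∈ D → σ t ≤ T.map (res z (Pa t.1))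

/-- A move with the sinks in `A` and bounds for the sinks in `D`. -/
def FS (Cl : Finset V → Prop) (Pa : V → Finset V) (N A D : Finset V)
    (σ : (Σ i, α i) → Multiset (∀ i, α i)) (T T' : Multiset (∀ i, α i)) : Prop :=
  ∃ u w u' w' R, T = u ::ₘ w ::ₘ R ∧ T' = u' ::ₘ w' ::ₘ R ∧ MvF z Cl Pa N A u w u' w' ∧
    GoodF z Pa N A D σ T ∧ GoodF z Pa N A D σ T'

/-- Encoding the value at `s` as a label. -/
def enc (s : V) (r : ∀ i, α i) : (∀ i, α i) × Option (Σ i, α i) :=
  (Function.update r s (z s), if r s = z s then none else some ⟨s, r s⟩)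

/-- Decoding the label. -/
def dec (p : (∀ i, α i) × Option (Σ i, α i)) : ∀ i, α i :=
  match p.2 with
  | none => p.1
  | some t => Function.update p.1 t.1 t.2

variable {z}

theorem dec_enc (s : V) (r : ∀ i, α i) : dec (enc z s r) = r := by
  unfold enc dec
  by_cases h : r s = z s
  · simp only [h, if_true]
    rw [← h, Function.update_eq_self]
  · simp only [h, if_false]
    rw [Function.update_idem, Function.update_eq_self]

theorem res_dec_of_not_mem {C : Finset V} {x : ∀ i, α i} {ℓ : Option (Σ i, α i)}
    (h : ∀ t, ℓ = some t → t.1 ∉ C) : res z C (dec (x, ℓ)) = res z C x := by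
  cases ℓ with
  | none => rfl
  | some t => exact res_update_not_mem z (h t rfl) _ _

/-- The nonzero labels of a sink. -/
noncomputable def labs (z : ∀ i, α i) (s : V) : List (Σ i, α i) :=
  ((Finset.univ.filter fun c : α s => c ≠ z s).toList).map fun c => ⟨s, c⟩

theorem mem_labs {s : V} {t : Σ i, α i} : t ∈ labs z s ↔ ∃ c, c ≠ z s ∧ t = ⟨s, c⟩ := by
  unfold labs
  simp only [List.mem_map, Finset.mem_toList, Finset.mem_filter, Finset.mem_univ, true_and]
  constructor
  · rintro ⟨c, h1, rfl⟩; exact ⟨c, h1, rfl⟩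
  · rintro ⟨c, h1, rfl⟩; exact ⟨c, h1, rfl⟩

theorem nodup_labs (s : V) : (labs z s).Nodup := by
  unfold labs
  refine List.Nodup.map ?_ (Finset.nodup_toList _)
  intro c c' h
  simpa using h

/-- The feature of `s` in terms of the label feature. -/
def fOf (z : ∀ i, α i) (s : V) (Pa : V → Finset V) :
    Option ((Σ i, α i) × (∀ i, α i)) → ∀ i, α i
  | none => z
  | some p => res z (insert s (Pa s)) (Function.update p.2 p.1.1 p.1.2)

theorem Fs_dec (Pa : V → Finset V) {s : V} {x : ∀ i, α i}
    {ℓ : Option (Σ i, α i)} (hx : x s = z s) (hℓ : ∀ t, ℓ = some t → t ∈ labs z s) :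
    Fs z Pa s (dec (x, ℓ)) = fOf z s Pa (lf (fun t => res z (Pa t.1)) (x, ℓ)) := by
  cases ℓ with
  | none => simp [Fs, dec, hx, fOf, lf]
  | some t =>
    obtain ⟨c, hc, rfl⟩ := mem_labs.1 (hℓ t rfl)
    simp only [Fs, dec, Function.update_self, fOf, lf, Option.map_some]
    rw [if_neg hc, res_eq_iff]
    intro i hi
    by_cases h : i = s
    · subst h
      rw [Function.update_self, Function.update_self]
    · rw [Function.update_of_ne h, Function.update_of_ne h]
      rcases Finset.mem_insert.1 hi with h1 | h1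
      · exact absurd h1 h
      · rw [res_apply_mem z h1]

theorem lab_enc (Pa : V → Finset V) {s : V} (hs : s ∉ Pa s) (T : Multiset (∀ i, α i)) {c : α s}
    (hc : c ≠ z s) : lab (fun t => res z (Pa t.1)) (T.map (enc z s)) ⟨s, c⟩ =
      ((T.map (Fs z Pa s)).filter (fun r => r s = c)).map (res z (Pa s)) := by
  unfold lab
  rw [Multiset.filter_map, Multiset.filter_map, Multiset.map_map, Multiset.map_map]
  have h1 : ∀ r : ∀ i, α i, ((fun p : (∀ i, α i) × Option (Σ i, α i) => p.2 = some ⟨s, c⟩) ∘
      enc z s) r ↔ ((fun r : ∀ i, α i => r s = c) ∘ Fs z Pa s) r := by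
    intro r
    simp only [Function.comp_apply, enc, Fs]
    by_cases h : r s = z s
    · rw [if_pos h, if_pos h]
      constructor
      · intro h; simp at h
      · intro h; exact absurd h.symm hc
    · rw [if_neg h, if_neg h, res_apply_mem z (Finset.mem_insert_self _ _)]
      simp
  rw [Multiset.filter_congr fun r _ => h1 r]
  refine Multiset.map_congr rfl fun r hr => ?_
  simp only [Function.comp_apply, enc]
  rw [res_update_not_mem z hs]
  have h2 := (Multiset.mem_filter.1 hr).2
  simp only [Function.comp_apply, Fs] at h2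
  by_cases h : r s = z s
  · rw [if_pos h] at h2
    exact absurd h2.symm hc
  · unfold Fs
    rw [if_neg h, res_res_of_subset z (Finset.subset_insert _ _)]

theorem fconn_step (Cl : Finset V → Prop) (Pa : V → Finset V) (N A D : Finset V) (s : V)
    (hcl : ∀ i ∈ N, Cl {i}) (hsN : s ∉ N) (hsA : s ∉ A) (hsD : s ∉ D)
    (hPs : Pa s ⊆ N) (hPA : ∀ i ∈ A, Pa i ⊆ N) (hPD : ∀ i ∈ D, Pa i ⊆ N)
    (hrec : ∀ (σ : (Σ i, α i) → Multiset (∀ i, α i)) (T T' : Multiset (∀ i, α i)),
      GoodF z Pa N A (insert s D) σ T → GoodF z Pa N A (insert s D) σ T' →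
      (∀ C, Cl C → C ⊆ N → T.map (res z C) = T'.map (res z C)) →
      (∀ i ∈ A, T.map (Fs z Pa i) = T'.map (Fs z Pa i)) →
      ReflTransGen (FS z Cl Pa N A (insert s D) σ) T T')
    (σ : (Σ i, α i) → Multiset (∀ i, α i)) (T T' : Multiset (∀ i, α i))
    (hT : GoodF z Pa N (insert s A) D σ T) (hT' : GoodF z Pa N (insert s A) D σ T')
    (hC : ∀ C, Cl C → C ⊆ N → T.map (res z C) = T'.map (res z C))
    (hF : ∀ i ∈ insert s A, T.map (Fs z Pa i) = T'.map (Fs z Pa i)) :
    ReflTransGen (FS z Cl Pa N (insert s A) D σ) T T' := by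
  have hPss : s ∉ Pa s := fun h => hsN (hPs h)
  obtain ⟨b, hb⟩ : ∃ b : (Σ i, α i) → (∀ i, α i) → (∀ i, α i), b = fun t => res z (Pa t.1) :=
    ⟨_, rfl⟩
  have hid : ∀ t x, b t (b t x) = b t x := by
    intro t x
    rw [hb]
    simp only
    rw [res_res, Finset.inter_self]
  have hchain : IsChainL b (labs z s) := by
    unfold IsChainL
    rw [List.pairwise_iff_forall_sublist]
    intro t t' h x
    have ht : t ∈ labs z s := h.subset (by simp)
    have ht' : t' ∈ labs z s := h.subset (by simp)
    obtain ⟨c, _, rfl⟩ := mem_labs.1 ht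
    obtain ⟨c', _, rfl⟩ := mem_labs.1 ht'
    rw [hb]
    simp only
    rw [res_res, Finset.inter_self]
  have hfst : ∀ (C : Finset V), s ∉ C → ∀ T : Multiset (∀ i, α i),
      ((T.map (enc z s)).map Prod.fst).map (res z C) = T.map (res z C) := by
    intro C hC T
    simp only [Multiset.map_map]
    refine Multiset.map_congr rfl fun r _ => ?_
    simp only [Function.comp_apply, enc]
    rw [res_update_not_mem z hC]
  have hgood : ∀ T : Multiset (∀ i, α i), GoodF z Pa N (insert s A) D σ T →
      GoodF z Pa N A D σ ((T.map (enc z s)).map Prod.fst) := by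
    intro T hT
    refine ⟨?_, fun t ht => ?_⟩
    · intro r hr
      simp only [Multiset.map_map] at hr
      obtain ⟨x, hx, rfl⟩ := Multiset.mem_map.1 hr
      simp only [Function.comp_apply, enc]
      funext i
      have h1 := hT.1 x hx
      by_cases hi : i ∈ N ∪ A
      · rw [res_apply_mem z hi]
      · rw [res_apply_not_mem z hi]
        by_cases his : i = s
        · subst his; rw [Function.update_self]
        · rw [Function.update_of_ne his, ← h1, res_apply_not_mem]
          simp only [Finset.mem_union, Finset.mem_insert, not_or] at hi ⊢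
          exact ⟨hi.1, his, hi.2⟩
    · rw [hfst _ (fun h => hsN (hPD _ ht h))]
      exact hT.2 t ht
  have hlab : ∀ t, lab b (T.map (enc z s)) t = lab b (T'.map (enc z s)) t := by
    intro t
    by_cases ht : t ∈ labs z s
    · obtain ⟨c, hc, rfl⟩ := mem_labs.1 ht
      rw [hb, lab_enc Pa hPss T hc, lab_enc Pa hPss T' hc, hF s (Finset.mem_insert_self _ _)]
    · have h0 : ∀ T : Multiset (∀ i, α i), lab b (T.map (enc z s)) t = 0 := by
        intro T
        rw [lab_eq_zero_iff]
        intro p hp h
        obtain ⟨x, _, rfl⟩ := Multiset.mem_map.1 hp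
        simp only [enc] at h
        by_cases h1 : x s = z s
        · rw [if_pos h1] at h; simp at h
        · rw [if_neg h1] at h
          exact ht (mem_labs.2 ⟨x s, h1, (Option.some.inj h).symm⟩)
      rw [h0, h0]
  have hl0 : ∀ (T : Multiset (∀ i, α i)) (t), t ∉ labs z s →
      lab b (T.map (enc z s)) t = 0 := by
    intro T t ht
    rw [lab_eq_zero_iff]
    intro p hp h
    obtain ⟨x, _, rfl⟩ := Multiset.mem_map.1 hp
    simp only [enc] at h
    by_cases h1 : x s = z s
    · rw [if_pos h1] at h; simp at h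
    · rw [if_neg h1] at h
      exact ht (mem_labs.2 ⟨x s, h1, (Option.some.inj h).symm⟩)
  have hpath : ReflTransGen (LStep b (MvF z Cl Pa N A) (GoodF z Pa N A D σ))
      (T.map (enc z s)) (T'.map (enc z s)) := by
    refine conv_LU (labs z s) hchain (nodup_labs s) hid ?_
      (fun u w => ⟨fun C _ _ => Or.inl ⟨rfl, rfl⟩, fun i _ => Or.inl ⟨rfl, rfl⟩⟩)
      _ _ ?_ (hgood T hT) hlab (hl0 T)
    · intro u w u' w' hm t ht
      obtain ⟨c, _, rfl⟩ := mem_labs.1 ht
      rw [hb]
      exact mv_pres_or_chg hcl hm.1 (Pa s) hPs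
    · intro σ' hb1 hb2
      classical
      obtain ⟨σ2, hσ2⟩ : ∃ σ2 : (Σ i, α i) → Multiset (∀ i, α i), σ2 = fun t =>
        if t ∈ labs z s then σ' t else if t.1 ∈ D then σ t else 0 := ⟨_, rfl⟩
      have hDl : ∀ t : Σ i, α i, t.1 ∈ D → t ∉ labs z s := by
        intro t ht h
        obtain ⟨c, _, rfl⟩ := mem_labs.1 h
        exact hsD ht
      have g1 : ∀ K : Multiset (∀ i, α i), GoodF z Pa N A D σ K →
          (∀ t ∈ labs z s, σ' t ≤ K.map (b t)) → GoodF z Pa N A (insert s D) σ2 K := by
        intro K h1 h2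
        refine ⟨h1.1, fun t _ => ?_⟩
        rw [hσ2]
        simp only
        split_ifs with h3 h4
        · have := h2 t h3
          rwa [hb] at this
        · exact h1.2 t h4
        · exact Multiset.zero_le _
      have g2 : ∀ K : Multiset (∀ i, α i), GoodF z Pa N A (insert s D) σ2 K →
          GoodF z Pa N A D σ K ∧ (∀ t ∈ labs z s, σ' t ≤ K.map (b t)) := by
        intro K h
        refine ⟨⟨h.1, fun t ht => ?_⟩, fun t ht => ?_⟩
        · have := h.2 t (Finset.mem_insert_of_mem ht)
          rw [hσ2] at this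
          simp only at this
          rwa [if_neg (hDl t ht), if_pos ht] at this
        · have h1 : t.1 ∈ insert s D := by
            obtain ⟨c, _, rfl⟩ := mem_labs.1 ht
            exact Finset.mem_insert_self _ _
          have := h.2 t h1
          rw [hσ2] at this
          simp only at this
          rw [if_pos ht] at this
          rwa [hb]
      have hp := hrec σ2 ((T.map (enc z s)).map Prod.fst) ((T'.map (enc z s)).map Prod.fst)
        (g1 _ (hgood T hT) hb1) (g1 _ (hgood T' hT') hb2)
        (fun C h1 h2 => by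
          rw [hfst C (fun h => hsN (h2 h)), hfst C (fun h => hsN (h2 h)), hC C h1 h2])
        (fun i hi => by
          have h3 : ∀ T : Multiset (∀ i, α i),
              ((T.map (enc z s)).map Prod.fst).map (Fs z Pa i) = T.map (Fs z Pa i) := by
            intro T
            simp only [Multiset.map_map]
            refine Multiset.map_congr rfl fun r _ => ?_
            simp only [Function.comp_apply, enc]
            have his : i ≠ s := fun h => hsA (h ▸ hi)
            unfold Fs
            rw [Function.update_of_ne his, res_update_not_mem z]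
            rw [Finset.mem_insert, not_or]
            exact ⟨fun h => his h.symm, fun h => hsN (hPA i hi h)⟩
          rw [h3, h3, hF i (Finset.mem_insert_of_mem hi)])
      refine ReflTransGen.mono ?_ _ _ hp
      rintro T1 T2 ⟨u, w, u', w', R, e1, e2, hm, k1, k2⟩
      exact ⟨u, w, u', w', R, e1, e2, hm, (g2 _ k1).1, (g2 _ k2).1, (g2 _ k1).2, (g2 _ k2).2⟩
  -- decode the path
  have hgoodD : ∀ K : Multiset ((∀ i, α i) × Option (Σ i, α i)),
      GoodF z Pa N A D σ (K.map Prod.fst) → (∀ p ∈ K, ∀ t, p.2 = some t → t ∈ labs z s) →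
      GoodF z Pa N (insert s A) D σ (K.map dec) := by
    intro K h1 h2
    refine ⟨?_, fun t ht => ?_⟩
    · intro r hr
      obtain ⟨⟨x, ℓ⟩, hx, rfl⟩ := Multiset.mem_map.1 hr
      have hxs : res z (N ∪ A) x = x := h1.1 x (Multiset.mem_map.2 ⟨_, hx, rfl⟩)
      have hxs2 : res z (N ∪ insert s A) x = x := by
        conv_lhs => rw [← hxs]
        rw [res_res, Finset.inter_eq_right.2, hxs]
        exact Finset.union_subset_union_right (Finset.subset_insert _ _)
      cases ℓ with
      | none => exact hxs2
      | some t =>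
        obtain ⟨c, _, rfl⟩ := mem_labs.1 (h2 _ hx t rfl)
        exact supp_update (by simp) hxs2 _
    · have h3 : (K.map dec).map (res z (Pa t.1)) = (K.map Prod.fst).map (res z (Pa t.1)) := by
        simp only [Multiset.map_map]
        refine Multiset.map_congr rfl fun p hp => ?_
        obtain ⟨x, ℓ⟩ := p
        simp only [Function.comp_apply]
        refine res_dec_of_not_mem fun t' ht' h => ?_
        obtain ⟨c, _, rfl⟩ := mem_labs.1 (h2 _ hp t' ht')
        exact hsN (hPD _ ht h)
      rw [h3]
      exact h1.2 t ht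
  have key : ∀ K, ReflTransGen (LStep b (MvF z Cl Pa N A) (GoodF z Pa N A D σ))
      (T.map (enc z s)) K →
      ReflTransGen (FS z Cl Pa N (insert s A) D σ) T (K.map dec) ∧
        GoodF z Pa N A D σ (K.map Prod.fst) ∧ (∀ t, t ∉ labs z s → lab b K t = 0) := by
    intro K h
    induction h with
    | refl =>
      refine ⟨?_, hgood T hT, hl0 T⟩
      rw [Multiset.map_map]
      have : T.map (dec ∘ enc z s) = T := by
        conv_rhs => rw [← Multiset.map_id T]
        refine Multiset.map_congr rfl fun r _ => dec_enc s r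
      rw [this]
    | tail _ h2 ih =>
      obtain ⟨i1, i2, i3⟩ := ih
      have hlc : ∀ t, t ∉ labs z s → lab b _ t = 0 := fun t ht =>
        (h2.lab_eq t).symm.trans (i3 t ht)
      obtain ⟨u, w, u', w', ℓ, m, ℓ', m', K, rfl, rfl, hm, hLM, g1, g2⟩ := h2
      have hin : ∀ K : Multiset ((∀ i, α i) × Option (Σ i, α i)),
          (∀ t, t ∉ labs z s → lab b K t = 0) → ∀ p ∈ K, ∀ t, p.2 = some t → t ∈ labs z s := by
        intro K h p hp t ht
        by_contra h3
        exact (lab_eq_zero_iff K t).1 (h t h3) p hp ht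
      have l1 := hin _ i3
      have l2 := hin _ hlc
      have gd1 := hgoodD _ i2 l1
      have gd2 := hgoodD _ g2 l2
      refine ⟨i1.tail ?_, g2, hlc⟩
      refine ⟨dec (u, ℓ), dec (w, m), dec (u', ℓ'), dec (w', m'), K.map dec, by simp, by simp,
        ⟨?_, ?_⟩, ?_, ?_⟩
      · intro C hC hCN
        have hsC : s ∉ C := fun h => hsN (hCN h)
        have hr : ∀ p : (∀ i, α i) × Option (Σ i, α i), (∀ t, p.2 = some t → t ∈ labs z s) →
            res z C (dec p) = res z C p.1 := by
          intro p hp
          obtain ⟨x, o⟩ := p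
          refine res_dec_of_not_mem fun t ht => ?_
          obtain ⟨c, _, rfl⟩ := mem_labs.1 (hp t ht)
          exact hsC
        have := hm.1 C hC hCN
        unfold Pres at this ⊢
        rw [hr (u, ℓ) (l1 (u, ℓ) (by simp)), hr (w, m) (l1 (w, m) (by simp)),
          hr (u', ℓ') (l2 (u', ℓ') (by simp)), hr (w', m') (l2 (w', m') (by simp))]
        exact this
      · intro i hi
        by_cases his : i = s
        · subst his
          have hxs : ∀ x : ∀ i, α i, res z (N ∪ A) x = x → x i = z i := by
            intro x hx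
            rw [← hx, res_apply_not_mem]
            simp [hsN, hsA]
          have hr : ∀ p : (∀ i, α i) × Option (Σ i, α i), res z (N ∪ A) p.1 = p.1 →
              (∀ t, p.2 = some t → t ∈ labs z i) →
              Fs z Pa i (dec p) = fOf z i Pa (lf b p) := by
            intro p hp1 hp2
            obtain ⟨x, o⟩ := p
            rw [hb]
            exact Fs_dec Pa (hxs x hp1) hp2
          unfold Pres
          rw [hr (u, ℓ) (i2.1 u (by simp)) (l1 (u, ℓ) (by simp)),
            hr (w, m) (i2.1 w (by simp)) (l1 (w, m) (by simp)),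
            hr (u', ℓ') (g2.1 u' (by simp)) (l2 (u', ℓ') (by simp)),
            hr (w', m') (g2.1 w' (by simp)) (l2 (w', m') (by simp))]
          rcases hLM with ⟨h1, h2⟩ | ⟨h1, h2⟩
          · left; rw [h1, h2]; exact ⟨rfl, rfl⟩
          · right; rw [h1, h2]; exact ⟨rfl, rfl⟩
        · have hiA : i ∈ A := by
            rcases Finset.mem_insert.1 hi with h | h
            · exact absurd h his
            · exact h
          have hr : ∀ p : (∀ i, α i) × Option (Σ i, α i), (∀ t, p.2 = some t → t ∈ labs z s) →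
              Fs z Pa i (dec p) = Fs z Pa i p.1 := by
            intro p hp
            obtain ⟨x, o⟩ := p
            cases o with
            | none => rfl
            | some t =>
              obtain ⟨c, _, rfl⟩ := mem_labs.1 (hp t rfl)
              simp only [dec]
              unfold Fs
              rw [Function.update_of_ne his, res_update_not_mem z]
              rw [Finset.mem_insert, not_or]
              exact ⟨fun h => his h.symm, fun h => hsN (hPA i hiA h)⟩
          have := hm.2 i hiA
          unfold Pres at this ⊢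
          rw [hr (u, ℓ) (l1 (u, ℓ) (by simp)), hr (w, m) (l1 (w, m) (by simp)),
            hr (u', ℓ') (l2 (u', ℓ') (by simp)), hr (w', m') (l2 (w', m') (by simp))]
          exact this
      · exact gd1
      · exact gd2
  have := (key _ hpath).1
  rw [Multiset.map_map] at this
  have h2 : T'.map (dec ∘ enc z s) = T' := by
    conv_rhs => rw [← Multiset.map_id T']
    refine Multiset.map_congr rfl fun r _ => dec_enc s r
  rwa [h2] at this

/-- Two multisets of rows with the same clique marginals and sink features are connected by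
quadratic moves. -/
theorem fconn (Cl : Finset V → Prop) (Pa : V → Finset V) (N S : Finset V)
    (hcl : ∀ i ∈ N, Cl {i}) (hdown : ∀ C D, Cl C → D ⊆ C → Cl D) (hemp : Cl ∅)
    (hSN : ∀ s ∈ S, s ∉ N) (hPS : ∀ s ∈ S, Pa s ⊆ N)
    (hns : ∀ W ⊆ N, W.Nonempty →
      ∃ v ∈ W, NestSimp Cl (fun t : Σ i, α i => if t.1 ∈ S then Pa t.1 else ∅) W v) :
    ∀ A ⊆ S, ∀ (σ : (Σ i, α i) → Multiset (∀ i, α i)) (T T' : Multiset (∀ i, α i)),
      GoodF z Pa N A (S \ A) σ T → GoodF z Pa N A (S \ A) σ T' →
      (∀ C, Cl C → C ⊆ N → T.map (res z C) = T'.map (res z C)) →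
      (∀ i ∈ A, T.map (Fs z Pa i) = T'.map (Fs z Pa i)) →
      ReflTransGen (FS z Cl Pa N A (S \ A) σ) T T' := by
  classical
  intro A
  induction A using Finset.induction_on with
  | empty =>
    intro _ σ T T' hT hT' hC _
    rw [Finset.sdiff_empty] at *
    obtain ⟨σ2, hσ2⟩ : ∃ σ2 : (Σ i, α i) → Multiset (∀ i, α i), σ2 = fun t =>
      if t.1 ∈ S then σ t else 0 := ⟨_, rfl⟩
    have hPN : ∀ t : Σ i, α i, t.1 ∈ S → (if t.1 ∈ S then Pa t.1 else ∅) ∩ N = Pa t.1 := by
      intro t ht
      rw [if_pos ht]
      exact Finset.inter_eq_left.2 (hPS _ ht)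
    have g1 : ∀ K : Multiset (∀ i, α i), GoodF z Pa N ∅ S σ K →
        GoodW z (fun t : Σ i, α i => if t.1 ∈ S then Pa t.1 else ∅) (fun _ => True) σ2 N K := by
      intro K h
      refine ⟨?_, fun t _ => ?_⟩
      · intro r hr
        have := h.1 r hr
        rwa [Finset.union_empty] at this
      · rw [hσ2]
        simp only
        by_cases ht : t.1 ∈ S
        · rw [if_pos ht, hPN t ht]
          exact h.2 t ht
        · rw [if_neg ht]
          exact Multiset.zero_le _
    have g2 : ∀ K : Multiset (∀ i, α i),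
        GoodW z (fun t : Σ i, α i => if t.1 ∈ S then Pa t.1 else ∅) (fun _ => True) σ2 N K →
        GoodF z Pa N ∅ S σ K := by
      intro K h
      refine ⟨?_, fun t ht => ?_⟩
      · intro r hr
        rw [Finset.union_empty]
        exact h.1 r hr
      · have := h.2 t trivial
        rw [hσ2] at this
        simp only at this
        rwa [if_pos ht, hPN t ht] at this
    have hp := uconn (z := z) Cl (fun t : Σ i, α i => if t.1 ∈ S then Pa t.1 else ∅) N hcl hdown
      hemp hns _ N rfl (Finset.Subset.refl _) σ2 T T' (g1 _ hT) (g1 _ hT') hC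
    refine ReflTransGen.mono ?_ _ _ hp
    rintro T1 T2 ⟨u, w, u', w', R, e1, e2, hm, k1, k2⟩
    exact ⟨u, w, u', w', R, e1, e2, ⟨hm, fun i hi => by simp at hi⟩, g2 _ k1, g2 _ k2⟩
  | insert s A hsA ih =>
    intro hAS σ T T' hT hT' hC hF
    have hsS : s ∈ S := hAS (Finset.mem_insert_self _ _)
    have hAS' : A ⊆ S := (Finset.subset_insert _ _).trans hAS
    have hD : insert s (S \ insert s A) = S \ A := by
      ext i
      simp only [Finset.mem_insert, Finset.mem_sdiff, not_or]
      constructor
      · rintro (rfl | ⟨h1, h2, h3⟩)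
        · exact ⟨hsS, hsA⟩
        · exact ⟨h1, h3⟩
      · rintro ⟨h1, h2⟩
        by_cases h : i = s
        · exact Or.inl h
        · exact Or.inr ⟨h1, h, h2⟩
    refine fconn_step Cl Pa N A (S \ insert s A) s hcl (hSN s hsS) hsA (by simp) (hPS s hsS)
      (fun i hi => hPS i (hAS' hi)) (fun i hi => hPS i (Finset.mem_sdiff.1 hi).1) ?_
      σ T T' hT hT' hC hF
    rw [hD]
    exact ih hAS'

end Pool.Agent.Helper15
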