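import Pool.Agent.Helper15.Alg2
import Pool.Agent.Helper15.Sinks

/-!
# Quadratic moves give elements of the global Markov ideal
-/

set_option linter.unusedSectionVars false
set_option linter.unusedSimpArgs false

namespace Pool.Agent.Helper15

open MvPolynomial Relation

variable {n : ℕ} (E : Fin n → Fin n → Prop) {κ : Fin n → ℕ} (z : ∀ i, Fin (κ i))

/-- The box of states on the coordinates in `A`. -/
def boxOn (S A : Finset (Fin n)) (w : ∀ i, Fin (κ i)) : Finset (∀ i, Fin (κ i)) :=
  Fintype.piFinset fun i => if i ∈ A then (if i ∈ S ∧ w i = z i then Finset.univ else {w i})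
    else {z i}

theorem mem_boxOn (S A : Finset (Fin n)) (w u : ∀ i, Fin (κ i)) :
    u ∈ boxOn z S A w ↔ (∀ i ∈ A, u i = w i ∨ (i ∈ S ∧ w i = z i)) ∧ (∀ i, i ∉ A → u i = z i) := by
  unfold boxOn
  rw [Fintype.mem_piFinset]
  constructor
  · intro h
    refine ⟨fun i hi => ?_, fun i hi => ?_⟩
    · have := h i
      rw [if_pos hi] at this
      by_cases h1 : i ∈ S ∧ w i = z i
      · exact Or.inr h1
      · rw [if_neg h1] at this
        exact Or.inl (Finset.mem_singleton.1 this)
    · have := h i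
      rw [if_neg hi] at this
      exact Finset.mem_singleton.1 this
  · rintro ⟨h1, h2⟩ i
    split_ifs with g1 g2
    · exact Finset.mem_univ _
    · rcases h1 i g1 with h | h
      · exact Finset.mem_singleton.2 h
      · exact absurd h g2
    · exact Finset.mem_singleton.2 (h2 i g1)

theorem boxOn_congr (S A : Finset (Fin n)) {w w' : ∀ i, Fin (κ i)} (h : ∀ i ∈ A, w i = w' i) :
    boxOn z S A w = boxOn z S A w' := by
  unfold boxOn
  congr 1
  funext i
  by_cases hi : i ∈ A
  · rw [if_pos hi, if_pos hi, h i hi]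
  · rw [if_neg hi, if_neg hi]

theorem marginal_congr (A B C : Finset (Fin n)) (a b : ∀ i, Fin (κ i)) {c c' : ∀ i, Fin (κ i)}
    (h : ∀ i ∈ C, c i = c' i) : marginal κ A B C a b c = marginal κ A B C a b c' := by
  rw [marginal_eq_sum_filter, marginal_eq_sum_filter]
  congr 1
  refine Finset.filter_congr fun u _ => ?_
  constructor
  · rintro ⟨h1, h2, h3⟩
    exact ⟨h1, h2, fun i hi => (h3 i hi).trans (h i hi)⟩
  · rintro ⟨h1, h2, h3⟩
    exact ⟨h1, h2, fun i hi => (h3 i hi).trans (h i hi).symm⟩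

theorem lin_split (S A B C : Finset (Fin n)) (w : ∀ i, Fin (κ i))
    (hout : ∀ i, i ∉ A → i ∉ B → i ∉ C → i ∈ S ∧ w i = z i)
    (hC : ∀ i ∈ C, ¬ (i ∈ S ∧ w i = z i)) :
    lin z S w = ∑ β ∈ boxOn z S B w, ∑ α ∈ boxOn z S A w, marginal κ A B C α β w := by
  classical
  unfold lin
  have hmaps : ∀ A : Finset (Fin n), ∀ u ∈ box z S w,
      (fun i => if i ∈ A then u i else z i) ∈ boxOn z S A w := by
    intro A u hu
    rw [mem_box] at hu
    rw [mem_boxOn]
    refine ⟨fun i hi => ?_, fun i hi => ?_⟩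
    · rw [if_pos hi]; exact hu i
    · rw [if_neg hi]
  rw [← Finset.sum_fiberwise_of_maps_to (t := boxOn z S B w)
    (g := fun u i => if i ∈ B then u i else z i) (hmaps B)]
  refine Finset.sum_congr rfl fun β hβ => ?_
  rw [← Finset.sum_fiberwise_of_maps_to (t := boxOn z S A w)
    (g := fun u i => if i ∈ A then u i else z i)
    (fun u hu => hmaps A u (Finset.mem_filter.1 hu).1)]
  refine Finset.sum_congr rfl fun α hα => ?_
  rw [marginal_eq_sum_filter]
  congr 1
  ext u
  rw [mem_boxOn] at hα hβ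
  simp only [Finset.mem_filter, Finset.mem_univ, true_and, mem_box]
  constructor
  · rintro ⟨⟨h1, h2⟩, h3⟩
    refine ⟨fun i hi => ?_, fun i hi => ?_, fun i hi => ?_⟩
    · have := congrFun h3 i
      rwa [if_pos hi] at this
    · have := congrFun h2 i
      rwa [if_pos hi] at this
    · rcases h1 i with h | h
      · exact h
      · exact absurd h (hC i hi)
  · rintro ⟨h1, h2, h3⟩
    refine ⟨⟨fun i => ?_, ?_⟩, ?_⟩
    · by_cases hiA : i ∈ A
      · rw [h1 i hiA]; exact hα.1 i hiA
      · by_cases hiB : i ∈ B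
        · rw [h2 i hiB]; exact hβ.1 i hiB
        · by_cases hiC : i ∈ C
          · exact Or.inl (h3 i hiC)
          · exact Or.inr (hout i hiA hiB hiC)
    · funext i
      by_cases hi : i ∈ B
      · rw [if_pos hi, h2 i hi]
      · rw [if_neg hi, hβ.2 i hi]
    · funext i
      by_cases hi : i ∈ A
      · rw [if_pos hi, h1 i hi]
      · rw [if_neg hi, hα.2 i hi]

theorem sums_mem {R : Type*} [CommRing R] (I : Ideal R) {σ τ : Type*} (m : σ → τ → R)
    (PA PA' : Finset σ) (PB PB' : Finset τ)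
    (h : ∀ α α' β β', m α β * m α' β' - m α' β * m α β' ∈ I) :
    (∑ β ∈ PB, ∑ α ∈ PA, m α β) * (∑ β ∈ PB', ∑ α ∈ PA', m α β) -
      (∑ β ∈ PB, ∑ α ∈ PA', m α β) * (∑ β ∈ PB', ∑ α ∈ PA, m α β) ∈ I := by
  rw [Finset.sum_mul_sum, Finset.sum_mul_sum, ← Finset.sum_sub_distrib]
  refine Ideal.sum_mem _ fun β _ => ?_
  rw [← Finset.sum_sub_distrib]
  refine Ideal.sum_mem _ fun β' _ => ?_
  rw [Finset.sum_mul_sum, Finset.sum_mul_sum, Finset.sum_comm (s := PA') (t := PA),
    ← Finset.sum_sub_distrib]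
  refine Ideal.sum_mem _ fun α _ => ?_
  rw [← Finset.sum_sub_distrib]
  refine Ideal.sum_mem _ fun α' _ => h α α' β β'

/-- The set of sinks. -/
noncomputable def sinks : Finset (Fin n) := by
  classical exact Finset.univ.filter (IsSink E)

/-- The set of non-sinks. -/
noncomputable def nonsinks : Finset (Fin n) := by
  classical exact Finset.univ.filter (fun i => ¬ IsSink E i)

/-- The set of parents. -/
noncomputable def parents (s : Fin n) : Finset (Fin n) := by
  classical exact Finset.univ.filter (fun i => E i s)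

/-- Cliques of non-sinks. -/
def Clq (C : Finset (Fin n)) : Prop :=
  C ⊆ nonsinks E ∧ ∀ a ∈ C, ∀ b ∈ C, a ≠ b → E a b ∨ E b a

theorem mem_sinks {i : Fin n} : i ∈ sinks E ↔ IsSink E i := by
  unfold sinks; simp

theorem mem_nonsinks {i : Fin n} : i ∈ nonsinks E ↔ ¬ IsSink E i := by
  unfold nonsinks; simp

theorem mem_parents {i s : Fin n} : i ∈ parents E s ↔ E i s := by
  unfold parents; simp

variable {z} in
theorem Fs_self (Pa : Fin n → Finset (Fin n)) (s : Fin n) (r : ∀ i, Fin (κ i)) :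
    Fs z Pa s r s = r s := by
  unfold Fs
  by_cases h : r s = z s
  · rw [if_pos h, h]
  · rw [if_neg h, res_apply_mem z (Finset.mem_insert_self _ _)]

variable {z} in
theorem Fs_eq_imp {Pa : Fin n → Finset (Fin n)} {s : Fin n} {r r' : ∀ i, Fin (κ i)}
    (h : Fs z Pa s r = Fs z Pa s r') (hr : r s ≠ z s) : ∀ i ∈ Pa s, r i = r' i := by
  have h1 : r s = r' s := by
    rw [← Fs_self (z := z) Pa s r, ← Fs_self (z := z) Pa s r', h]
  have hr' : r' s ≠ z s := h1 ▸ hr
  unfold Fs at h
  rw [if_neg hr, if_neg hr', res_eq_iff] at h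
  exact fun i hi => h i (Finset.mem_insert_of_mem hi)

/-- Coordinatewise description of a move. -/
theorem mvF_coord {u w u' w' : ∀ i, Fin (κ i)}
    (hm : MvF z (Clq E) (parents E) (nonsinks E) (sinks E) u w u' w') (i : Fin n) :
    (u i = u' i ∧ w i = w' i) ∨ (u i = w' i ∧ w i = u' i) := by
  by_cases hi : IsSink E i
  · have h := hm.2 i ((mem_sinks E).2 hi)
    unfold Pres at h
    rcases h with ⟨h1, h2⟩ | ⟨h1, h2⟩
    · left
      have e1 := congrFun h1 i
      have e2 := congrFun h2 i
      rw [Fs_self, Fs_self] at e1 e2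
      exact ⟨e1, e2⟩
    · right
      have e1 := congrFun h1 i
      have e2 := congrFun h2 i
      rw [Fs_self, Fs_self] at e1 e2
      exact ⟨e1, e2⟩
  · have h := hm.1 {i} ⟨by simpa using (mem_nonsinks E).2 hi, by
      intro a ha b hb hab
      rw [Finset.mem_singleton] at ha hb
      exact absurd (ha.trans hb.symm) hab⟩ (by simpa using (mem_nonsinks E).2 hi)
    unfold Pres at h
    simpa only [res_eq_iff, Finset.mem_singleton, forall_eq] using h

theorem quad_mem (hacyc : ∀ i, ¬ TransGen E i i)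
    (hperf : ∀ i, ¬ IsSink E i → ∀ a b, E a i → E b i → a ≠ b → E a b ∨ E b a)
    {u w u' w' : ∀ i, Fin (κ i)}
    (hm : MvF z (Clq E) (parents E) (nonsinks E) (sinks E) u w u' w') :
    psi z (sinks E) (X u * X w - X u' * X w') ∈ globalIdeal E κ := by
  classical
  have hco := mvF_coord E z hm
  obtain ⟨A, hA⟩ : ∃ A : Finset (Fin n), A = Finset.univ.filter
    (fun i => u i ≠ w i ∧ u i = w' i ∧ w i = u' i) := ⟨_, rfl⟩
  obtain ⟨B, hB⟩ : ∃ B : Finset (Fin n), B = Finset.univ.filter
    (fun i => u i ≠ w i ∧ u i = u' i ∧ w i = w' i) := ⟨_, rfl⟩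
  obtain ⟨C, hC⟩ : ∃ C : Finset (Fin n), C = Finset.univ.filter
    (fun i => u i = w i ∧ ¬ (i ∈ sinks E ∧ u i = z i)) := ⟨_, rfl⟩
  have mA : ∀ i, i ∈ A ↔ u i ≠ w i ∧ u i = w' i ∧ w i = u' i := by
    intro i; rw [hA]; simp
  have mB : ∀ i, i ∈ B ↔ u i ≠ w i ∧ u i = u' i ∧ w i = w' i := by
    intro i; rw [hB]; simp
  have mC : ∀ i, i ∈ C ↔ u i = w i ∧ ¬ (i ∈ sinks E ∧ u i = z i) := by
    intro i; rw [hC]; simp
  have hnd : ∀ i, i ∉ A → i ∉ B → u i = w i ∧ u' i = u i ∧ w' i = u i := by
    intro i h1 h2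
    by_cases h : u i = w i
    · refine ⟨h, ?_⟩
      rcases hco i with ⟨e1, e2⟩ | ⟨e1, e2⟩
      · exact ⟨e1.symm, by rw [← e2, h]⟩
      · exact ⟨by rw [← e2, h], e1.symm⟩
    · rcases hco i with e | e
      · exact absurd ((mB i).2 ⟨h, e⟩) h2
      · exact absurd ((mA i).2 ⟨h, e⟩) h1
  have hABd : Disjoint A B := by
    rw [Finset.disjoint_left]
    intro i h1 h2
    rw [mA] at h1
    rw [mB] at h2
    exact h1.1 (h2.2.1.trans h1.2.2.symm)
  have hACd : Disjoint A C := by
    rw [Finset.disjoint_left]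
    intro i h1 h2
    rw [mA] at h1
    rw [mC] at h2
    exact h1.1 h2.1
  have hBCd : Disjoint B C := by
    rw [Finset.disjoint_left]
    intro i h1 h2
    rw [mB] at h1
    rw [mC] at h2
    exact h1.1 h2.1
  by_cases hAe : A.Nonempty
  swap
  · rw [Finset.not_nonempty_iff_eq_empty] at hAe
    have e1 : u' = u := by
      funext i
      by_cases hi : i ∈ B
      · exact ((mB i).1 hi).2.1.symm
      · exact (hnd i (by rw [hAe]; simp) hi).2.1
    have e2 : w' = w := by
      funext i
      by_cases hi : i ∈ B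
      · exact ((mB i).1 hi).2.2.symm
      · have := hnd i (by rw [hAe]; simp) hi
        rw [this.2.2, this.1]
    rw [e1, e2, sub_self, map_zero]
    exact Ideal.zero_mem _
  by_cases hBe : B.Nonempty
  swap
  · rw [Finset.not_nonempty_iff_eq_empty] at hBe
    have e1 : u' = w := by
      funext i
      by_cases hi : i ∈ A
      · exact ((mA i).1 hi).2.2.symm
      · have := hnd i hi (by rw [hBe]; simp)
        rw [this.2.1, this.1]
    have e2 : w' = u := by
      funext i
      by_cases hi : i ∈ A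
      · exact ((mA i).1 hi).2.1.symm
      · exact (hnd i hi (by rw [hBe]; simp)).2.2
    rw [e1, e2, mul_comm, sub_self, map_zero]
    exact Ideal.zero_mem _
  -- no arrow between `A` and `B`
  have hEns : ∀ i j, E i j → i ∈ nonsinks E := fun i j h => (mem_nonsinks E).2 fun h' => h' j h
  have hnoAB : ∀ i j, E i j → (i ∈ A ∧ j ∈ B) ∨ (i ∈ B ∧ j ∈ A) → False := by
    intro i j hij hcase
    by_cases hj : IsSink E j
    · have h := hm.2 j ((mem_sinks E).2 hj)
      unfold Pres at h
      have hip : i ∈ parents E j := (mem_parents E).2 hij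
      have hself := Fs_self (z := z) (parents E) j
      rcases hcase with ⟨hiA, hjB⟩ | ⟨hiB, hjA⟩
      · rw [mA] at hiA
        rw [mB] at hjB
        by_cases huz : u j = z j
        · have hwz : w j ≠ z j := fun h' => hjB.1 (huz.trans h'.symm)
          rcases h with ⟨h1, h2⟩ | ⟨h1, h2⟩
          · have := Fs_eq_imp h2 hwz i hip
            exact hiA.1 (hiA.2.1.trans this.symm)
          · have := congrFun h2 j
            rw [hself, hself] at this
            exact hjB.1 (hjB.2.1.trans this.symm)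
        · rcases h with ⟨h1, h2⟩ | ⟨h1, h2⟩
          · have := Fs_eq_imp h1 huz i hip
            exact hiA.1 (this.trans hiA.2.2.symm)
          · have := congrFun h1 j
            rw [hself, hself] at this
            exact hjB.1 (this.trans hjB.2.2.symm)
      · rw [mB] at hiB
        rw [mA] at hjA
        by_cases huz : u j = z j
        · have hwz : w j ≠ z j := fun h' => hjA.1 (huz.trans h'.symm)
          rcases h with ⟨h1, h2⟩ | ⟨h1, h2⟩
          · have := congrFun h2 j
            rw [hself, hself] at this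
            exact hjA.1 (hjA.2.1.trans this.symm)
          · have := Fs_eq_imp h2 hwz i hip
            exact hiB.1 (hiB.2.1.trans this.symm)
        · rcases h with ⟨h1, h2⟩ | ⟨h1, h2⟩
          · have := congrFun h1 j
            rw [hself, hself] at this
            exact hjA.1 (this.trans hjA.2.2.symm)
          · have := Fs_eq_imp h1 huz i hip
            exact hiB.1 (this.trans hiB.2.2.symm)
    · have hsub : ({i, j} : Finset (Fin n)) ⊆ nonsinks E := by
        intro a ha
        rw [Finset.mem_insert, Finset.mem_singleton] at ha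
        rcases ha with rfl | rfl
        · exact hEns _ _ hij
        · exact (mem_nonsinks E).2 hj
      have h := hm.1 {i, j} ⟨hsub, by
        intro a ha b hb hab
        rw [Finset.mem_insert, Finset.mem_singleton] at ha hb
        rcases ha with rfl | rfl <;> rcases hb with rfl | rfl
        · exact absurd rfl hab
        · exact Or.inl hij
        · exact Or.inr hij
        · exact absurd rfl hab⟩ hsub
      unfold Pres at h
      simp only [res_eq_iff, Finset.mem_insert, Finset.mem_singleton, forall_eq_or_imp,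
        forall_eq] at h
      rcases hcase with ⟨hiA, hjB⟩ | ⟨hiB, hjA⟩
      · rw [mA] at hiA
        rw [mB] at hjB
        rcases h with ⟨⟨h1, h2⟩, h3, h4⟩ | ⟨⟨h1, h2⟩, h3, h4⟩
        · exact hiA.1 (h1.trans hiA.2.2.symm)
        · exact hjB.1 (h2.trans hjB.2.2.symm)
      · rw [mB] at hiB
        rw [mA] at hjA
        rcases h with ⟨⟨h1, h2⟩, h3, h4⟩ | ⟨⟨h1, h2⟩, h3, h4⟩
        · exact hjA.1 (h2.trans hjA.2.2.symm)
        · exact hiB.1 (h1.trans hiB.2.2.symm)
  -- no collider in `C` between `A` and `B`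
  have hnocol : ∀ i i' j, E i j → E i' j → i ∈ A → i' ∈ B → j ∈ C → False := by
    intro i i' j hij hi'j hi hi' hj
    by_cases hjs : IsSink E j
    · have h := hm.2 j ((mem_sinks E).2 hjs)
      unfold Pres at h
      rw [mC] at hj
      rw [mA] at hi
      rw [mB] at hi'
      have huz : u j ≠ z j := fun h' => hj.2 ⟨(mem_sinks E).2 hjs, h'⟩
      rcases h with ⟨h1, h2⟩ | ⟨h1, h2⟩
      · have := Fs_eq_imp h1 huz i ((mem_parents E).2 hij)
        exact hi.1 (this.trans hi.2.2.symm)
      · have := Fs_eq_imp h1 huz i' ((mem_parents E).2 hi'j)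
        exact hi'.1 (this.trans hi'.2.2.symm)
    · have hne : i ≠ i' := by
        rintro rfl
        exact Finset.disjoint_left.1 hABd hi hi'
      rcases hperf j hjs i i' hij hi'j hne with h | h
      · exact hnoAB i i' h (Or.inl ⟨hi, hi'⟩)
      · exact hnoAB i' i h (Or.inr ⟨hi', hi⟩)
  have hsep : IsSeparated E A B C := by
    intro m p htr hp0 hpm
    by_contra hnb
    have hcol : ∀ i, i + 2 ≤ m → p (i + 1) ∉ A → p (i + 1) ∉ B →
        p (i + 1) ∈ C ∧ E (p i) (p (i + 1)) ∧ E (p (i + 2)) (p (i + 1)) := by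
      intro i hi h1 h2
      have hC' : p (i + 1) ∈ C := by
        rw [mC]
        refine ⟨(hnd _ h1 h2).1, ?_⟩
        rintro ⟨h3, h4⟩
        rw [mem_sinks] at h3
        refine hnb ⟨i, hi, Or.inr ⟨⟨?_, ?_⟩, ?_⟩⟩
        · rcases htr.2 i (by omega) with h | h
          · exact h
          · exact absurd h (h3 _)
        · rcases htr.2 (i + 1) (by omega) with h | h
          · exact absurd h (h3 _)
          · exact h
        · intro j hj hjC
          rcases ReflTransGen.cases_head hj with h | ⟨c, h, _⟩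
          · rw [← h, mC] at hjC
            exact hjC.2 ⟨(mem_sinks E).2 h3, h4⟩
          · exact h3 c h
      refine ⟨hC', ?_⟩
      by_contra h
      exact hnb ⟨i, hi, Or.inl ⟨hC', h⟩⟩
    obtain ⟨i0, hi0m, hi0A, hi0max⟩ : ∃ j, j ≤ m ∧ p j ∈ A ∧ ∀ i, j < i → i ≤ m → p i ∉ A := by
      refine ⟨Nat.findGreatest (fun i => p i ∈ A) m, Nat.findGreatest_le m, ?_, ?_⟩
      · exact Nat.findGreatest_spec (P := fun i => p i ∈ A) (Nat.zero_le m) hp0
      · intro i hi him
        exact Nat.findGreatest_is_greatest hi him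
    have hi0m' : i0 < m := by
      refine lt_of_le_of_ne hi0m ?_
      rintro rfl
      exact Finset.disjoint_left.1 hABd hi0A hpm
    have hex : ∃ k, i0 + k + 1 ≤ m ∧ p (i0 + k + 1) ∈ B :=
      ⟨m - i0 - 1, by omega, by
        have : i0 + (m - i0 - 1) + 1 = m := by omega
        rw [this]; exact hpm⟩
    obtain ⟨k, hk⟩ : ∃ k, k = Nat.find hex := ⟨_, rfl⟩
    have hks := Nat.find_spec hex
    have hkmin : ∀ k' < Nat.find hex, ¬ (i0 + k' + 1 ≤ m ∧ p (i0 + k' + 1) ∈ B) :=
      fun k' h => Nat.find_min hex h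
    rw [← hk] at hks hkmin
    rcases Nat.eq_zero_or_pos k with hk0 | hk0
    · subst hk0
      have := htr.2 i0 (by omega)
      rcases this with h | h
      · exact hnoAB _ _ h (Or.inl ⟨hi0A, hks.2⟩)
      · exact hnoAB _ _ h (Or.inr ⟨hks.2, hi0A⟩)
    · have h1 : p (i0 + 1) ∉ B := fun h => hkmin 0 hk0 ⟨by omega, h⟩
      have h2 : p (i0 + 1) ∉ A := hi0max _ (by omega) (by omega)
      obtain ⟨c1, c2, c3⟩ := hcol i0 (by omega) h2 h1
      rcases Nat.lt_or_ge 1 k with hk1 | hk1
      · have h3 : p (i0 + 1 + 1) ∉ B := fun h => hkmin 1 hk1 ⟨by omega, h⟩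
        have h4 : p (i0 + 1 + 1) ∉ A := hi0max _ (by omega) (by omega)
        obtain ⟨d1, d2, d3⟩ := hcol (i0 + 1) (by omega) h4 h3
        exact hacyc _ (TransGen.tail (TransGen.single d2) c3)
      · have hk2 : k = 1 := by omega
        subst hk2
        exact hnocol _ _ _ c2 c3 hi0A hks.2 c1
  -- the polynomial
  rw [map_sub, map_mul, map_mul, psi_X, psi_X, psi_X, psi_X]
  have hout : ∀ (x : ∀ i, Fin (κ i)), (∀ i, i ∉ A → i ∉ B → x i = u i) →
      ∀ i, i ∉ A → i ∉ B → i ∉ C → i ∈ sinks E ∧ x i = z i := by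
    intro x hx i h1 h2 h3
    rw [mC] at h3
    rw [hx i h1 h2]
    by_contra h4
    exact h3 ⟨(hnd i h1 h2).1, h4⟩
  have hinC : ∀ (x : ∀ i, Fin (κ i)), (∀ i, i ∉ A → i ∉ B → x i = u i) →
      ∀ i ∈ C, ¬ (i ∈ sinks E ∧ x i = z i) := by
    intro x hx i hi
    rw [hx i (fun h => Finset.disjoint_left.1 hACd h hi)
      (fun h => Finset.disjoint_left.1 hBCd h hi)]
    exact ((mC i).1 hi).2
  have hsplit : ∀ (x : ∀ i, Fin (κ i)), (∀ i, i ∉ A → i ∉ B → x i = u i) →
      lin z (sinks E) x = ∑ β ∈ boxOn z (sinks E) B x, ∑ α ∈ boxOn z (sinks E) A x,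
        marginal κ A B C α β u := by
    intro x hx
    rw [lin_split z (sinks E) A B C x (hout x hx) (hinC x hx)]
    refine Finset.sum_congr rfl fun β _ => Finset.sum_congr rfl fun α _ => ?_
    refine marginal_congr A B C α β fun i hi => hx i (fun h => Finset.disjoint_left.1 hACd h hi)
      (fun h => Finset.disjoint_left.1 hBCd h hi)
  rw [hsplit u (fun _ _ _ => rfl), hsplit w (fun i h1 h2 => (hnd i h1 h2).1.symm),
    hsplit u' (fun i h1 h2 => (hnd i h1 h2).2.1), hsplit w' (fun i h1 h2 => (hnd i h1 h2).2.2)]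
  rw [boxOn_congr z (sinks E) B (w := u') (w' := u) (fun i hi => ((mB i).1 hi).2.1.symm),
    boxOn_congr z (sinks E) A (w := u') (w' := w) (fun i hi => ((mA i).1 hi).2.2.symm),
    boxOn_congr z (sinks E) B (w := w') (w' := w) (fun i hi => ((mB i).1 hi).2.2.symm),
    boxOn_congr z (sinks E) A (w := w') (w' := u) (fun i hi => ((mA i).1 hi).2.1.symm)]
  refine sums_mem _ (fun α β => marginal κ A B C α β u) _ _ _ _ fun α α' β β' => ?_
  exact Ideal.subset_span ⟨A, B, C, hABd, hACd, hBCd, hAe, hBe, hsep, α, α', β, β', u, rfl⟩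

end Pool.Agent.Helper15
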