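import Pool.Agent.Helper15.Alg3

/-!
# Features of multisets of states
-/

set_option linter.unusedSectionVars false
set_option linter.unusedSimpArgs false

namespace Pool.Agent.Helper15

open MvPolynomial Relation

/-- If `g` factors through `f` then equality of the `f`-images gives equality of the
`g`-images. -/
theorem map_eq_of_map_eq {α β γ : Type*} {f : α → β} {g : α → γ} {T T' : Multiset α}
    (h : T.map f = T'.map f) (hfg : ∀ x y, f x = f y → g x = g y) : T.map g = T'.map g := by
  rcases isEmpty_or_nonempty γ with hγ | hγ
  · have h0 : ∀ T : Multiset α, T.map g = 0 := by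
      intro T
      rw [Multiset.map_eq_zero, Multiset.eq_zero_iff_forall_notMem]
      intro a _
      exact hγ.elim (g a)
    rw [h0, h0]
  · have hfac : Function.FactorsThrough g f := fun x y hxy => hfg x y hxy
    have h1 := hfac.extend_comp (fun _ => Classical.arbitrary γ)
    rw [← h1, ← Multiset.map_map, ← Multiset.map_map, h]

variable {n : ℕ} (E : Fin n → Fin n → Prop) {κ : Fin n → ℕ} (z : ∀ i, Fin (κ i))

/-- The feature equivalence of multisets of states. -/
def FE (T T' : Multiset (∀ i, Fin (κ i))) : Prop :=
  (∀ C, Clq E C → T.map (res z C) = T'.map (res z C)) ∧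
  (∀ s, IsSink E s → T.map (Fs z (parents E) s) = T'.map (Fs z (parents E) s))

/-- The parameter of `w` at `j`, or `none` if the state is the distinguished one. -/
noncomputable def key (j : Fin n) (w : ∀ i, Fin (κ i)) : Option (Param E κ) :=
  if w j = z j then none else some ⟨j, w j, fun i => w i⟩

/-- The exponent of the lowest term of a state. -/
noncomputable def mu1 (w : ∀ i, Fin (κ i)) : Option (Param E κ) →₀ ℕ :=
  ∑ j, Finsupp.single (key E z j w) 1

/-- The exponent of the lowest term of a multiset of states. -/
noncomputable def mu (T : Multiset (∀ i, Fin (κ i))) : Option (Param E κ) →₀ ℕ :=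
  (T.map (mu1 E z)).sum

theorem mu_add (T T' : Multiset (∀ i, Fin (κ i))) :
    mu E z (T + T') = mu E z T + mu E z T' := by
  unfold mu; rw [Multiset.map_add, Multiset.sum_add]

theorem degree_mu1 (w : ∀ i, Fin (κ i)) : (mu1 E z w).degree = n := by
  unfold mu1
  rw [map_sum]
  simp

theorem degree_mu (T : Multiset (∀ i, Fin (κ i))) : (mu E z T).degree = Multiset.card T * n := by
  unfold mu
  rw [map_multiset_sum, Multiset.map_map]
  simp only [Function.comp_def, degree_mu1]
  simp

theorem mu1_some (w : ∀ i, Fin (κ i)) (p : Param E κ) [Decidable (key E z p.1 w = some p)] :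
    mu1 E z w (some p) = if key E z p.1 w = some p then 1 else 0 := by
  classical
  unfold mu1
  rw [Finsupp.finsetSum_apply]
  rw [Finset.sum_eq_single p.1]
  · rw [Finsupp.single_apply]
  · intro j _ hj
    rw [Finsupp.single_apply, if_neg]
    intro h
    unfold key at h
    by_cases h1 : w j = z j
    · rw [if_pos h1] at h; simp at h
    · rw [if_neg h1] at h
      exact hj (congrArg Sigma.fst (Option.some.inj h))
  · intro h; exact absurd (Finset.mem_univ _) h

theorem mu_some (T : Multiset (∀ i, Fin (κ i))) (p : Param E κ) [DecidableEq (Param E κ)] :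
    mu E z T (some p) = Multiset.count (some p) (T.map (key E z p.1)) := by
  induction T using Multiset.induction_on with
  | empty => simp [mu]
  | cons w T ih =>
    have h1 : mu E z (w ::ₘ T) = mu1 E z w + mu E z T := by
      unfold mu; rw [Multiset.map_cons, Multiset.sum_cons]
    rw [h1, Finsupp.add_apply, ih, Multiset.map_cons, Multiset.count_cons, mu1_some, add_comm]
    congr 1
    by_cases h : key E z p.1 w = some p
    · rw [if_pos h, if_pos h.symm]
    · rw [if_neg h, if_neg (fun h' => h h'.symm)]

theorem multiset_eq_of_count_some {β : Type*} [DecidableEq β] {K K' : Multiset (Option β)}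
    (hc : Multiset.card K = Multiset.card K')
    (h : ∀ x : β, Multiset.count (some x) K = Multiset.count (some x) K') : K = K' := by
  have h1 : K.filter (fun o => ¬ none = o) = K'.filter (fun o => ¬ none = o) := by
    ext o
    cases o with
    | none =>
      rw [Multiset.count_eq_zero_of_notMem, Multiset.count_eq_zero_of_notMem]
      · intro h; exact (Multiset.mem_filter.1 h).2 rfl
      · intro h; exact (Multiset.mem_filter.1 h).2 rfl
    | some x =>
      rw [Multiset.count_filter_of_pos (by simp), Multiset.count_filter_of_pos (by simp), h x]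
  ext o
  cases o with
  | some x => exact h x
  | none =>
    rw [Multiset.count_eq_card_filter_eq, Multiset.count_eq_card_filter_eq]
    have h2 := congrArg Multiset.card (Multiset.filter_add_not (fun o => none = o) K)
    have h3 := congrArg Multiset.card (Multiset.filter_add_not (fun o => none = o) K')
    rw [Multiset.card_add] at h2 h3
    rw [h1] at h2
    omega

theorem map_key_eq (hn : 0 < n) {T T' : Multiset (∀ i, Fin (κ i))}
    (h : mu E z T = mu E z T') (j : Fin n) : T.map (key E z j) = T'.map (key E z j) := by
  classical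
  have hcard : Multiset.card T = Multiset.card T' := by
    have h1 := degree_mu E z T
    rw [h, degree_mu E z T'] at h1
    exact (Nat.eq_of_mul_eq_mul_right hn h1).symm
  refine multiset_eq_of_count_some (by simpa using hcard) fun p => ?_
  by_cases hj : p.1 = j
  · subst hj
    rw [← mu_some, ← mu_some, h]
  · have h0 : ∀ T : Multiset (∀ i, Fin (κ i)),
        Multiset.count (some p) (T.map (key E z j)) = 0 := by
      intro T
      rw [Multiset.count_eq_zero]
      intro h
      obtain ⟨w, _, hw⟩ := Multiset.mem_map.1 h
      unfold key at hw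
      by_cases h1 : w j = z j
      · rw [if_pos h1] at hw; simp at hw
      · rw [if_neg h1] at hw
        exact hj (congrArg Sigma.fst (Option.some.inj hw)).symm
    rw [h0, h0]

theorem card_eq_of_mu (hn : 0 < n) {T T' : Multiset (∀ i, Fin (κ i))}
    (h : mu E z T = mu E z T') : Multiset.card T = Multiset.card T' := by
  have := congrArg Multiset.card (map_key_eq E z hn h ⟨0, hn⟩)
  simpa using this

theorem map_Fs_eq (hn : 0 < n) {T T' : Multiset (∀ i, Fin (κ i))}
    (h : mu E z T = mu E z T') (j : Fin n) :
    T.map (Fs z (parents E) j) = T'.map (Fs z (parents E) j) := by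
  refine map_eq_of_map_eq (map_key_eq E z hn h j) fun x y hxy => ?_
  unfold key at hxy
  unfold Fs
  by_cases hx : x j = z j
  · by_cases hy : y j = z j
    · rw [if_pos hx, if_pos hy]
    · rw [if_pos hx, if_neg hy] at hxy; simp at hxy
  · by_cases hy : y j = z j
    · rw [if_neg hx, if_pos hy] at hxy; simp at hxy
    · rw [if_neg hx, if_neg hy] at hxy
      rw [if_neg hx, if_neg hy, res_eq_iff]
      have h1 := Option.some.inj hxy
      have h2 := eq_of_heq (Sigma.mk.inj h1).2
      obtain ⟨h3, h4⟩ := Prod.mk.inj h2
      intro i hi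
      rcases Finset.mem_insert.1 hi with rfl | hi
      · exact h3
      · exact congrFun h4 ⟨i, (mem_parents E).1 hi⟩

theorem wf_E (hacyc : ∀ i, ¬ TransGen E i i) : WellFounded (TransGen E) := by
  have : Std.Irrefl (TransGen E) := ⟨hacyc⟩
  exact Finite.wellFounded_of_trans_of_irrefl _

theorem exists_last (hacyc : ∀ i, ¬ TransGen E i i) {C : Finset (Fin n)} (hC : Clq E C)
    (hne : C.Nonempty) : ∃ j ∈ C, C ⊆ insert j (parents E j) := by
  have hwf : WellFounded (fun a b => TransGen E b a) := by
    have : Std.Irrefl (fun a b => TransGen E b a) := ⟨hacyc⟩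
    have : IsTrans (Fin n) (fun a b => TransGen E b a) := ⟨fun a b c h1 h2 => h2.trans h1⟩
    exact Finite.wellFounded_of_trans_of_irrefl _
  obtain ⟨j, hj, hmin⟩ := hwf.has_min (C : Set (Fin n)) hne
  refine ⟨j, hj, fun i hi => ?_⟩
  by_cases hij : i = j
  · rw [hij]; exact Finset.mem_insert_self _ _
  · refine Finset.mem_insert_of_mem ((mem_parents E).2 ?_)
    rcases hC.2 i hi j hj hij with h | h
    · exact h
    · exact absurd (TransGen.single h) (hmin i hi)

theorem clq_insert_parents
    (hperf : ∀ i, ¬ IsSink E i → ∀ a b, E a i → E b i → a ≠ b → E a b ∨ E b a)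
    {j : Fin n} (hj : ¬ IsSink E j) : Clq E (insert j (parents E j)) := by
  constructor
  · intro i hi
    rw [mem_nonsinks]
    rcases Finset.mem_insert.1 hi with rfl | hi
    · exact hj
    · exact fun h => h j ((mem_parents E).1 hi)
  · intro a ha b hb hab
    rcases Finset.mem_insert.1 ha with rfl | ha
    · rcases Finset.mem_insert.1 hb with rfl | hb
      · exact absurd rfl hab
      · exact Or.inr ((mem_parents E).1 hb)
    · rcases Finset.mem_insert.1 hb with rfl | hb
      · exact Or.inl ((mem_parents E).1 ha)
      · exact hperf j hj a b ((mem_parents E).1 ha) ((mem_parents E).1 hb) hab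

theorem Clq.subset {C D : Finset (Fin n)} (hC : Clq E C) (h : D ⊆ C) : Clq E D :=
  ⟨h.trans hC.1, fun a ha b hb hab => hC.2 a (h ha) b (h hb) hab⟩

theorem clq_parents
    (hperf : ∀ i, ¬ IsSink E i → ∀ a b, E a i → E b i → a ≠ b → E a b ∨ E b a)
    {j : Fin n} (hj : ¬ IsSink E j) : Clq E (parents E j) :=
  (clq_insert_parents E hperf hj).subset E (Finset.subset_insert _ _)

theorem map_res_empty {T T' : Multiset (∀ i, Fin (κ i))}
    (hcard : Multiset.card T = Multiset.card T') : T.map (res z ∅) = T'.map (res z ∅) := by
  have h0 : ∀ T : Multiset (∀ i, Fin (κ i)), T.map (res z ∅) =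
      Multiset.replicate (Multiset.card T) z := by
    intro T
    rw [Multiset.eq_replicate]
    refine ⟨by simp, fun r hr => ?_⟩
    obtain ⟨x, _, rfl⟩ := Multiset.mem_map.1 hr
    funext i
    simp [res]
  rw [h0, h0, hcard]

theorem map_family_eq (hn : 0 < n) (hacyc : ∀ i, ¬ TransGen E i i)
    (hperf : ∀ i, ¬ IsSink E i → ∀ a b, E a i → E b i → a ≠ b → E a b ∨ E b a)
    {T T' : Multiset (∀ i, Fin (κ i))} (h : mu E z T = mu E z T') :
    ∀ j, ¬ IsSink E j →
      T.map (res z (insert j (parents E j))) = T'.map (res z (insert j (parents E j))) := by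
  intro j
  induction j using (wf_E E hacyc).induction with
  | _ j ih =>
  intro hj
  -- the marginal on the parents
  have hpar : T.map (res z (parents E j)) = T'.map (res z (parents E j)) := by
    by_cases hne : (parents E j).Nonempty
    · obtain ⟨j', hj', hsub⟩ := exists_last E hacyc (clq_parents E hperf hj) hne
      rw [mem_parents] at hj'
      have h1 := ih j' (TransGen.single hj') (fun h => h j hj')
      refine map_eq_of_map_eq h1 fun x y hxy => res_eq_of_subset z hsub hxy
    · rw [Finset.not_nonempty_iff_eq_empty] at hne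
      rw [hne]
      exact map_res_empty z (card_eq_of_mu E z hn h)
  have hne : ∀ T : Multiset (∀ i, Fin (κ i)),
      (T.filter fun w => ¬ w j = z j).map (res z (insert j (parents E j))) =
        (T.map (Fs z (parents E) j)).filter fun r => ¬ r j = z j := by
    intro T
    rw [Multiset.filter_map]
    have h1 : T.filter ((fun r => ¬ r j = z j) ∘ Fs z (parents E) j) =
        T.filter fun w => ¬ w j = z j := by
      refine Multiset.filter_congr fun w _ => ?_
      simp only [Function.comp_apply, Fs_self]
    rw [h1]
    refine Multiset.map_congr rfl fun w hw => ?_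
    have h2 := (Multiset.mem_filter.1 hw).2
    unfold Fs
    rw [if_neg h2]
  have hne2 : (T.filter fun w => ¬ w j = z j).map (res z (insert j (parents E j))) =
      (T'.filter fun w => ¬ w j = z j).map (res z (insert j (parents E j))) := by
    rw [hne, hne, map_Fs_eq E z hn h j]
  have hne3 : (T.filter fun w => ¬ w j = z j).map (res z (parents E j)) =
      (T'.filter fun w => ¬ w j = z j).map (res z (parents E j)) :=
    map_eq_of_map_eq hne2 fun x y hxy => res_eq_of_subset z (Finset.subset_insert _ _) hxy
  have heq : ∀ T : Multiset (∀ i, Fin (κ i)),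
      (T.filter fun w => w j = z j).map (res z (insert j (parents E j))) =
        (T.filter fun w => w j = z j).map (res z (parents E j)) := by
    intro T
    refine Multiset.map_congr rfl fun w hw => ?_
    have h2 := (Multiset.mem_filter.1 hw).2
    funext i
    by_cases hi : i ∈ parents E j
    · rw [res_apply_mem z hi, res_apply_mem z (Finset.mem_insert_of_mem hi)]
    · by_cases hij : i = j
      · subst hij
        rw [res_apply_mem z (Finset.mem_insert_self _ _), res_apply_not_mem z hi, h2]
      · rw [res_apply_not_mem z hi, res_apply_not_mem z]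
        rw [Finset.mem_insert, not_or]
        exact ⟨hij, hi⟩
  have hsplit : ∀ T : Multiset (∀ i, Fin (κ i)), T =
      (T.filter fun w => w j = z j) + T.filter fun w => ¬ w j = z j := fun T =>
    (Multiset.filter_add_not _ _).symm
  have heq2 : (T.filter fun w => w j = z j).map (res z (parents E j)) =
      (T'.filter fun w => w j = z j).map (res z (parents E j)) := by
    rw [hsplit T, hsplit T', Multiset.map_add, Multiset.map_add, hne3] at hpar
    exact add_right_cancel hpar
  rw [hsplit T, hsplit T', Multiset.map_add, Multiset.map_add, hne2, heq T, heq T', heq2]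

theorem fe_of_mu (hn : 0 < n) (hacyc : ∀ i, ¬ TransGen E i i)
    (hperf : ∀ i, ¬ IsSink E i → ∀ a b, E a i → E b i → a ≠ b → E a b ∨ E b a)
    {T T' : Multiset (∀ i, Fin (κ i))} (h : mu E z T = mu E z T') : FE E z T T' := by
  refine ⟨fun C hC => ?_, fun s _ => map_Fs_eq E z hn h s⟩
  by_cases hne : C.Nonempty
  · obtain ⟨j, hj, hsub⟩ := exists_last E hacyc hC hne
    have h1 := map_family_eq E z hn hacyc hperf h j ((mem_nonsinks E).1 (hC.1 hj))
    exact map_eq_of_map_eq h1 fun x y hxy => res_eq_of_subset z hsub hxy
  · rw [Finset.not_nonempty_iff_eq_empty] at hne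
    rw [hne]
    exact map_res_empty z (card_eq_of_mu E z hn h)

/-- The monomial of a multiset of states. -/
noncomputable def mm (T : Multiset (∀ i, Fin (κ i))) : MvPolynomial (∀ i, Fin (κ i)) ℝ :=
  (T.map X).prod

/-- The factor at `j` of the image of a state. -/
noncomputable def fac (j : Fin n) (w : ∀ i, Fin (κ i)) :
    MvPolynomial (Option (Param E κ)) ℝ ⧸ relations E κ :=
  if j ∈ sinks E ∧ w j = z j then zz E κ else th E κ j (w j) (fun i => w i)

theorem paramMap_psi_X (w : ∀ i, Fin (κ i)) :
    paramMap E κ (psi z (sinks E) (X w)) = ∏ j, fac E z j w := by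
  rw [psi_X, paramMap_lin E z (sinks E) (fun i hi => (mem_sinks E).1 hi)]
  rfl

theorem paramMap_psi_mm (T : Multiset (∀ i, Fin (κ i))) :
    paramMap E κ (psi z (sinks E) (mm T)) = ∏ j, (T.map (fac E z j)).prod := by
  unfold mm
  rw [map_multiset_prod, map_multiset_prod, Multiset.map_map, Multiset.map_map]
  rw [← Multiset.prod_map_prod]
  congr 1
  refine Multiset.map_congr rfl fun w _ => ?_
  simp only [Function.comp_apply]
  exact paramMap_psi_X E z w

theorem image_eq_of_fe
    (hperf : ∀ i, ¬ IsSink E i → ∀ a b, E a i → E b i → a ≠ b → E a b ∨ E b a)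
    {T T' : Multiset (∀ i, Fin (κ i))} (h : FE E z T T') :
    paramMap E κ (psi z (sinks E) (mm T)) = paramMap E κ (psi z (sinks E) (mm T')) := by
  rw [paramMap_psi_mm, paramMap_psi_mm]
  refine Finset.prod_congr rfl fun j _ => ?_
  congr 1
  have hcong : ∀ x y : ∀ i, Fin (κ i), x j = y j → (∀ i ∈ parents E j, x i = y i) →
      fac E z j x = fac E z j y := by
    intro x y h1 h2
    unfold fac
    rw [h1]
    have : (fun i : {i : Fin n // E i j} => x i) = fun i : {i : Fin n // E i j} => y i := by
      funext i; exact h2 i ((mem_parents E).2 i.2)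
    rw [this]
  by_cases hj : IsSink E j
  · refine map_eq_of_map_eq (h.2 j hj) fun x y hxy => ?_
    have h1 : x j = y j := by
      rw [← Fs_self (z := z) (parents E) j x, ← Fs_self (z := z) (parents E) j y, hxy]
    by_cases hx : x j = z j
    · unfold fac
      rw [if_pos ⟨(mem_sinks E).2 hj, hx⟩, if_pos ⟨(mem_sinks E).2 hj, h1 ▸ hx⟩]
    · exact hcong x y h1 (Fs_eq_imp hxy hx)
  · refine map_eq_of_map_eq (h.1 _ (clq_insert_parents E hperf hj)) fun x y hxy => ?_
    rw [res_eq_iff] at hxy
    exact hcong x y (hxy j (Finset.mem_insert_self _ _))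
      (fun i hi => hxy i (Finset.mem_insert_of_mem hi))

end Pool.Agent.Helper15
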