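import Pool.Agent.Helper15.Alg4

/-!
# The kernel of the parametrization in the new coordinates
-/

set_option linter.unusedSectionVars false
set_option linter.unusedSimpArgs false

namespace Pool.Agent.Helper15

open MvPolynomial Relation

section Low

variable {R : Type*} [CommRing R]

/-- `f` has lowest term `m X ^ e`. -/
def Low (f : Polynomial R) (e : ℕ) (m : R) : Prop :=
  ∃ q, f = Polynomial.X ^ e * (Polynomial.C m + Polynomial.X * q)

theorem Low.one : Low (1 : Polynomial R) 0 1 := ⟨0, by simp⟩

theorem Low.mul {f g : Polynomial R} {e e' : ℕ} {m m' : R} (hf : Low f e m) (hg : Low g e' m') :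
    Low (f * g) (e + e') (m * m') := by
  obtain ⟨q, rfl⟩ := hf
  obtain ⟨q', rfl⟩ := hg
  refine ⟨Polynomial.C m * q' + q * Polynomial.C m' + Polynomial.X * q * q', ?_⟩
  rw [Polynomial.C_mul]
  ring

theorem Low.prod {ι : Type*} (s : Finset ι) {f : ι → Polynomial R} {e : ι → ℕ} {m : ι → R}
    (h : ∀ i ∈ s, Low (f i) (e i) (m i)) : Low (∏ i ∈ s, f i) (∑ i ∈ s, e i) (∏ i ∈ s, m i) := by
  classical
  induction s using Finset.induction_on with
  | empty => simpa using Low.one
  | insert a s ha ih =>
    rw [Finset.prod_insert ha, Finset.sum_insert ha, Finset.prod_insert ha]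
    exact (h a (Finset.mem_insert_self _ _)).mul (ih fun i hi => h i (Finset.mem_insert_of_mem hi))

theorem Low.coeff_lt {f : Polynomial R} {e : ℕ} {m : R} (h : Low f e m) {i : ℕ} (hi : i < e) :
    f.coeff i = 0 := by
  obtain ⟨q, rfl⟩ := h
  rw [Polynomial.coeff_X_pow_mul', if_neg (by omega)]

theorem Low.coeff_eq {f : Polynomial R} {e : ℕ} {m : R} (h : Low f e m) : f.coeff e = m := by
  obtain ⟨q, rfl⟩ := h
  rw [Polynomial.coeff_X_pow_mul', if_pos le_rfl, Nat.sub_self]
  simp

end Low

variable {n : ℕ} (E : Fin n → Fin n → Prop) {κ : Fin n → ℕ} (z : ∀ i, Fin (κ i))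

/-- Images of the generators. -/
noncomputable def hgen (o : Option (Param E κ)) :
    Polynomial (MvPolynomial (Option (Param E κ)) ℝ) :=
  match o with
  | none => Polynomial.C (X none)
  | some p => if p.2.1 = z p.1 then
      Polynomial.C (X none) - ∑ a ∈ Finset.univ.erase (z p.1),
        Polynomial.X * Polynomial.C (X (some ⟨p.1, a, p.2.2⟩))
      else Polynomial.X * Polynomial.C (X (some p))

/-- The grading homomorphism. -/
noncomputable def hmap : MvPolynomial (Option (Param E κ)) ℝ →ₐ[ℝ]
    Polynomial (MvPolynomial (Option (Param E κ)) ℝ) := aeval (hgen E z)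

theorem relations_le_ker : relations E κ ≤ RingHom.ker (hmap E z) := by
  unfold relations
  rw [Ideal.span_le]
  rintro f ⟨j, b, rfl⟩
  change _ ∈ RingHom.ker (hmap E z)
  rw [RingHom.mem_ker, map_sub, map_sum]
  unfold hmap
  simp only [aeval_X]
  rw [← Finset.add_sum_erase _ _ (Finset.mem_univ (z j))]
  have h1 : ∀ a ∈ Finset.univ.erase (z j), hgen E z (some ⟨j, a, b⟩) =
      Polynomial.X * Polynomial.C (X (some (⟨j, a, b⟩ : Param E κ))) := by
    intro a ha
    simp only [hgen]
    rw [if_neg (Finset.mem_erase.1 ha).1]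
  rw [Finset.sum_congr rfl h1]
  simp only [hgen, if_true]
  ring

/-- The grading homomorphism on the quotient. -/
noncomputable def hq : (MvPolynomial (Option (Param E κ)) ℝ ⧸ relations E κ) →ₐ[ℝ]
    Polynomial (MvPolynomial (Option (Param E κ)) ℝ) :=
  Ideal.Quotient.liftₐ (relations E κ) (hmap E z) (fun _ ha => relations_le_ker E z ha)

theorem hq_mk (f : MvPolynomial (Option (Param E κ)) ℝ) :
    hq E z (Ideal.Quotient.mk (relations E κ) f) = hmap E z f := by
  unfold hq
  exact Ideal.Quotient.liftₐ_apply _ _ _ _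

/-- The number of non-distinguished parameters. -/
noncomputable def wt : (Option (Param E κ) →₀ ℕ) →+ ℕ :=
  Finsupp.weight (fun o : Option (Param E κ) => if o = none then (0 : ℕ) else 1)

theorem low_fac (j : Fin n) (w : ∀ i, Fin (κ i)) :
    Low (hq E z (fac E z j w)) (wt E (Finsupp.single (key E z j w) 1))
      (monomial (Finsupp.single (key E z j w) 1) 1) := by
  classical
  unfold wt
  rw [Finsupp.weight_single]
  have hX : monomial (Finsupp.single (key E z j w) 1) (1 : ℝ) = X (key E z j w) := rfl
  rw [hX]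
  unfold fac
  by_cases hj : w j = z j
  · have hk : key E z j w = none := by unfold key; rw [if_pos hj]
    rw [hk]
    simp only [if_true, smul_zero]
    by_cases hs : j ∈ sinks E
    · rw [if_pos ⟨hs, hj⟩]
      refine ⟨0, ?_⟩
      unfold zz
      rw [hq_mk]
      unfold hmap
      rw [aeval_X]
      simp [hgen]
    · rw [if_neg (fun h => hs h.1)]
      refine ⟨-∑ a ∈ Finset.univ.erase (z j), Polynomial.C
        (X (some (⟨j, a, fun i => w i⟩ : Param E κ)) : MvPolynomial (Option (Param E κ)) ℝ), ?_⟩
      unfold th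
      rw [hq_mk]
      unfold hmap
      rw [aeval_X]
      simp only [hgen, hj, if_true]
      rw [mul_neg, Finset.mul_sum, pow_zero, one_mul, sub_eq_add_neg]
  · have hk : key E z j w = some ⟨j, w j, fun i => w i⟩ := by unfold key; rw [if_neg hj]
    rw [hk, if_neg (fun h => hj h.2)]
    refine ⟨0, ?_⟩
    unfold th
    rw [hq_mk]
    unfold hmap
    rw [aeval_X]
    simp [hgen, hj]

theorem low_state (w : ∀ i, Fin (κ i)) :
    Low (hq E z (paramMap E κ (psi z (sinks E) (X w)))) (wt E (mu1 E z w))
      (monomial (mu1 E z w) 1) := by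
  rw [paramMap_psi_X, map_prod]
  unfold mu1
  rw [map_sum, monomial_sum_one]
  exact Low.prod _ fun j _ => low_fac E z j w

theorem low_mm (T : Multiset (∀ i, Fin (κ i))) :
    Low (hq E z (paramMap E κ (psi z (sinks E) (mm T)))) (wt E (mu E z T))
      (monomial (mu E z T) 1) := by
  induction T using Multiset.induction_on with
  | empty =>
    unfold mm mu
    simp only [Multiset.map_zero, Multiset.prod_zero, map_one, Multiset.sum_zero, map_zero]
    exact Low.one
  | cons w T ih =>
    have h1 : mu E z (w ::ₘ T) = mu1 E z w + mu E z T := by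
      unfold mu; rw [Multiset.map_cons, Multiset.sum_cons]
    have h2 : (mm (w ::ₘ T) : MvPolynomial (∀ i, Fin (κ i)) ℝ) = X w * mm T := by
      unfold mm; rw [Multiset.map_cons, Multiset.prod_cons]
    rw [h1, h2, map_mul, map_mul, map_mul, map_add]
    have h3 : monomial (mu1 E z w + mu E z T) (1 : ℝ) =
        monomial (mu1 E z w) 1 * monomial (mu E z T) 1 := by
      rw [monomial_mul, one_mul]
    rw [h3]
    exact (low_state E z w).mul ih

theorem mm_toMultiset (d : (∀ i, Fin (κ i)) →₀ ℕ) :
    mm (Finsupp.toMultiset d) = (monomial d 1 : MvPolynomial (∀ i, Fin (κ i)) ℝ) := by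
  unfold mm
  rw [monomial_eq, C_1, one_mul]
  induction d using Finsupp.induction with
  | zero => simp
  | single_add a b f ha hb ih =>
    rw [map_add, Multiset.map_add, Multiset.prod_add, ih, Finsupp.prod_add_index']
    · congr 1
      rw [Finsupp.toMultiset_single, Multiset.map_nsmul, Multiset.map_singleton,
        Multiset.prod_nsmul, Multiset.prod_singleton, Finsupp.prod_single_index]
      simp
    · intro _; simp
    · intro _ _ _; rw [pow_add]

/-- The class sums of the coefficients of an element of the kernel vanish. -/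
theorem kernel_sum (hn : 0 < n) (hacyc : ∀ i, ¬ TransGen E i i)
    (hperf : ∀ i, ¬ IsSink E i → ∀ a b, E a i → E b i → a ≠ b → E a b ∨ E b a)
    [DecidableEq (Option (Param E κ) →₀ ℕ)]
    (g : MvPolynomial (∀ i, Fin (κ i)) ℝ)
    (hg : paramMap E κ (psi z (sinks E) g) = 0) :
    ∀ (k : ℕ) (c : Option (Param E κ) →₀ ℕ), wt E c = k →
      ∑ d ∈ g.support.filter (fun d => mu E z (Finsupp.toMultiset d) = c), g.coeff d = 0 := by
  classical
  obtain ⟨v, hv⟩ : ∃ v : ((∀ i, Fin (κ i)) →₀ ℕ) →
    Polynomial (MvPolynomial (Option (Param E κ)) ℝ), v = fun d =>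
      hq E z (paramMap E κ (psi z (sinks E) (monomial d 1))) := ⟨_, rfl⟩
  have hlow : ∀ d, Low (v d) (wt E (mu E z (Finsupp.toMultiset d)))
      (monomial (mu E z (Finsupp.toMultiset d)) 1) := by
    intro d
    rw [hv]
    simp only
    rw [← mm_toMultiset]
    exact low_mm E z _
  have hclass : ∀ d d', mu E z (Finsupp.toMultiset d) = mu E z (Finsupp.toMultiset d') →
      v d = v d' := by
    intro d d' h
    rw [hv]
    simp only
    rw [← mm_toMultiset, ← mm_toMultiset,
      image_eq_of_fe E z hperf (fe_of_mu E z hn hacyc hperf h)]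
  have hsum : ∑ d ∈ g.support, g.coeff d • v d = 0 := by
    have h1 : hq E z (paramMap E κ (psi z (sinks E) g)) = 0 := by rw [hg, map_zero]
    rw [← support_sum_monomial_coeff g, map_sum, map_sum, map_sum] at h1
    rw [← h1]
    refine Finset.sum_congr rfl fun d _ => ?_
    rw [hv]
    simp only
    rw [← map_smul, ← map_smul, ← map_smul, smul_monomial, smul_eq_mul, mul_one]
  intro k
  induction k using Nat.strong_induction_on with
  | _ k ih =>
  intro c hc
  have h1 : ∑ d ∈ g.support, g.coeff d * ((v d).coeff k).coeff c = 0 := by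
    have h2 := congrArg (fun p : Polynomial (MvPolynomial (Option (Param E κ)) ℝ) =>
      (p.coeff k).coeff c) hsum
    simp only [Polynomial.finsetSum_coeff, Polynomial.coeff_zero, coeff_zero, coeff_sum,
      Polynomial.coeff_smul, coeff_smul, smul_eq_mul] at h2
    exact h2
  rw [← Finset.sum_fiberwise_of_maps_to (t := g.support.image
    (fun d => mu E z (Finsupp.toMultiset d))) (g := fun d => mu E z (Finsupp.toMultiset d))
    (fun d hd => Finset.mem_image_of_mem _ hd)] at h1
  by_cases hcm : c ∈ g.support.image (fun d => mu E z (Finsupp.toMultiset d))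
  · rw [Finset.sum_eq_single c] at h1
    · rw [← h1]
      refine Finset.sum_congr rfl fun d hd => ?_
      have h2 := (Finset.mem_filter.1 hd).2
      have h3 := (hlow d).coeff_eq
      rw [h2, hc] at h3
      rw [h3, coeff_monomial, if_pos rfl, mul_one]
    · intro c' hc' hne
      rcases Nat.lt_or_ge (wt E c') k with hlt | hge
      · obtain ⟨d0, hd0, hd0c⟩ := Finset.mem_image.1 hc'
        have h2 : ∀ d ∈ g.support.filter (fun d => mu E z (Finsupp.toMultiset d) = c'),
            g.coeff d * ((v d).coeff k).coeff c = g.coeff d * ((v d0).coeff k).coeff c := by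
          intro d hd
          rw [hclass d d0 ((Finset.mem_filter.1 hd).2.trans hd0c.symm)]
        rw [Finset.sum_congr rfl h2, ← Finset.sum_mul, ih (wt E c') hlt c' rfl, zero_mul]
      · refine Finset.sum_eq_zero fun d hd => ?_
        have h2 := (Finset.mem_filter.1 hd).2
        have h3 := hlow d
        rw [h2] at h3
        rcases Nat.lt_or_eq_of_le hge with h4 | h4
        · rw [h3.coeff_lt h4, coeff_zero, mul_zero]
        · rw [h4, h3.coeff_eq, coeff_monomial, if_neg hne, mul_zero]
    · intro h; exact absurd hcm h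
  · refine Finset.sum_eq_zero fun d hd => ?_
    obtain ⟨h2, h3⟩ := Finset.mem_filter.1 hd
    exact absurd (Finset.mem_image.2 ⟨d, h2, h3⟩) hcm

/-- If the class sums vanish and differences of monomials of the same class belong to `J`, then
the polynomial belongs to `J`. -/
theorem mem_of_class_sums {σ γ : Type*} [DecidableEq γ] (J : Ideal (MvPolynomial σ ℝ))
    (c : (σ →₀ ℕ) → γ)
    (hJ : ∀ d d', c d = c d' → (monomial d 1 - monomial d' 1 : MvPolynomial σ ℝ) ∈ J)
    (g : MvPolynomial σ ℝ)
    (hg : ∀ x, ∑ d ∈ g.support.filter (fun d => c d = x), g.coeff d = 0) : g ∈ J := by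
  classical
  rw [← support_sum_monomial_coeff g]
  rw [← Finset.sum_fiberwise_of_maps_to (t := g.support.image c) (g := c)
    (fun d hd => Finset.mem_image_of_mem _ hd)]
  refine Ideal.sum_mem _ fun x hx => ?_
  obtain ⟨d0, _, hd0⟩ := Finset.mem_image.1 hx
  have h1 : ∀ d ∈ g.support.filter (fun d => c d = x), monomial d (g.coeff d) =
      C (g.coeff d) * (monomial d 1 - monomial d0 1) + C (g.coeff d) * monomial d0 1 := by
    intro d _
    rw [mul_sub, sub_add_cancel, C_mul_monomial, mul_one]
  rw [Finset.sum_congr rfl h1, Finset.sum_add_distrib, ← Finset.sum_mul, ← map_sum, hg x, map_zero,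
    zero_mul, add_zero]
  refine Ideal.sum_mem _ fun d hd => Ideal.mul_mem_left _ _ (hJ d d0 ?_)
  rw [(Finset.mem_filter.1 hd).2, hd0]

end Pool.Agent.Helper15
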