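import Pool.Agent.Helper15.Alg5

/-!
# The prime ideal is contained in the global Markov ideal under the cycle condition
-/

set_option linter.unusedSectionVars false
set_option linter.unusedSimpArgs false

namespace Pool.Agent.Helper15

open MvPolynomial Relation

theorem exists_sorted {ι V : Type*} [DecidableEq ι] [DecidableEq V] (P : ι → Finset V)
    (W : Finset V) :
    ∀ (k : ℕ) (I : Finset ι), I.card = k →
      (∀ s ∈ I, ∀ t ∈ I, P s ∩ W ⊆ P t ∨ P t ∩ W ⊆ P s) →
      ∃ l : List ι, l.Nodup ∧ l.Pairwise (fun s t => P t ∩ W ⊆ P s) ∧ ∀ t, t ∈ l ↔ t ∈ I := by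
  intro k
  induction k with
  | zero =>
    intro I hI _
    rw [Finset.card_eq_zero] at hI
    subst hI
    exact ⟨[], List.nodup_nil, List.Pairwise.nil, by simp⟩
  | succ k ih =>
    intro I hI hch
    have hne : I.Nonempty := by rw [← Finset.card_pos]; omega
    obtain ⟨s, hs, hmax⟩ := Finset.exists_max_image I (fun s => (P s ∩ W).card) hne
    obtain ⟨l, h1, h2, h3⟩ := ih (I.erase s) (by rw [Finset.card_erase_of_mem hs]; omega)
      (fun a ha b hb => hch a (Finset.mem_of_mem_erase ha) b (Finset.mem_of_mem_erase hb))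
    refine ⟨s :: l, ?_, ?_, ?_⟩
    · rw [List.nodup_cons]
      refine ⟨fun h => ?_, h1⟩
      exact (Finset.mem_erase.1 ((h3 s).1 h)).1 rfl
    · rw [List.pairwise_cons]
      refine ⟨fun t ht => ?_, h2⟩
      have ht' : t ∈ I := Finset.mem_of_mem_erase ((h3 t).1 ht)
      rcases hch s hs t ht' with h | h
      · have h4 : P s ∩ W ⊆ P t ∩ W := Finset.subset_inter h Finset.inter_subset_right
        have h5 := Finset.eq_of_subset_of_card_le h4 (hmax t ht')
        rw [← h5]
        exact Finset.inter_subset_left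
      · exact h
    · intro t
      rw [List.mem_cons, h3, Finset.mem_erase]
      constructor
      · rintro (rfl | h)
        · exact hs
        · exact h.2
      · intro h
        by_cases hts : t = s
        · exact Or.inl hts
        · exact Or.inr ⟨hts, h⟩

variable {n : ℕ} (E : Fin n → Fin n → Prop) {κ : Fin n → ℕ} (z : ∀ i, Fin (κ i))

theorem nestSimp_exists (hcyc : CycCond (SimpleGraph.fromRel E) {i | IsSink E i})
    (W : Finset (Fin n)) (hW : W ⊆ nonsinks E) (hne : W.Nonempty) :
    ∃ v ∈ W, NestSimp (Clq E)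
      (fun t : Σ i, Fin (κ i) => if t.1 ∈ sinks E then parents E t.1 else ∅) W v := by
  classical
  have hind : ∀ s ∈ {i | IsSink E i}, ∀ t ∈ {i | IsSink E i},
      ¬ (SimpleGraph.fromRel E).Adj s t := by
    intro s hs t ht h
    rw [SimpleGraph.fromRel_adj] at h
    rcases h.2 with h | h
    · exact hs t h
    · exact ht s h
  have hWS : ∀ w ∈ W, w ∉ {i | IsSink E i} := fun w hw => (mem_nonsinks E).1 (hW hw)
  obtain ⟨v, hv, _, hv1, hv2, hv3⟩ := nest_exists hcyc hind _ W (sinks E) ∅ rfl
    (fun s hs => (mem_sinks E).1 hs) hWS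
    (Finset.empty_subset _) (by rwa [Finset.sdiff_empty]) (Or.inl (by simp))
  have hadj : ∀ s, IsSink E s → ∀ a, (SimpleGraph.fromRel E).Adj s a ↔ E a s := by
    intro s hs a
    rw [SimpleGraph.fromRel_adj]
    constructor
    · rintro ⟨_, h | h⟩
      · exact absurd h (hs a)
      · exact h
    · intro h
      refine ⟨?_, Or.inr h⟩
      rintro rfl
      exact hs _ h
  have hNC : ∀ s, IsSink E s → (NC (SimpleGraph.fromRel E) W s ↔ Clq E (parents E s ∩ W)) := by
    intro s hs
    constructor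
    · intro h
      refine ⟨Finset.inter_subset_right.trans hW, ?_⟩
      intro a ha b hb hab
      rw [Finset.mem_inter, mem_parents] at ha hb
      have := h a ha.2 b hb.2 ((hadj s hs a).2 ha.1) ((hadj s hs b).2 hb.1) hab
      rw [SimpleGraph.fromRel_adj] at this
      exact this.2
    · intro h a ha b hb hsa hsb hab
      rw [SimpleGraph.fromRel_adj]
      exact ⟨hab, h.2 a (Finset.mem_inter.2 ⟨(mem_parents E).2 ((hadj s hs a).1 hsa), ha⟩) b
        (Finset.mem_inter.2 ⟨(mem_parents E).2 ((hadj s hs b).1 hsb), hb⟩) hab⟩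
  obtain ⟨P, hP⟩ : ∃ P : (Σ i, Fin (κ i)) → Finset (Fin n),
    P = fun t : Σ i, Fin (κ i) => if t.1 ∈ sinks E then parents E t.1 else ∅ := ⟨_, rfl⟩
  rw [← hP]
  have mP : ∀ t a, a ∈ P t ↔ IsSink E t.1 ∧ E a t.1 := by
    intro t a
    rw [hP]
    simp only
    by_cases h : t.1 ∈ sinks E
    · rw [if_pos h, mem_parents]
      exact ⟨fun h' => ⟨(mem_sinks E).1 h, h'⟩, fun h' => h'.2⟩
    · rw [if_neg h]
      simp only [Finset.notMem_empty, false_iff, not_and]
      intro h'
      exact absurd ((mem_sinks E).2 h') h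
  obtain ⟨l, hl1, hl2, hl3⟩ := exists_sorted P W _
    (Finset.univ.filter (fun t : Σ i, Fin (κ i) => v ∈ P t ∧
      ¬ NC (SimpleGraph.fromRel E) W t.1)) rfl (by
      intro s hs t ht
      simp only [Finset.mem_filter, Finset.mem_univ, true_and] at hs ht
      obtain ⟨hs1, hs2⟩ := hs
      obtain ⟨ht1, ht2⟩ := ht
      rw [mP] at hs1 ht1
      rcases hv3 s.1 ((mem_sinks E).2 hs1.1) t.1 ((mem_sinks E).2 ht1.1)
        ((hadj _ hs1.1 _).2 hs1.2) ((hadj _ ht1.1 _).2 ht1.2) hs2 ht2 with h | h
      · left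
        intro a ha
        rw [Finset.mem_inter, mP] at ha
        rw [mP]
        exact ⟨ht1.1, (hadj _ ht1.1 _).1 (h a ha.2 ((hadj _ hs1.1 _).2 ha.1.2))⟩
      · right
        intro a ha
        rw [Finset.mem_inter, mP] at ha
        rw [mP]
        exact ⟨hs1.1, (hadj _ hs1.1 _).1 (h a ha.2 ((hadj _ ht1.1 _).2 ha.1.2))⟩)
  refine ⟨v, hv, W.filter ((SimpleGraph.fromRel E).Adj v), ?_, ⟨?_, ?_⟩, ?_, l, hl1, hl2, ?_, ?_⟩
  · intro a ha
    obtain ⟨h1, h2⟩ := Finset.mem_filter.1 ha
    exact Finset.mem_erase.2 ⟨h2.ne', h1⟩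
  · intro a ha
    rcases Finset.mem_insert.1 ha with rfl | ha
    · exact hW hv
    · exact hW (Finset.mem_filter.1 ha).1
  · intro a ha b hb hab
    rcases Finset.mem_insert.1 ha with rfl | ha
    · rcases Finset.mem_insert.1 hb with rfl | hb
      · exact absurd rfl hab
      · have := (Finset.mem_filter.1 hb).2
        rw [SimpleGraph.fromRel_adj] at this
        exact this.2
    · rcases Finset.mem_insert.1 hb with rfl | hb
      · have := (Finset.mem_filter.1 ha).2
        rw [SimpleGraph.fromRel_adj] at this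
        exact this.2.symm
      · obtain ⟨a1, a2⟩ := Finset.mem_filter.1 ha
        obtain ⟨b1, b2⟩ := Finset.mem_filter.1 hb
        have := hv1 a a1 b b1 a2 b2 hab
        rw [SimpleGraph.fromRel_adj] at this
        exact this.2
  · intro C hC hCW hvC a ha
    by_cases hav : a = v
    · rw [hav]; exact Finset.mem_insert_self _ _
    · refine Finset.mem_insert_of_mem (Finset.mem_filter.2 ⟨hCW ha, ?_⟩)
      rw [SimpleGraph.fromRel_adj]
      exact ⟨fun h => hav h.symm, hC.2 v hvC a ha (fun h => hav h.symm)⟩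
  · intro t ht
    rw [hl3] at ht
    simp only [Finset.mem_filter, Finset.mem_univ, true_and] at ht
    refine ⟨ht.1, ?_⟩
    have h1 := (mP t v).1 ht.1
    intro a ha
    obtain ⟨a1, a2⟩ := Finset.mem_filter.1 ha
    rw [mP]
    refine ⟨h1.1, ?_⟩
    rcases hv2 t.1 ((mem_sinks E).2 h1.1) ((hadj _ h1.1 _).2 h1.2) with h | h
    · exact absurd h ht.2
    · exact (hadj _ h1.1 _).1 (h a a1 a2)
  · intro t ht
    by_cases h : NC (SimpleGraph.fromRel E) W t.1
    · right
      have h1 := (mP t v).1 ht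
      have h2 : P t = parents E t.1 := by
        rw [hP]; simp only; rw [if_pos ((mem_sinks E).2 h1.1)]
      rw [h2]
      exact (hNC _ h1.1).1 h
    · left
      rw [hl3]
      simp only [Finset.mem_filter, Finset.mem_univ, true_and]
      exact ⟨ht, h⟩

theorem connected_of_fe (hcyc : CycCond (SimpleGraph.fromRel E) {i | IsSink E i})
    {T T' : Multiset (∀ i, Fin (κ i))} (h : FE E z T T') :
    ReflTransGen (fun T T' => ∃ u w u' w' R, T = u ::ₘ w ::ₘ R ∧ T' = u' ::ₘ w' ::ₘ R ∧
      MvF z (Clq E) (parents E) (nonsinks E) (sinks E) u w u' w') T T' := by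
  have huniv : nonsinks E ∪ sinks E = Finset.univ := by
    ext i
    simp only [Finset.mem_union, mem_nonsinks, mem_sinks, Finset.mem_univ, iff_true]
    tauto
  have hgood : ∀ T : Multiset (∀ i, Fin (κ i)),
      GoodF z (parents E) (nonsinks E) (sinks E) (sinks E \ sinks E) (fun _ => 0) T := by
    intro T
    refine ⟨fun r _ => ?_, fun t ht => ?_⟩
    · rw [huniv]
      funext i
      exact res_apply_mem z (Finset.mem_univ _)
    · rw [Finset.sdiff_self] at ht
      simp at ht
  have h1 := fconn (z := z) (Clq E) (parents E) (nonsinks E) (sinks E)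
    (by
      intro i hi
      refine ⟨by simpa using hi, fun a ha b hb hab => ?_⟩
      rw [Finset.mem_singleton] at ha hb
      exact absurd (ha.trans hb.symm) hab)
    (fun C D hC hD => hC.subset E hD)
    ⟨Finset.empty_subset _, fun a ha => by simp at ha⟩
    (fun s hs => by rw [mem_nonsinks, not_not]; exact (mem_sinks E).1 hs)
    (fun s _ i hi => (mem_nonsinks E).2 fun h => h s ((mem_parents E).1 hi))
    (fun W hW hne => nestSimp_exists E hcyc W hW hne)
    (sinks E) (Finset.Subset.refl _) (fun _ => 0) T T' (hgood T) (hgood T')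
    (fun C hC _ => h.1 C hC) (fun i hi => h.2 i ((mem_sinks E).1 hi))
  refine ReflTransGen.mono ?_ _ _ h1
  rintro T1 T2 ⟨u, w, u', w', R, e1, e2, hm, _, _⟩
  exact ⟨u, w, u', w', R, e1, e2, hm⟩

theorem mm_sub_mem (hacyc : ∀ i, ¬ TransGen E i i)
    (hperf : ∀ i, ¬ IsSink E i → ∀ a b, E a i → E b i → a ≠ b → E a b ∨ E b a)
    (hcyc : CycCond (SimpleGraph.fromRel E) {i | IsSink E i})
    {T T' : Multiset (∀ i, Fin (κ i))} (h : FE E z T T') :
    psi z (sinks E) (mm T - mm T') ∈ globalIdeal E κ := by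
  have hc := connected_of_fe E z hcyc h
  clear h
  induction hc with
  | refl => rw [sub_self, map_zero]; exact Ideal.zero_mem _
  | tail _ h2 ih =>
    obtain ⟨u, w, u', w', R, rfl, rfl, hm⟩ := h2
    have e1 : ∀ (a b : ∀ i, Fin (κ i)), (mm (a ::ₘ b ::ₘ R) : MvPolynomial (∀ i, Fin (κ i)) ℝ) =
        (X a * X b) * mm R := by
      intro a b
      unfold mm
      rw [Multiset.map_cons, Multiset.prod_cons, Multiset.map_cons, Multiset.prod_cons, mul_assoc]
    have e2 : psi z (sinks E) (mm T - mm (u' ::ₘ w' ::ₘ R)) =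
        psi z (sinks E) (mm T - mm (u ::ₘ w ::ₘ R)) +
          psi z (sinks E) (mm R) * psi z (sinks E) (X u * X w - X u' * X w') := by
      rw [← map_mul, ← map_add]
      congr 1
      rw [e1, e1]
      ring
    rw [e2]
    exact Ideal.add_mem _ ih (Ideal.mul_mem_left _ _ (quad_mem E z hacyc hperf hm))

theorem prime_le_global (hn : 0 < n) (hacyc : ∀ i, ¬ TransGen E i i) (z : ∀ i, Fin (κ i))
    (hperf : ∀ i, ¬ IsSink E i → ∀ a b, E a i → E b i → a ≠ b → E a b ∨ E b a)
    (hcyc : CycCond (SimpleGraph.fromRel E) {i | IsSink E i}) :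
    primeIdeal E κ ≤ globalIdeal E κ := by
  classical
  intro p hp
  obtain ⟨g, rfl⟩ := psi_surjective z (sinks E) p
  have hg : paramMap E κ (psi z (sinks E) g) = 0 := hp
  have h1 : g ∈ (globalIdeal E κ).comap (psi z (sinks E)) := by
    refine mem_of_class_sums _ (fun d => mu E z (Finsupp.toMultiset d)) ?_ g
      (fun x => kernel_sum E z hn hacyc hperf g hg _ x rfl)
    intro d d' hdd
    rw [Ideal.mem_comap, ← mm_toMultiset, ← mm_toMultiset]
    exact mm_sub_mem E z hacyc hperf hcyc (fe_of_mu E z hn hacyc hperf hdd)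
  exact h1

end Pool.Agent.Helper15
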