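import Pool.Agent.Helper15.Alg6

/-!
# A bad induced cycle forces a non-quadratic generator: combinatorics
-/

set_option linter.unusedSectionVars false
set_option linter.unusedSimpArgs false

namespace Pool.Agent.Helper15

open MvPolynomial Relation

variable {n : ℕ} (E : Fin n → Fin n → Prop) {κ : Fin n → ℕ} (z : ∀ i, Fin (κ i))

/-- An induced cycle `cyc 0, …, cyc (k - 1)` with non-sinks at `0 < p < q` such that all vertices
between `0` and `p` are sinks. -/
structure CycData (k p q : ℕ) (cyc : ℕ → Fin n) : Prop where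
  hk : 4 ≤ k
  hper : cyc k = cyc 0
  hne : ∀ i j, i < j → j < k → cyc i ≠ cyc j
  hadj : ∀ i j, i < j → j < k →
    ((SimpleGraph.fromRel E).Adj (cyc i) (cyc j) ↔ (j = i + 1 ∨ (i = 0 ∧ j + 1 = k)))
  hp0 : 0 < p
  hpq : p < q
  hqk : q < k
  h0 : ¬ IsSink E (cyc 0)
  hpn : ¬ IsSink E (cyc p)
  hqn : ¬ IsSink E (cyc q)
  hbet : ∀ i, 0 < i → i < p → IsSink E (cyc i)

open Classical in
/-- The states of the quartic. -/
noncomputable def row (o : ∀ i, Fin (κ i)) (k p : ℕ) (cyc : ℕ → Fin n) (x y w : Bool) :
    ∀ i, Fin (κ i) := fun v =>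
  if v = cyc 0 then (if x then o v else z v) else
  if v = cyc p then (if y then o v else z v) else
  if ∃ i < k, v = cyc i then (if IsSink E v then o v else if w then o v else z v) else z v

variable {E z} {o : ∀ i, Fin (κ i)} {k p q : ℕ} {cyc : ℕ → Fin n}

theorem CycData.inj (h : CycData E k p q cyc) {i j : ℕ} (hi : i < k) (hj : j < k)
    (hij : cyc i = cyc j) : i = j := by
  rcases lt_trichotomy i j with h1 | h1 | h1
  · exact absurd hij (h.hne i j h1 hj)
  · exact h1
  · exact absurd hij.symm (h.hne j i h1 hi)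

theorem CycData.succ (h : CycData E k p q cyc) {i : ℕ} (hi : i < k) :
    (SimpleGraph.fromRel E).Adj (cyc i) (cyc (i + 1)) := by
  by_cases h1 : i + 1 < k
  · exact (h.hadj i (i + 1) (by omega) h1).2 (Or.inl rfl)
  · have h2 : i + 1 = k := by omega
    rw [h2, h.hper, SimpleGraph.adj_comm]
    have h3 := h.hk
    exact (h.hadj 0 i (by omega) hi).2 (Or.inr ⟨rfl, h2⟩)

theorem CycData.row_zero (x y w : Bool) :
    row E z o k p cyc x y w (cyc 0) = if x then o (cyc 0) else z (cyc 0) := by
  unfold row; rw [if_pos rfl]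

theorem CycData.row_p (h : CycData E k p q cyc) (x y w : Bool) :
    row E z o k p cyc x y w (cyc p) = if y then o (cyc p) else z (cyc p) := by
  have h1 := h.hpq
  have h2 := h.hqk
  unfold row
  rw [if_neg (fun h' => absurd h'.symm (h.hne 0 p h.hp0 (by omega))), if_pos rfl]

theorem CycData.row_nonsink (h : CycData E k p q cyc) (x y w : Bool) {i : ℕ} (hpi : p < i)
    (hik : i < k) (hi : ¬ IsSink E (cyc i)) :
    row E z o k p cyc x y w (cyc i) = if w then o (cyc i) else z (cyc i) := by
  have h1 := h.hp0
  unfold row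
  rw [if_neg (fun h' => absurd h'.symm (h.hne 0 i (by omega) hik)),
    if_neg (fun h' => absurd h'.symm (h.hne p i hpi hik)), if_pos ⟨i, hik, rfl⟩, if_neg hi]

theorem CycData.row_sink (h : CycData E k p q cyc) (x y w : Bool) {i : ℕ}
    (hik : i < k) (hi : IsSink E (cyc i)) :
    row E z o k p cyc x y w (cyc i) = o (cyc i) := by
  have h1 : cyc i ≠ cyc 0 := by
    intro h'; rw [h'] at hi; exact h.h0 hi
  have h2 : cyc i ≠ cyc p := by
    intro h'; rw [h'] at hi; exact h.hpn hi
  unfold row
  rw [if_neg h1, if_neg h2, if_pos ⟨i, hik, rfl⟩, if_pos hi]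

theorem row_out (x y w : Bool) {v : Fin n} (hk : 0 < k) (hp : p < k) (hv : ∀ i < k, v ≠ cyc i) :
    row E z o k p cyc x y w v = z v := by
  unfold row
  rw [if_neg (hv 0 hk), if_neg (hv p hp), if_neg]
  rintro ⟨i, hi, h⟩
  exact hv i hi h

theorem CycData.row_congr (h : CycData E k p q cyc) {x y w x' y' w' : Bool} (v : Fin n)
    (hx : v = cyc 0 → x = x') (hy : v = cyc p → y = y')
    (hw : ∀ i, p < i → i < k → v = cyc i → ¬ IsSink E v → w = w') :
    row E z o k p cyc x y w v = row E z o k p cyc x' y' w' v := by
  unfold row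
  by_cases h0 : v = cyc 0
  · rw [if_pos h0, if_pos h0, hx h0]
  · rw [if_neg h0, if_neg h0]
    by_cases h1 : v = cyc p
    · rw [if_pos h1, if_pos h1, hy h1]
    · rw [if_neg h1, if_neg h1]
      by_cases h2 : ∃ i < k, v = cyc i
      · rw [if_pos h2, if_pos h2]
        by_cases h3 : IsSink E v
        · rw [if_pos h3, if_pos h3]
        · rw [if_neg h3, if_neg h3]
          obtain ⟨i, hi, hvi⟩ := h2
          have h4 : p < i := by
            by_contra h5
            rcases Nat.eq_zero_or_pos i with h6 | h6
            · subst h6; exact h0 hvi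
            · by_cases h7 : i = p
              · subst h7; exact h1 hvi
              · exact h3 (hvi ▸ h.hbet i h6 (by omega))
          rw [hw i h4 hi hvi h3]
      · rw [if_neg h2, if_neg h2]

/-- Even rows. -/
noncomputable def Te (E : Fin n → Fin n → Prop) (z o : ∀ i, Fin (κ i)) (k p : ℕ)
    (cyc : ℕ → Fin n) : Multiset (∀ i, Fin (κ i)) :=
  row E z o k p cyc false false false ::ₘ row E z o k p cyc false true true ::ₘ
    row E z o k p cyc true false true ::ₘ {row E z o k p cyc true true false}

/-- Odd rows. -/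
noncomputable def To (E : Fin n → Fin n → Prop) (z o : ∀ i, Fin (κ i)) (k p : ℕ)
    (cyc : ℕ → Fin n) : Multiset (∀ i, Fin (κ i)) :=
  row E z o k p cyc true true true ::ₘ row E z o k p cyc true false false ::ₘ
    row E z o k p cyc false true false ::ₘ {row E z o k p cyc false false true}

theorem parity_map {τ : Type*} (f : (∀ i, Fin (κ i)) → τ)
    (h : (∀ x x' y w, f (row E z o k p cyc x y w) = f (row E z o k p cyc x' y w)) ∨
      (∀ x y y' w, f (row E z o k p cyc x y w) = f (row E z o k p cyc x y' w)) ∨
      (∀ x y w w', f (row E z o k p cyc x y w) = f (row E z o k p cyc x y w'))) :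
    (Te E z o k p cyc).map f = (To E z o k p cyc).map f := by
  classical
  unfold Te To
  simp only [Multiset.map_cons, Multiset.map_singleton]
  rcases h with h | h | h
  · rw [h false true false false, h false true true true, h true false true false,
      h true false false true]
    ext a
    simp only [Multiset.count_cons, Multiset.count_singleton]
    ring
  · rw [h false false true false, h false true false true, h true false true true,
      h true true false false]
    ext a
    simp only [Multiset.count_cons, Multiset.count_singleton]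
    ring
  · rw [h false false false true, h false true true false, h true false true false,
      h true true false true]
    ext a
    simp only [Multiset.count_cons, Multiset.count_singleton]
    ring

theorem CycData.fe (h : CycData E k p q cyc) : FE E z (Te E z o k p cyc) (To E z o k p cyc) := by
  have hk := h.hk
  have hp0 := h.hp0
  have hpq := h.hpq
  have hqk := h.hqk
  -- a set missing one of the three types
  have key : ∀ D : Finset (Fin n), (cyc 0 ∉ D ∨ cyc p ∉ D ∨
      ∀ i, p < i → i < k → ¬ IsSink E (cyc i) → cyc i ∉ D) →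
      ((∀ x x' y w, res z D (row E z o k p cyc x y w) = res z D (row E z o k p cyc x' y w)) ∨
      (∀ x y y' w, res z D (row E z o k p cyc x y w) = res z D (row E z o k p cyc x y' w)) ∨
      (∀ x y w w', res z D (row E z o k p cyc x y w) = res z D (row E z o k p cyc x y w'))) := by
    intro D hD
    rcases hD with hD | hD | hD
    · left
      intro x x' y w
      rw [res_eq_iff]
      exact fun v hv => h.row_congr v (fun h' => absurd (h' ▸ hv) hD) (fun _ => rfl)
        (fun _ _ _ _ _ => rfl)
    · right; left
      intro x y y' w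
      rw [res_eq_iff]
      exact fun v hv => h.row_congr v (fun _ => rfl) (fun h' => absurd (h' ▸ hv) hD)
        (fun _ _ _ _ _ => rfl)
    · right; right
      intro x y w w'
      rw [res_eq_iff]
      exact fun v hv => h.row_congr v (fun _ => rfl) (fun _ => rfl)
        (fun i h1 h2 h3 h4 => absurd (h3 ▸ hv) (hD i h1 h2 (h3 ▸ h4)))
  constructor
  · intro C hC
    refine parity_map _ (key C ?_)
    by_contra hcon
    push Not at hcon
    obtain ⟨h1, h2, j, hpj, hjk, hj, h3⟩ := hcon
    have hadj' : ∀ a ∈ C, ∀ b ∈ C, a ≠ b → (SimpleGraph.fromRel E).Adj a b := by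
      intro a ha b hb hab
      rw [SimpleGraph.fromRel_adj]
      exact ⟨hab, hC.2 a ha b hb hab⟩
    have e1 := (h.hadj 0 p hp0 (by omega)).1 (hadj' _ h1 _ h2 (h.hne 0 p hp0 (by omega)))
    have e2 := (h.hadj p j hpj hjk).1 (hadj' _ h2 _ h3 (h.hne p j hpj hjk))
    have e3 := (h.hadj 0 j (by omega) hjk).1 (hadj' _ h1 _ h3 (h.hne 0 j (by omega) hjk))
    omega
  · intro s hs
    by_cases hsc : ∃ i < k, s = cyc i
    · obtain ⟨i, hik, rfl⟩ := hsc
      have hi0 : 0 < i := by
        rcases Nat.eq_zero_or_pos i with h1 | h1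
        · subst h1; exact absurd hs h.h0
        · exact h1
      have hip : i ≠ p := by rintro rfl; exact h.hpn hs
      have hiq : i ≠ q := by rintro rfl; exact h.hqn hs
      have hos : o (cyc i) = z (cyc i) ∨ o (cyc i) ≠ z (cyc i) := em _
      have hval : ∀ x y w, row E z o k p cyc x y w (cyc i) = o (cyc i) := fun x y w =>
        h.row_sink x y w hik hs
      rcases hos with hos | hos
      · refine parity_map _ (Or.inl fun x x' y w => ?_)
        unfold Fs
        rw [if_pos ((hval _ _ _).trans hos), if_pos ((hval _ _ _).trans hos)]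
      · have hFs : ∀ x y w, Fs z (parents E) (cyc i) (row E z o k p cyc x y w) =
            res z (insert (cyc i) (parents E (cyc i))) (row E z o k p cyc x y w) := by
          intro x y w
          unfold Fs
          rw [if_neg (by rw [hval]; exact hos)]
        refine parity_map _ ?_
        simp only [hFs]
        refine key _ ?_
        by_contra hcon
        push Not at hcon
        obtain ⟨h1, h2, j, hpj, hjk, hj, h3⟩ := hcon
        have hpar : ∀ j, ¬ IsSink E (cyc j) → cyc j ∈ insert (cyc i) (parents E (cyc i)) →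
            (SimpleGraph.fromRel E).Adj (cyc i) (cyc j) := by
          intro j hj hjm
          rcases Finset.mem_insert.1 hjm with h4 | h4
          · exact absurd (h4 ▸ hs) hj
          · rw [mem_parents] at h4
            rw [SimpleGraph.fromRel_adj]
            refine ⟨fun h5 => hj (h5 ▸ hs), Or.inr h4⟩
        have a1 := (hpar 0 h.h0 h1).symm
        have a2 := hpar p h.hpn h2
        have a3 := hpar j hj h3
        have e1 := (h.hadj 0 i hi0 hik).1 a1
        have hij : i ≠ j := by rintro rfl; exact hj hs
        have hadj' : ∀ j, i ≠ j → j < k → (SimpleGraph.fromRel E).Adj (cyc i) (cyc j) →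
            (j = i + 1 ∨ i = j + 1 ∨ (i = 0 ∧ j + 1 = k) ∨ (j = 0 ∧ i + 1 = k)) := by
          intro j hij hj ha
          rcases lt_or_gt_of_ne hij with h5 | h5
          · rcases (h.hadj i j h5 hj).1 ha with h6 | h6
            · exact Or.inl h6
            · exact Or.inr (Or.inr (Or.inl h6))
          · rcases (h.hadj j i h5 hik).1 ha.symm with h6 | h6
            · exact Or.inr (Or.inl h6)
            · exact Or.inr (Or.inr (Or.inr h6))
        have e2 := hadj' p hip (by omega) a2
        have e3 := hadj' j hij hjk a3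
        omega
    · push Not at hsc
      refine parity_map _ (Or.inl fun x x' y w => ?_)
      unfold Fs
      rw [if_pos (row_out x y w (by omega) (by omega) hsc),
        if_pos (row_out x' y w (by omega) (by omega) hsc)]

/-- Rigidity of pairs of rows differing on a window of the cycle. -/
theorem CycData.window (h : CycData E k p q cyc) {u u2 u' w' : ∀ i, Fin (κ i)}
    (hm : MvF z (Clq E) (parents E) (nonsinks E) (sinks E) u u2 u' w') (lo hi : ℕ)
    (hhi : hi ≤ k)
    (hlon : ¬ IsSink E (cyc lo))
    (hdiff : ∀ i, lo ≤ i → i ≤ hi → ¬ IsSink E (cyc i) → u (cyc i) ≠ u2 (cyc i))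
    (hsame : ∀ v, (∀ i, lo ≤ i → i ≤ hi → ¬ IsSink E (cyc i) → v ≠ cyc i) → u v = u2 v)
    (hsink : ∀ i, lo ≤ i → i ≤ hi → IsSink E (cyc i) →
      u (cyc i) ≠ z (cyc i) ∧ u2 (cyc i) ≠ z (cyc i)) :
    (u' = u ∧ w' = u2) ∨ (u' = u2 ∧ w' = u) := by
  have hco := mvF_coord E z hm
  -- consecutive vertices
  have hadjE : ∀ j, j < k → (E (cyc j) (cyc (j + 1)) ∨ E (cyc (j + 1)) (cyc j)) := by
    intro j hj
    have := h.succ hj
    rw [SimpleGraph.fromRel_adj] at this
    exact this.2
  have link1 : ∀ j, lo ≤ j → j + 1 ≤ hi → ¬ IsSink E (cyc j) → ¬ IsSink E (cyc (j + 1)) →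
      (u (cyc j) = u' (cyc j) ↔ u (cyc (j + 1)) = u' (cyc (j + 1))) := by
    intro j h1 h2 h3 h4
    have hsub : ({cyc j, cyc (j + 1)} : Finset (Fin n)) ⊆ nonsinks E := by
      intro a ha
      rw [Finset.mem_insert, Finset.mem_singleton] at ha
      rcases ha with rfl | rfl
      · exact (mem_nonsinks E).2 h3
      · exact (mem_nonsinks E).2 h4
    have hp := hm.1 {cyc j, cyc (j + 1)} ⟨hsub, by
      intro a ha b hb hab
      rw [Finset.mem_insert, Finset.mem_singleton] at ha hb
      rcases ha with rfl | rfl <;> rcases hb with rfl | rfl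
      · exact absurd rfl hab
      · exact hadjE j (by omega)
      · exact (hadjE j (by omega)).symm
      · exact absurd rfl hab⟩ hsub
    unfold Pres at hp
    simp only [res_eq_iff, Finset.mem_insert, Finset.mem_singleton, forall_eq_or_imp,
      forall_eq] at hp
    have d1 := hdiff j h1 (by omega) h3
    have d2 := hdiff (j + 1) (by omega) h2 h4
    rcases hp with ⟨⟨e1, e2⟩, e3, e4⟩ | ⟨⟨e1, e2⟩, e3, e4⟩
    · exact ⟨fun _ => e2, fun _ => e1⟩
    · exact ⟨fun h' => absurd (h'.trans e3.symm) d1, fun h' => absurd (h'.trans e4.symm) d2⟩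
  have link2 : ∀ j, lo ≤ j → j + 2 ≤ hi → ¬ IsSink E (cyc j) → IsSink E (cyc (j + 1)) →
      ¬ IsSink E (cyc (j + 2)) →
      (u (cyc j) = u' (cyc j) ↔ u (cyc (j + 2)) = u' (cyc (j + 2))) := by
    intro j h1 h2 h3 h4 h5
    have par1 : cyc j ∈ parents E (cyc (j + 1)) := by
      rw [mem_parents]
      rcases hadjE j (by omega) with h' | h'
      · exact h'
      · exact absurd h' (h4 _)
    have par2 : cyc (j + 2) ∈ parents E (cyc (j + 1)) := by
      rw [mem_parents]
      rcases hadjE (j + 1) (by omega) with h' | h'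
      · exact absurd h' (h4 _)
      · exact h'
    obtain ⟨s1, s2⟩ := hsink (j + 1) (by omega) (by omega) h4
    have hp := hm.2 (cyc (j + 1)) ((mem_sinks E).2 h4)
    unfold Pres at hp
    have d1 := hdiff j h1 (by omega) h3
    have d2 := hdiff (j + 2) (by omega) h2 h5
    rcases hp with ⟨e1, e2⟩ | ⟨e1, e2⟩
    · have := Fs_eq_imp e1 s1
      exact ⟨fun _ => this _ par2, fun _ => this _ par1⟩
    · have := Fs_eq_imp e2 s2
      exact ⟨fun h' => absurd (h'.trans (this _ par1).symm) d1,
        fun h' => absurd (h'.trans (this _ par2).symm) d2⟩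
  have chain : ∀ d, ∀ i, lo ≤ i → i + d ≤ hi → ¬ IsSink E (cyc i) → ¬ IsSink E (cyc (i + d)) →
      (u (cyc i) = u' (cyc i) ↔ u (cyc (i + d)) = u' (cyc (i + d))) := by
    intro d
    induction d using Nat.strong_induction_on with
    | _ d ih =>
    intro i h1 h2 h3 h4
    rcases Nat.eq_zero_or_pos d with hd | hd
    · subst hd; exact Iff.rfl
    · obtain ⟨d', rfl⟩ : ∃ d', d = d' + 1 := ⟨d - 1, by omega⟩
      by_cases hs : IsSink E (cyc (i + d'))
      · rcases Nat.eq_zero_or_pos d' with hd' | hd'
        · subst hd'; exact absurd hs h3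
        · obtain ⟨d'', rfl⟩ : ∃ d'', d' = d'' + 1 := ⟨d' - 1, by omega⟩
          have hns : ¬ IsSink E (cyc (i + d'')) := by
            intro h'
            rcases hadjE (i + d'') (by omega) with h5 | h5
            · exact h' _ h5
            · exact hs _ h5
          rw [ih d'' (by omega) i h1 (by omega) h3 hns]
          exact link2 (i + d'') (by omega) (by omega) hns hs h4
      · rw [ih d' (by omega) i h1 (by omega) h3 hs]
        exact link1 (i + d') (by omega) (by omega) hs h4
  have hall : ∀ i, lo ≤ i → i ≤ hi → ¬ IsSink E (cyc i) →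
      (u (cyc lo) = u' (cyc lo) ↔ u (cyc i) = u' (cyc i)) := by
    intro i h1 h2 h3
    obtain ⟨d, rfl⟩ : ∃ d, i = lo + d := ⟨i - lo, by omega⟩
    exact chain d lo le_rfl h2 hlon h3
  by_cases hst : u (cyc lo) = u' (cyc lo)
  · left
    have hu : u' = u := by
      funext v
      by_cases hv : ∃ i, lo ≤ i ∧ i ≤ hi ∧ ¬ IsSink E (cyc i) ∧ v = cyc i
      · obtain ⟨i, h1, h2, h3, rfl⟩ := hv
        exact ((hall i h1 h2 h3).1 hst).symm
      · push Not at hv
        have h1 := hsame v hv
        rcases hco v with ⟨e1, e2⟩ | ⟨e1, e2⟩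
        · exact e1.symm
        · rw [← e2, h1]
    refine ⟨hu, ?_⟩
    funext v
    rcases hco v with ⟨e1, e2⟩ | ⟨e1, e2⟩
    · exact e2.symm
    · rw [← e1, e2, hu]
  · right
    have hu : u' = u2 := by
      funext v
      by_cases hv : ∃ i, lo ≤ i ∧ i ≤ hi ∧ ¬ IsSink E (cyc i) ∧ v = cyc i
      · obtain ⟨i, h1, h2, h3, rfl⟩ := hv
        have h4 : ¬ (u (cyc i) = u' (cyc i)) := fun h' => hst ((hall i h1 h2 h3).2 h')
        rcases hco (cyc i) with ⟨e1, e2⟩ | ⟨e1, e2⟩
        · exact absurd e1 h4
        · exact e2.symm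
      · push Not at hv
        have h1 := hsame v hv
        rcases hco v with ⟨e1, e2⟩ | ⟨e1, e2⟩
        · rw [← e1, h1]
        · exact e2.symm
    refine ⟨hu, ?_⟩
    funext v
    rcases hco v with ⟨e1, e2⟩ | ⟨e1, e2⟩
    · rw [← e2, ← hu, ← e1]
    · exact e1.symm

/-- Rigidity of pairs of even rows. -/
theorem CycData.rigid (h : CycData E k p q cyc) (ho : ∀ i, o i ≠ z i)
    {x y w x2 y2 w2 : Bool} {u' w' : ∀ i, Fin (κ i)}
    (hev : xor x (xor y w) = false) (hev2 : xor x2 (xor y2 w2) = false)
    (hm : MvF z (Clq E) (parents E) (nonsinks E) (sinks E) (row E z o k p cyc x y w)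
      (row E z o k p cyc x2 y2 w2) u' w') :
    (u' = row E z o k p cyc x y w ∧ w' = row E z o k p cyc x2 y2 w2) ∨
      (u' = row E z o k p cyc x2 y2 w2 ∧ w' = row E z o k p cyc x y w) := by
  have hk := h.hk
  have hp0 := h.hp0
  have hpq := h.hpq
  have hqk := h.hqk
  have hbb : ∀ (a b : Bool) (v : Fin n), a ≠ b →
      (if a then o v else z v) ≠ (if b then o v else z v) := by
    intro a b v hab
    cases a <;> cases b
    · exact absurd rfl hab
    · simpa using (ho v).symm
    · simpa using ho v
    · exact absurd rfl hab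
  have hsinkz : ∀ (x y w : Bool) i, i ≤ k → IsSink E (cyc i) →
      row E z o k p cyc x y w (cyc i) ≠ z (cyc i) := by
    intro x y w i hi hs
    by_cases hik : i = k
    · rw [hik, h.hper] at hs
      exact absurd hs h.h0
    · rw [h.row_sink x y w (by omega) hs]
      exact ho _
  have hpos : ∀ i, i < k → ¬ IsSink E (cyc i) → i = 0 ∨ i = p ∨ p < i := by
    intro i _ hi
    by_contra hcon
    push Not at hcon
    exact hi (h.hbet i (by omega) (by omega))
  by_cases hx : x = x2
  · subst hx
    by_cases hy : y = y2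
    · subst hy
      have hw : w = w2 := by
        revert hev hev2
        cases x <;> cases y <;> cases w <;> cases w2 <;> simp
      subst hw
      have hco := mvF_coord E z hm
      left
      constructor
      · funext v
        rcases hco v with ⟨e1, e2⟩ | ⟨e1, e2⟩
        · exact e1.symm
        · exact e2.symm
      · funext v
        rcases hco v with ⟨e1, e2⟩ | ⟨e1, e2⟩
        · exact e2.symm
        · exact e1.symm
    · have hw : w ≠ w2 := by
        revert hev hev2 hy
        cases x <;> cases y <;> cases y2 <;> cases w <;> cases w2 <;> simp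
      refine h.window hm p (k - 1) (by omega) h.hpn ?_ ?_ ?_
      · intro i h1 h2 h3
        rcases Nat.lt_or_ge p i with h4 | h4
        · rw [h.row_nonsink x y w h4 (by omega) h3, h.row_nonsink x y2 w2 h4 (by omega) h3]
          exact hbb _ _ _ hw
        · have h5 : i = p := by omega
          rw [h5, h.row_p, h.row_p]
          exact hbb _ _ _ hy
      · intro v hv
        refine h.row_congr v (fun _ => rfl) (fun h' => ?_) (fun i h1 h2 h3 h4 => ?_)
        · exact absurd h' (hv p le_rfl (by omega) h.hpn)
        · exact absurd h3 (hv i (by omega) (by omega) (h3 ▸ h4))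
      · intro i h1 h2 h3
        exact ⟨hsinkz _ _ _ i (by omega) h3, hsinkz _ _ _ i (by omega) h3⟩
  · by_cases hy : y = y2
    · subst hy
      have hw : w ≠ w2 := by
        revert hev hev2 hx
        cases x <;> cases x2 <;> cases y <;> cases w <;> cases w2 <;> simp
      -- the window starts at the first non-sink after `p`
      obtain ⟨lo, hlo1, hlo2, hlo3⟩ : ∃ lo, p < lo ∧ lo < k ∧ ¬ IsSink E (cyc lo) ∧
          (∀ i, p < i → i < lo → IsSink E (cyc i)) := by
        classical
        have hex : ∃ i, p < i ∧ i < k ∧ ¬ IsSink E (cyc i) := ⟨q, hpq, hqk, h.hqn⟩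
        obtain ⟨h1, h2, h3⟩ := Nat.find_spec hex
        refine ⟨Nat.find hex, h1, h2, h3, fun i h4 h5 => ?_⟩
        by_contra h6
        exact Nat.find_min hex h5 ⟨h4, by omega, h6⟩
      refine h.window hm lo k le_rfl hlo3.1 ?_ ?_ ?_
      · intro i h1 h2 h3
        rcases Nat.lt_or_ge i k with h4 | h4
        · rw [h.row_nonsink x y w (by omega) h4 h3, h.row_nonsink x2 y w2 (by omega) h4 h3]
          exact hbb _ _ _ hw
        · have h5 : i = k := by omega
          rw [h5, h.hper, CycData.row_zero, CycData.row_zero]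
          exact hbb _ _ _ hx
      · intro v hv
        refine h.row_congr v (fun h' => ?_) (fun _ => rfl) (fun i h1 h2 h3 h4 => ?_)
        · rw [← h.hper] at h'
          exact absurd h' (hv k (by omega) le_rfl (by rw [h.hper]; exact h.h0))
        · rcases Nat.lt_or_ge i lo with h5 | h5
          · exact absurd (hlo3.2 i h1 h5) (h3 ▸ h4)
          · exact absurd h3 (hv i h5 (by omega) (h3 ▸ h4))
      · intro i h1 h2 h3
        exact ⟨hsinkz _ _ _ i (by omega) h3, hsinkz _ _ _ i (by omega) h3⟩
    · have hw : w = w2 := by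
        revert hev hev2 hx hy
        cases x <;> cases x2 <;> cases y <;> cases y2 <;> cases w <;> cases w2 <;> simp
      subst hw
      refine h.window hm 0 p (by omega) h.h0 ?_ ?_ ?_
      · intro i h1 h2 h3
        rcases hpos i (by omega) h3 with h4 | h4 | h4
        · rw [h4, CycData.row_zero, CycData.row_zero]
          exact hbb _ _ _ hx
        · rw [h4, h.row_p, h.row_p]
          exact hbb _ _ _ hy
        · omega
      · intro v hv
        refine h.row_congr v (fun h' => ?_) (fun h' => ?_) (fun _ _ _ _ _ => rfl)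
        · exact absurd h' (hv 0 le_rfl (by omega) h.h0)
        · exact absurd h' (hv p (by omega) le_rfl h.hpn)
      · intro i h1 h2 h3
        exact ⟨hsinkz _ _ _ i (by omega) h3, hsinkz _ _ _ i (by omega) h3⟩

end Pool.Agent.Helper15
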