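import Pool.Agent.Helper15.Alg7

/-!
# A bad induced cycle forces a non-quadratic generator: algebra
-/

set_option linter.unusedSectionVars false
set_option linter.unusedSimpArgs false

namespace Pool.Agent.Helper15

open MvPolynomial Relation

/-- A surjective endomorphism of a Noetherian ring is injective. -/
theorem injective_of_surjective_end {R : Type*} [CommRing R] [IsNoetherianRing R]
    (f : R →+* R) (hf : Function.Surjective f) : Function.Injective f := by
  have hsurj : ∀ n : ℕ, Function.Surjective (f ^ n) := by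
    intro n
    induction n with
    | zero => intro x; exact ⟨x, by simp⟩
    | succ n ih =>
      intro x
      obtain ⟨y, hy⟩ := hf x
      obtain ⟨w, hw⟩ := ih y
      refine ⟨w, ?_⟩
      rw [pow_succ', RingHom.mul_def, RingHom.comp_apply, hw, hy]
  let K : ℕ →o Submodule R R := ⟨fun n => RingHom.ker (f ^ n), by
    refine monotone_nat_of_le_succ fun n x hx => ?_
    have hx' : (f ^ n) x = 0 := hx
    change (f ^ (n + 1)) x = 0
    rw [pow_succ', RingHom.mul_def, RingHom.comp_apply, hx', map_zero]⟩
  obtain ⟨n, hn⟩ := monotone_stabilizes_iff_noetherian.2 (inferInstance : IsNoetherian R R) K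
  rw [injective_iff_map_eq_zero]
  intro x hx
  obtain ⟨y, hy⟩ := hsurj n x
  have h1 : y ∈ K (n + 1) := by
    change (f ^ (n + 1)) y = 0
    rw [pow_succ', RingHom.mul_def, RingHom.comp_apply, hy, hx]
  rw [← hn (n + 1) (Nat.le_succ n)] at h1
  have h2 : (f ^ n) y = 0 := h1
  rw [← hy, h2]

theorem pair_eq {β : Type*} {a b c d : β} (h : ({a, b} : Multiset β) = {c, d}) :
    (a = c ∧ b = d) ∨ (a = d ∧ b = c) := by
  have h' : a ::ₘ {b} = c ::ₘ {d} := h
  rcases Multiset.cons_eq_cons.1 h' with ⟨h1, h2⟩ | ⟨_, cs, h1, h2⟩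
  · exact Or.inl ⟨h1, Multiset.singleton_inj.1 h2⟩
  · right
    have e1 : b ::ₘ 0 = c ::ₘ cs := h1
    have e2 : d ::ₘ 0 = a ::ₘ cs := h2
    have hc : cs = 0 := by
      have := congrArg Multiset.card e1
      simp only [Multiset.card_cons, Multiset.card_zero] at this
      exact Multiset.card_eq_zero.1 (by omega)
    subst hc
    exact ⟨(Multiset.singleton_inj.1 e2).symm, Multiset.singleton_inj.1 e1⟩

variable {n : ℕ} (E : Fin n → Fin n → Prop) {κ : Fin n → ℕ} (z : ∀ i, Fin (κ i))

theorem mvF_of_fe {u w u' w' : ∀ i, Fin (κ i)} (h : FE E z {u, w} {u', w'}) :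
    MvF z (Clq E) (parents E) (nonsinks E) (sinks E) u w u' w' := by
  constructor
  · intro C hC _
    have h1 := h.1 C hC
    simp only [Multiset.insert_eq_cons, Multiset.map_cons, Multiset.map_singleton] at h1
    exact pair_eq h1
  · intro s hs
    have h1 := h.2 s ((mem_sinks E).1 hs)
    simp only [Multiset.insert_eq_cons, Multiset.map_cons, Multiset.map_singleton] at h1
    exact pair_eq h1

/-- The quadrics in the kernel. -/
def quads : Set (MvPolynomial (∀ i, Fin (κ i)) ℝ) :=
  {q | q.IsHomogeneous 2 ∧ paramMap E κ (psi z (sinks E) q) = 0}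

theorem exists_marginal_preimage (A B C : Finset (Fin n)) (a b c : ∀ i, Fin (κ i)) :
    ∃ L : MvPolynomial (∀ i, Fin (κ i)) ℝ, L.IsHomogeneous 1 ∧
      psi z (sinks E) L = marginal κ A B C a b c := by
  classical
  have h1 : ∀ w : ∀ i, Fin (κ i), ∃ L : MvPolynomial (∀ i, Fin (κ i)) ℝ, L.IsHomogeneous 1 ∧
      psi z (sinks E) L = X w := by
    intro w
    obtain ⟨L, hL, hL2⟩ := exists_linear_preimage z (sinks E) w
    refine ⟨L, ?_, hL2⟩
    have h2 : Submodule.span ℝ (Set.range (X : (∀ i, Fin (κ i)) → MvPolynomial _ ℝ)) ≤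
        homogeneousSubmodule (∀ i, Fin (κ i)) ℝ 1 := by
      rw [Submodule.span_le]
      rintro _ ⟨w, rfl⟩
      exact isHomogeneous_X ℝ w
    exact h2 hL
  choose L hL hL2 using h1
  refine ⟨∑ u ∈ Finset.univ.filter (fun u : ∀ i, Fin (κ i) =>
      (∀ i ∈ A, u i = a i) ∧ (∀ i ∈ B, u i = b i) ∧ (∀ i ∈ C, u i = c i)), L u, ?_, ?_⟩
  · exact IsHomogeneous.sum _ _ _ fun u _ => hL u
  · rw [marginal_eq_sum_filter, map_sum]
    exact Finset.sum_congr rfl fun u _ => hL2 u

theorem global_le_map
    (hperf : ∀ i, ¬ IsSink E i → ∀ a b, E a i → E b i → a ≠ b → E a b ∨ E b a) :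
    globalIdeal E κ ≤ Ideal.map (psi z (sinks E)) (Ideal.span (quads E z)) := by
  have hle := global_le_prime (κ := κ) E hperf
  have h0 : ∀ f ∈ {f | ∃ A B C : Finset (Fin n), Disjoint A B ∧ Disjoint A C ∧ Disjoint B C ∧
    A.Nonempty ∧ B.Nonempty ∧ IsSeparated E A B C ∧
    ∃ a a' b b' c : ∀ i, Fin (κ i),
      f = marginal κ A B C a b c * marginal κ A B C a' b' c -
        marginal κ A B C a' b c * marginal κ A B C a b' c},
      f ∈ Ideal.map (psi z (sinks E)) (Ideal.span (quads E z)) := by
    intro f hf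
    have hf2 : f ∈ primeIdeal E κ := hle (Ideal.subset_span hf)
    obtain ⟨A, B, C, _, _, _, _, _, _, a, a', b, b', c, rfl⟩ := hf
    obtain ⟨L1, h1, e1⟩ := exists_marginal_preimage E z A B C a b c
    obtain ⟨L2, h2, e2⟩ := exists_marginal_preimage E z A B C a' b' c
    obtain ⟨L3, h3, e3⟩ := exists_marginal_preimage E z A B C a' b c
    obtain ⟨L4, h4, e4⟩ := exists_marginal_preimage E z A B C a b' c
    rw [← e1, ← e2, ← e3, ← e4, ← map_mul, ← map_mul, ← map_sub] at hf2 ⊢
    exact Ideal.mem_map_of_mem _ (Ideal.subset_span ⟨(h1.mul h2).sub (h3.mul h4), hf2⟩)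
  unfold globalIdeal
  rw [Ideal.span_le]
  exact h0

variable {E z} {o : ∀ i, Fin (κ i)} {k p q : ℕ} {cyc : ℕ → Fin n}

theorem mem_Te {r : ∀ i, Fin (κ i)} (hr : r ∈ Te E z o k p cyc) :
    ∃ x y w, xor x (xor y w) = false ∧ r = row E z o k p cyc x y w := by
  unfold Te at hr
  simp only [Multiset.mem_cons, Multiset.mem_singleton] at hr
  rcases hr with rfl | rfl | rfl | rfl
  · exact ⟨_, _, _, rfl, rfl⟩
  · exact ⟨_, _, _, rfl, rfl⟩
  · exact ⟨_, _, _, rfl, rfl⟩
  · exact ⟨_, _, _, rfl, rfl⟩

theorem CycData.Te_ne_To (h : CycData E k p q cyc) (ho : ∀ i, o i ≠ z i) :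
    Te E z o k p cyc ≠ To E z o k p cyc := by
  intro heq
  have h1 : row E z o k p cyc false false false ∈ To E z o k p cyc := by
    rw [← heq]; unfold Te; simp
  unfold To at h1
  simp only [Multiset.mem_cons, Multiset.mem_singleton] at h1
  rcases h1 with h1 | h1 | h1 | h1
  · have := congrFun h1 (cyc 0)
    rw [CycData.row_zero, CycData.row_zero] at this
    exact ho _ (by simpa using this.symm)
  · have := congrFun h1 (cyc 0)
    rw [CycData.row_zero, CycData.row_zero] at this
    exact ho _ (by simpa using this.symm)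
  · have := congrFun h1 (cyc p)
    rw [h.row_p, h.row_p] at this
    exact ho _ (by simpa using this.symm)
  · have := congrFun h1 (cyc q)
    rw [h.row_nonsink _ _ _ h.hpq h.hqk h.hqn, h.row_nonsink _ _ _ h.hpq h.hqk h.hqn] at this
    exact ho _ (by simpa using this.symm)

/-- A bad cycle gives an element of the prime ideal outside the global Markov ideal. -/
theorem CycData.not_le (h : CycData E k p q cyc) (ho : ∀ i, o i ≠ z i) (hn : 0 < n)
    (hacyc : ∀ i, ¬ TransGen E i i)
    (hperf : ∀ i, ¬ IsSink E i → ∀ a b, E a i → E b i → a ≠ b → E a b ∨ E b a) :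
    ¬ primeIdeal E κ ≤ globalIdeal E κ := by
  classical
  intro hle
  have hfe : FE E z (Te E z o k p cyc) (To E z o k p cyc) := h.fe
  have himg := image_eq_of_fe E z hperf hfe
  have h1 : psi z (sinks E) (mm (Te E z o k p cyc) - mm (To E z o k p cyc)) ∈
      Ideal.map (psi z (sinks E)) (Ideal.span (quads E z)) := by
    refine global_le_map E z hperf (hle ?_)
    change paramMap E κ _ = 0
    rw [map_sub, map_sub, himg, sub_self]
  rw [Ideal.mem_map_iff_of_surjective _ (psi_surjective z (sinks E))] at h1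
  obtain ⟨g, hg, hg2⟩ := h1
  have hinj : Function.Injective (psi z (sinks E)) :=
    injective_of_surjective_end ((psi z (sinks E) : MvPolynomial (∀ i, Fin (κ i)) ℝ →ₐ[ℝ]
      MvPolynomial (∀ i, Fin (κ i)) ℝ) : MvPolynomial (∀ i, Fin (κ i)) ℝ →+*
      MvPolynomial (∀ i, Fin (κ i)) ℝ) (psi_surjective z (sinks E))
  have hgeq := hinj hg2
  obtain ⟨D, hD⟩ : ∃ D, D = Multiset.toFinsupp (Te E z o k p cyc) := ⟨_, rfl⟩
  have hDm : Finsupp.toMultiset D = Te E z o k p cyc := by
    rw [hD, Multiset.toFinsupp_toMultiset]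
  -- the coefficient of the even monomial vanishes on the ideal of quadrics
  have hzero : ∀ g ∈ Ideal.span (quads E z), ∀ r : MvPolynomial (∀ i, Fin (κ i)) ℝ,
      coeff D (r * g) = 0 := by
    intro g hg
    refine Submodule.span_induction (p := fun g _ => ∀ r : MvPolynomial (∀ i, Fin (κ i)) ℝ,
      coeff D (r * g) = 0) ?_ ?_ ?_ ?_ hg
    · intro f hf r
      rw [coeff_mul]
      refine Finset.sum_eq_zero fun x hx => ?_
      have hx' : x.1 + x.2 = D := Finset.HasAntidiagonal.mem_antidiagonal.1 hx
      have hcoef : coeff x.2 f = 0 := by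
        by_contra hne
        have hdeg : Finsupp.degree x.2 = 2 := by
          by_contra hd
          exact hne (hf.1.coeff_eq_zero hd)
        have hcardm : ∀ d : (∀ i, Fin (κ i)) →₀ ℕ,
            Multiset.card (Finsupp.toMultiset d) = Finsupp.degree d := by
          intro d
          rw [Finsupp.card_toMultiset]
          rfl
        obtain ⟨u, u2, huu⟩ := Multiset.card_eq_two.1 ((hcardm x.2).trans hdeg)
        have hmem : ∀ r ∈ Finsupp.toMultiset x.2, r ∈ Te E z o k p cyc := by
          intro r hr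
          rw [← hDm, ← hx', map_add]
          exact Multiset.mem_add.2 (Or.inr hr)
        have hsum := kernel_sum E z hn hacyc hperf f hf.2 _
          (mu E z (Finsupp.toMultiset x.2)) rfl
        have hfilter : f.support.filter (fun d => mu E z (Finsupp.toMultiset d) =
            mu E z (Finsupp.toMultiset x.2)) = {x.2} := by
          ext d
          simp only [Finset.mem_filter, Finset.mem_singleton]
          constructor
          · rintro ⟨hd1, hd2⟩
            have hdd : Finsupp.degree d = 2 := by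
              by_contra hd
              exact (mem_support_iff.1 hd1) (hf.1.coeff_eq_zero hd)
            obtain ⟨v, v2, hvv⟩ := Multiset.card_eq_two.1 ((hcardm d).trans hdd)
            have hfe2 := fe_of_mu E z hn hacyc hperf hd2
            have hfe3 : FE E z {u, u2} {v, v2} := by
              rw [← huu, ← hvv]
              exact ⟨fun C hC => (hfe2.1 C hC).symm, fun s hs => (hfe2.2 s hs).symm⟩
            have hmv := mvF_of_fe E z hfe3
            obtain ⟨a1, a2, a3, ha, rfl⟩ := mem_Te (hmem u (by rw [huu]; simp))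
            obtain ⟨b1, b2, b3, hb, rfl⟩ := mem_Te (hmem u2 (by rw [huu]; simp))
            have hvu : Finsupp.toMultiset d = Finsupp.toMultiset x.2 := by
              rw [hvv, huu]
              rcases h.rigid ho ha hb hmv with ⟨e1, e2⟩ | ⟨e1, e2⟩
              · rw [e1, e2]
              · rw [e1, e2, Multiset.pair_comm]
            have := congrArg Multiset.toFinsupp hvu
            rwa [Finsupp.toMultiset_toFinsupp, Finsupp.toMultiset_toFinsupp] at this
          · intro hd
            rw [hd]
            exact ⟨mem_support_iff.2 hne, rfl⟩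
        rw [hfilter, Finset.sum_singleton] at hsum
        exact hne hsum
      rw [hcoef, mul_zero]
    · intro r; rw [mul_zero, coeff_zero]
    · intro f f' _ _ h1 h2 r
      rw [mul_add, coeff_add, h1, h2, add_zero]
    · intro a f _ h1 r
      rw [smul_eq_mul, ← mul_assoc]
      exact h1 _
  have h2 := hzero g hg 1
  rw [one_mul, hgeq, coeff_sub, ← hDm, mm_toMultiset, coeff_monomial, if_pos rfl] at h2
  have h3 : (mm (To E z o k p cyc) : MvPolynomial (∀ i, Fin (κ i)) ℝ) =
      monomial (Multiset.toFinsupp (To E z o k p cyc)) 1 := by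
    rw [← mm_toMultiset, Multiset.toFinsupp_toMultiset]
  rw [h3, coeff_monomial, if_neg, sub_zero] at h2
  · exact one_ne_zero h2
  · intro h4
    rw [hD] at h4
    have := congrArg Finsupp.toMultiset h4
    rw [Multiset.toFinsupp_toMultiset, Multiset.toFinsupp_toMultiset] at this
    exact h.Te_ne_To ho this.symm

end Pool.Agent.Helper15
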