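import Mathlib

/-!
# Bayesian networks: the prime ideal and the ideal of the global Markov property

The network is given by a relation `E` on `Fin n` (`E i j` : there is an arrow `i → j`) and the
numbers `κ i` of states of the vertices.
-/

namespace Pool.Agent.Helper15

open MvPolynomial

variable {n : ℕ} (E : Fin n → Fin n → Prop) (κ : Fin n → ℕ)

/-- Indices of the parameters `θ(X_j = a | b)`: a vertex `j`, a state `a` of `j` and a state `b` of
its parents. -/
abbrev Param := Σ j : Fin n, Fin (κ j) × (∀ i : {i : Fin n // E i j}, Fin (κ i))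

/-- The relations `∑_a θ(X_j = a | b) - z`; the variable `z` is `X none`. -/
noncomputable def relations : Ideal (MvPolynomial (Option (Param E κ)) ℝ) :=
  Ideal.span {f | ∃ (j : Fin n) (b : ∀ i : {i : Fin n // E i j}, Fin (κ i)),
    f = (∑ a : Fin (κ j), X (some ⟨j, a, b⟩)) - X none}

/-- The map `x_u ↦ ∏_j θ(X_j = u_j | u_{Pa(j)})`. -/
noncomputable def paramMap :
    MvPolynomial (∀ i, Fin (κ i)) ℝ →ₐ[ℝ] MvPolynomial (Option (Param E κ)) ℝ ⧸ relations E κ :=
  aeval fun u => ∏ j, Ideal.Quotient.mk (relations E κ) (X (some ⟨j, u j, fun i => u i⟩))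

/-- The prime ideal `P_G`. -/
noncomputable def primeIdeal : Ideal (MvPolynomial (∀ i, Fin (κ i)) ℝ) :=
  RingHom.ker (paramMap E κ)

/-- `x_{abc}`: the sum of all `x_u` with `u` agreeing with `a`, `b`, `c` on `A`, `B`, `C`. -/
noncomputable def marginal (A B C : Finset (Fin n)) (a b c : ∀ i, Fin (κ i)) :
    MvPolynomial (∀ i, Fin (κ i)) ℝ :=
  ∑ u : {u : ∀ i, Fin (κ i) //
    (∀ i ∈ A, u i = a i) ∧ (∀ i ∈ B, u i = b i) ∧ (∀ i ∈ C, u i = c i)}, X u.1

/-- `p 0, …, p m` is a trail: a path ignoring the directions of the arrows. -/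
def IsTrail (m : ℕ) (p : ℕ → Fin n) : Prop :=
  (∀ i ≤ m, ∀ j ≤ m, p i = p j → i = j) ∧ ∀ i < m, E (p i) (p (i + 1)) ∨ E (p (i + 1)) (p i)

/-- The trail `p 0, …, p m` is blocked by `C`: some inner vertex is either not a collider and in
`C`, or a collider such that neither it nor any of its descendants is in `C`. -/
def IsBlocked (C : Finset (Fin n)) (m : ℕ) (p : ℕ → Fin n) : Prop :=
  ∃ i, i + 2 ≤ m ∧
    ((p (i + 1) ∈ C ∧ ¬ (E (p i) (p (i + 1)) ∧ E (p (i + 2)) (p (i + 1)))) ∨
      ((E (p i) (p (i + 1)) ∧ E (p (i + 2)) (p (i + 1))) ∧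
        ∀ j, Relation.ReflTransGen E (p (i + 1)) j → j ∉ C))

/-- `A ⊥ B | C` holds in the network. -/
def IsSeparated (A B C : Finset (Fin n)) : Prop :=
  ∀ (m : ℕ) (p : ℕ → Fin n), IsTrail E m p → p 0 ∈ A → p m ∈ B → IsBlocked E C m p

/-- The ideal `I_global(G)`. -/
noncomputable def globalIdeal : Ideal (MvPolynomial (∀ i, Fin (κ i)) ℝ) :=
  Ideal.span {f | ∃ A B C : Finset (Fin n), Disjoint A B ∧ Disjoint A C ∧ Disjoint B C ∧
    A.Nonempty ∧ B.Nonempty ∧ IsSeparated E A B C ∧
    ∃ a a' b b' c : ∀ i, Fin (κ i),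
      f = marginal κ A B C a b c * marginal κ A B C a' b' c -
        marginal κ A B C a' b c * marginal κ A B C a b' c}

/-- A sink: a vertex without children. -/
def IsSink (i : Fin n) : Prop := ∀ j, ¬ E i j

end Pool.Agent.Helper15
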