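import Mathlib

/-!
# Labelled multisets

Auxiliary combinatorics for `MP_68dd99_ag`: passing between lower bounds on marginals of a multiset
of rows and exact labellings of its rows by a chain of labels.
-/

set_option linter.unusedSectionVars false
set_option linter.unusedSimpArgs false

namespace Pool.Agent.Helper15

open Relation

section Basic

theorem exists_sub_of_le_map {ρ τ : Type*} (f : ρ → τ) :
    ∀ (σ : Multiset τ) (T : Multiset ρ), σ ≤ T.map f →
      ∃ T1 T2, T = T1 + T2 ∧ T1.map f = σ := by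
  intro σ
  induction σ using Multiset.induction_on with
  | empty => intro T _; exact ⟨0, T, by simp, by simp⟩
  | cons a σ ih =>
    intro T h
    have ha : a ∈ T.map f := Multiset.mem_of_le h (Multiset.mem_cons_self a σ)
    obtain ⟨x, hx, rfl⟩ := Multiset.mem_map.1 ha
    obtain ⟨T', rfl⟩ := Multiset.exists_cons_of_mem hx
    rw [Multiset.map_cons, Multiset.cons_le_cons_iff] at h
    obtain ⟨T1, T2, rfl, h2⟩ := ih T' h
    exact ⟨x ::ₘ T1, T2, by simp, by simp [h2]⟩

end Basic

section Conv

variable {ρ ι : Type*} [DecidableEq ρ] [DecidableEq ι] (b : ι → ρ → ρ)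

/-- The label feature of a labelled row. -/
def lf (p : ρ × Option ι) : Option (ι × ρ) := p.2.map fun c => (c, b c p.1)

/-- The multiset of `b t`-values of the rows with label `t`. -/
def lab (L : Multiset (ρ × Option ι)) (t : ι) : Multiset ρ :=
  (L.filter fun p => p.2 = some t).map fun p => b t p.1

/-- The bounds that remain after reserving rows for `s`. -/
def red (σ : ι → Multiset ρ) (s : ι) : ι → Multiset ρ := fun t => σ t - (σ s).map (b t)

/-- The exact numbers of labelled rows of a greedy labelling. -/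
def rho : List ι → (ι → Multiset ρ) → ι → Multiset ρ
  | [], _, _ => 0
  | s :: l, σ, t => if t = s then σ s else rho l (red b σ s) t

/-- `l` is a chain of labels, from the finest to the coarsest. -/
def IsChainL (l : List ι) : Prop := l.Pairwise fun s t => ∀ x, b t (b s x) = b t x

variable {b}

@[simp] theorem lab_zero (t : ι) : lab b (0 : Multiset (ρ × Option ι)) t = 0 := rfl

theorem lab_add (L M : Multiset (ρ × Option ι)) (t : ι) :
    lab b (L + M) t = lab b L t + lab b M t := by
  simp [lab, Multiset.filter_add]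

theorem lab_cons (p : ρ × Option ι) (M : Multiset (ρ × Option ι)) (t : ι) :
    lab b (p ::ₘ M) t = (if p.2 = some t then {b t p.1} else 0) + lab b M t := by
  unfold lab
  by_cases h : p.2 = some t
  · rw [Multiset.filter_cons_of_pos (p := fun p : ρ × Option ι => p.2 = some t) _ h]
    simp [h]
  · rw [Multiset.filter_cons_of_neg (p := fun p : ρ × Option ι => p.2 = some t) _ h]
    simp [h]

theorem lab_eq_zero_iff (L : Multiset (ρ × Option ι)) (t : ι) :
    lab b L t = 0 ↔ ∀ p ∈ L, p.2 ≠ some t := by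
  unfold lab
  rw [Multiset.map_eq_zero, Multiset.filter_eq_nil]

theorem mem_lab {L : Multiset (ρ × Option ι)} {t : ι} {y : ρ} :
    y ∈ lab b L t ↔ ∃ x, (x, some t) ∈ L ∧ b t x = y := by
  unfold lab
  simp only [Multiset.mem_map, Multiset.mem_filter, Prod.exists]
  constructor
  · rintro ⟨x, o, ⟨h1, h2⟩, h3⟩
    subst h2
    exact ⟨x, h1, h3⟩
  · rintro ⟨x, h1, h2⟩
    exact ⟨x, some t, ⟨h1, rfl⟩, h2⟩

theorem lab_map_const (T : Multiset ρ) (s t : ι) :
    lab b (T.map fun x => (x, some s)) t = if t = s then T.map (b t) else 0 := by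
  unfold lab
  by_cases h : t = s
  · subst h
    simp [Multiset.filter_map, Function.comp_def]
  · have : (s = t) = False := by
      apply eq_false
      exact fun h' => h h'.symm
    simp [Multiset.filter_map, Function.comp_def, h, this]

theorem lab_map_none (T : Multiset ρ) (t : ι) :
    lab b (T.map fun x => (x, (none : Option ι))) t = 0 := by
  rw [lab_eq_zero_iff]
  intro p hp
  obtain ⟨x, _, rfl⟩ := Multiset.mem_map.1 hp
  simp

theorem rho_nil (σ : ι → Multiset ρ) (t : ι) : rho b [] σ t = 0 := rfl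

theorem rho_cons (s : ι) (l : List ι) (σ : ι → Multiset ρ) (t : ι) :
    rho b (s :: l) σ t = if t = s then σ s else rho b l (red b σ s) t := rfl

theorem rho_of_not_mem (l : List ι) (σ : ι → Multiset ρ) (t : ι) (h : t ∉ l) :
    rho b l σ t = 0 := by
  induction l generalizing σ with
  | nil => rfl
  | cons s l ih =>
    rw [List.mem_cons, not_or] at h
    rw [rho_cons, if_neg h.1]
    exact ih _ h.2

theorem rho_congr (l : List ι) (σ σ' : ι → Multiset ρ) (h : ∀ t ∈ l, σ t = σ' t) (t : ι) :
    rho b l σ t = rho b l σ' t := by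
  induction l generalizing σ σ' with
  | nil => rfl
  | cons s l ih =>
    rw [rho_cons, rho_cons]
    have hs := h s (by simp)
    rw [hs]
    congr 1
    refine ih _ _ ?_
    intro t' ht'
    simp only [red]
    rw [hs, h t' (by simp [ht'])]

/-- Existence of a greedy labelling. -/
theorem exists_labelling (l : List ι) (hl : IsChainL b l) (hnd : l.Nodup) :
    ∀ (σ : ι → Multiset ρ) (T : Multiset ρ), (∀ t ∈ l, σ t ≤ T.map (b t)) →
      ∃ L : Multiset (ρ × Option ι), L.map Prod.fst = T ∧ ∀ t, lab b L t = rho b l σ t := by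
  induction l with
  | nil =>
    intro σ T _
    refine ⟨T.map fun x => (x, none), by simp [Function.comp_def], fun t => ?_⟩
    rw [lab_map_none, rho_nil]
  | cons s l ih =>
    intro σ T h
    obtain ⟨T1, T2, rfl, h1⟩ := exists_sub_of_le_map (b s) (σ s) T (h s (by simp))
    have hl' := (List.pairwise_cons.1 hl)
    obtain ⟨hs, hnd'⟩ := List.nodup_cons.1 hnd
    obtain ⟨L, hL1, hL2⟩ := ih hl'.2 hnd' (red b σ s) T2 (by
      intro t ht
      have h3 := h t (by simp [ht])
      rw [Multiset.map_add] at h3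
      have h4 : T1.map (b t) = (σ s).map (b t) := by
        rw [← h1, Multiset.map_map]
        refine Multiset.map_congr rfl fun x _ => ?_
        exact (hl'.1 t ht x).symm
      rw [h4] at h3
      exact tsub_le_iff_left.2 h3)
    refine ⟨T1.map (fun x => (x, some s)) + L, ?_, fun t => ?_⟩
    · rw [Multiset.map_add, hL1]; simp [Function.comp_def]
    · rw [lab_add, lab_map_const, rho_cons, hL2]
      by_cases h5 : t = s
      · subst h5
        simp [h1, rho_of_not_mem l _ t hs]
      · simp [h5]

/-- Converse: a labelling with the right numbers witnesses the lower bounds. -/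
theorem bounds_of_lab (l : List ι) (hl : IsChainL b l) (hnd : l.Nodup)
    :
    ∀ (σ : ι → Multiset ρ) (L : Multiset (ρ × Option ι)), (∀ t ∈ l, lab b L t = rho b l σ t) →
      ∀ t ∈ l, σ t ≤ (L.map Prod.fst).map (b t) := by
  induction l with
  | nil => intro σ L _ t ht; simp at ht
  | cons s l ih =>
    intro σ L h t ht
    have hl' := (List.pairwise_cons.1 hl)
    obtain ⟨hs, hnd'⟩ := List.nodup_cons.1 hnd
    have hsplit : L = L.filter (fun p => p.2 = some s) + L.filter (fun p => ¬ p.2 = some s) :=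
      (Multiset.filter_add_not _ _).symm
    have h0 : lab b L s = σ s := by
      rw [h s (by simp), rho_cons, if_pos rfl]
    have h1 : ((L.filter fun p => p.2 = some s).map Prod.fst).map (b s) = σ s := by
      rw [← h0]; simp [lab, Multiset.map_map, Function.comp_def]
    rw [hsplit, Multiset.map_add, Multiset.map_add]
    rcases List.mem_cons.1 ht with rfl | ht'
    · rw [h1]; exact Multiset.le_add_right _ _
    · have h2 : ((L.filter fun p => p.2 = some s).map Prod.fst).map (b t)
          = (σ s).map (b t) := by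
        rw [← h1, Multiset.map_map]
        conv_rhs => rw [Multiset.map_map]
        rw [Multiset.map_map]
        refine Multiset.map_congr rfl fun x _ => ?_
        exact (hl'.1 t ht' _).symm
      rw [h2]
      have hne : ∀ t ∈ l, t ≠ s := fun t ht h => hs (h ▸ ht)
      have h3 := ih hl'.2 hnd' (red b σ s) (L.filter fun p => ¬ p.2 = some s) (by
        intro t1 ht1
        have := h t1 (by simp [ht1])
        rw [rho_cons, if_neg (hne t1 ht1)] at this
        rw [← this]
        unfold lab
        rw [Multiset.filter_filter]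
        congr 1
        refine Multiset.filter_congr fun p _ => ?_
        constructor
        · rintro ⟨h, -⟩; exact h
        · intro h
          refine ⟨h, ?_⟩
          rw [h]
          intro h'
          exact hne t1 ht1 (Option.some.inj h')) t ht'
      exact tsub_le_iff_left.1 h3

/-- Bounds that produce prescribed exact numbers. -/
def unred (b : ι → ρ → ρ) : List ι → (ι → Multiset ρ) → ι → Multiset ρ
  | [], _, _ => 0
  | s :: l, E, t => if t = s then E s else unred b l E t + (E s).map (b t)

theorem rho_unred (l : List ι) (hnd : l.Nodup) (E : ι → Multiset ρ) :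
    ∀ t ∈ l, rho b l (unred b l E) t = E t := by
  induction l with
  | nil => intro t ht; simp at ht
  | cons s l ih =>
    obtain ⟨hs, hnd'⟩ := List.nodup_cons.1 hnd
    intro t ht
    rw [rho_cons]
    by_cases h : t = s
    · subst h; simp [unred]
    · rw [if_neg h]
      have ht' : t ∈ l := by
        rcases List.mem_cons.1 ht with h' | h'
        · exact absurd h' h
        · exact h'
      rw [← ih hnd' t ht']
      refine rho_congr l _ _ ?_ t
      intro t' ht'
      have hne : t' ≠ s := fun h => hs (h ▸ ht')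
      simp [red, unred, hne]

/-- Exchange of the labels of two rows. -/
def LSwap (b : ι → ρ → ρ) (L L' : Multiset (ρ × Option ι)) : Prop :=
  ∃ u w ℓ m R, L = (u, ℓ) ::ₘ (w, m) ::ₘ R ∧ L' = (u, m) ::ₘ (w, ℓ) ::ₘ R ∧
    (∀ c, ℓ = some c → b c u = b c w) ∧ (∀ c, m = some c → b c u = b c w)

theorem LSwap.cons {L L' : Multiset (ρ × Option ι)} (h : LSwap b L L') (a : ρ × Option ι) :
    LSwap b (a ::ₘ L) (a ::ₘ L') := by
  obtain ⟨u, w, ℓ, m, R, rfl, rfl, h1, h2⟩ := h
  refine ⟨u, w, ℓ, m, a ::ₘ R, ?_, ?_, h1, h2⟩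
  · rw [Multiset.cons_swap a, Multiset.cons_swap a]
  · rw [Multiset.cons_swap a, Multiset.cons_swap a]

theorem LSwap.map_fst {L L' : Multiset (ρ × Option ι)} (h : LSwap b L L') :
    L.map Prod.fst = L'.map Prod.fst := by
  obtain ⟨u, w, ℓ, m, R, rfl, rfl, h1, h2⟩ := h
  simp

theorem LSwap.lab_eq {L L' : Multiset (ρ × Option ι)} (h : LSwap b L L') (t : ι) :
    lab b L t = lab b L' t := by
  obtain ⟨u, w, ℓ, m, R, rfl, rfl, h1, h2⟩ := h
  rw [lab_cons, lab_cons, lab_cons, lab_cons]
  simp only
  by_cases h3 : ℓ = some t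
  · by_cases h4 : m = some t
    · simp [h3, h4]
    · have := h1 t h3
      simp [h3, h4, this]
  · by_cases h4 : m = some t
    · have := h2 t h4
      simp [h3, h4, this]
    · simp [h3, h4]

theorem exists_top (l : List ι) (hl : IsChainL b l) (hid : ∀ t x, b t (b t x) = b t x)
    (p : ι → Prop) (h : ∃ t ∈ l, p t) :
    ∃ s ∈ l, p s ∧ ∀ t ∈ l, p t → ∀ x, b t (b s x) = b t x := by
  classical
  induction l with
  | nil => obtain ⟨t, ht, _⟩ := h; simp at ht
  | cons a l ih =>
    have hl' := (List.pairwise_cons.1 hl)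
    by_cases ha : p a
    · refine ⟨a, by simp, ha, ?_⟩
      intro t ht _ x
      rcases List.mem_cons.1 ht with rfl | ht
      · exact hid _ _
      · exact hl'.1 t ht x
    · obtain ⟨t, ht, hpt⟩ := h
      have ht' : t ∈ l := by
        rcases List.mem_cons.1 ht with rfl | ht
        · exact absurd hpt ha
        · exact ht
      obtain ⟨s, hs, hps, h2⟩ := ih hl'.2 ⟨t, ht', hpt⟩
      refine ⟨s, by simp [hs], hps, ?_⟩
      intro t ht hpt
      rcases List.mem_cons.1 ht with rfl | ht
      · exact absurd hpt ha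
      · exact h2 t ht hpt

theorem reflTransGen_cons {L L' : Multiset (ρ × Option ι)} (a : ρ × Option ι)
    (h : ReflTransGen (LSwap b) L L') : ReflTransGen (LSwap b) (a ::ₘ L) (a ::ₘ L') :=
  ReflTransGen.lift (r := LSwap b) (p := LSwap b) (fun L => a ::ₘ L)
    (fun _ _ (h : LSwap b _ _) => h.cons a) _ _ h

/-- Two labellings of the same multiset with the same exact numbers are connected by
exchanges of labels. -/
theorem labellings_connected (l : List ι) (hl : IsChainL b l)
    (hid : ∀ t x, b t (b t x) = b t x) :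
    ∀ (n : ℕ) (L L' : Multiset (ρ × Option ι)), L'.card = n →
      L.map Prod.fst = L'.map Prod.fst → (∀ t, lab b L t = lab b L' t) →
      (∀ t, t ∉ l → lab b L' t = 0) → ReflTransGen (LSwap b) L L' := by
  intro n
  induction n with
  | zero =>
    intro L L' hc h1 _ _
    rw [Multiset.card_eq_zero] at hc
    subst hc
    rw [Multiset.map_zero, Multiset.map_eq_zero] at h1
    subst h1
    exact ReflTransGen.refl
  | succ n ih =>
    intro L L' hc h1 h2 h3
    by_cases h4 : ∃ t ∈ l, lab b L' t ≠ 0
    · obtain ⟨s, hs, hps, htop⟩ := exists_top l hl hid _ h4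
      obtain ⟨y, hy⟩ := Multiset.exists_mem_of_ne_zero hps
      obtain ⟨x', hx', rfl⟩ := mem_lab.1 hy
      rw [← h2] at hy
      obtain ⟨x, hx, hxx⟩ := mem_lab.1 hy
      have h5 : x' ∈ L.map Prod.fst := by
        rw [h1]; exact Multiset.mem_map.2 ⟨_, hx', rfl⟩
      obtain ⟨⟨x'', ℓ⟩, h6, h7⟩ := Multiset.mem_map.1 h5
      simp only at h7
      subst h7
      obtain ⟨M', rfl⟩ := Multiset.exists_cons_of_mem hx'
      have hcM : M'.card = n := by simpa using hc
      by_cases h8 : ℓ = some s
      · subst h8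
        obtain ⟨M, rfl⟩ := Multiset.exists_cons_of_mem h6
        refine reflTransGen_cons _ (ih M M' hcM ?_ ?_ ?_)
        · simpa using h1
        · intro t
          have := h2 t
          rw [lab_cons, lab_cons] at this
          exact add_left_cancel this
        · intro t ht
          have := h3 t ht
          rw [lab_cons] at this
          exact (add_eq_zero.1 this).2
      · obtain ⟨M, rfl⟩ := Multiset.exists_cons_of_mem hx
        have h9 : (x'', ℓ) ∈ M := by
          rcases Multiset.mem_cons.1 h6 with h | h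
          · exact absurd (congrArg Prod.snd h) h8
          · exact h
        obtain ⟨M2, rfl⟩ := Multiset.exists_cons_of_mem h9
        have hswap : LSwap b ((x, some s) ::ₘ (x'', ℓ) ::ₘ M2)
            ((x, ℓ) ::ₘ (x'', some s) ::ₘ M2) := by
          refine ⟨x, x'', some s, ℓ, M2, rfl, rfl, ?_, ?_⟩
          · intro c hc
            cases hc
            exact hxx
          · intro c hc
            subst hc
            have h11 : b c x'' ∈ lab b ((x'', some s) ::ₘ M') c := by
              rw [← h2]; exact mem_lab.2 ⟨x'', h6, rfl⟩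
            have h12 : lab b ((x'', some s) ::ₘ M') c ≠ 0 := by
              intro h; rw [h] at h11; simp at h11
            have h13 : c ∈ l := by
              by_contra h; exact h12 (h3 c h)
            have h14 := htop c h13 h12
            rw [← h14 x, ← h14 x'', hxx]
        refine ReflTransGen.head hswap ?_
        rw [Multiset.cons_swap]
        refine reflTransGen_cons _ (ih _ M' hcM ?_ ?_ ?_)
        · have := hswap.map_fst
          rw [this] at h1
          simp only [Multiset.map_cons] at h1 ⊢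
          rw [Multiset.cons_swap] at h1
          exact (Multiset.cons_inj_right _).1 h1
        · intro t
          have := h2 t
          rw [hswap.lab_eq, Multiset.cons_swap, lab_cons] at this
          conv_rhs at this => rw [lab_cons]
          exact add_left_cancel this
        · intro t ht
          have := h3 t ht
          rw [lab_cons] at this
          exact (add_eq_zero.1 this).2
    · have h5 : ∀ t, lab b L' t = 0 := by
        intro t
        by_cases ht : t ∈ l
        · by_contra h; exact h4 ⟨t, ht, h⟩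
        · exact h3 t ht
      have key : ∀ K : Multiset (ρ × Option ι), (∀ t, lab b K t = 0) →
          K = (K.map Prod.fst).map fun x => (x, none) := by
        intro K hK
        rw [Multiset.map_map]
        conv_lhs => rw [← Multiset.map_id K]
        refine Multiset.map_congr rfl fun p hp => ?_
        obtain ⟨x, o⟩ := p
        cases o with
        | none => rfl
        | some t => exact absurd rfl ((lab_eq_zero_iff K t).1 (hK t) _ hp)
      have h6 : L = L' := by
        rw [key L (fun t => (h2 t).trans (h5 t)), key L' h5, h1]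
      rw [h6]

/-- The `b t`-values of two rows are preserved as a multiset. -/
def Pres (b : ι → ρ → ρ) (t : ι) (u w u' w' : ρ) : Prop :=
  (b t u = b t u' ∧ b t w = b t w') ∨ (b t u = b t w' ∧ b t w = b t u')

/-- The `b t`-values of two rows all change. -/
def Chg (b : ι → ρ → ρ) (t : ι) (u w u' w' : ρ) : Prop :=
  b t u ≠ b t u' ∧ b t u ≠ b t w' ∧ b t w ≠ b t u' ∧ b t w ≠ b t w'

/-- Matching of label features. -/
def LMatch (b : ι → ρ → ρ) (p q p' q' : ρ × Option ι) : Prop :=
  (lf b p = lf b p' ∧ lf b q = lf b q') ∨ (lf b p = lf b q' ∧ lf b q = lf b p')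

theorem lab_cons' (p : ρ × Option ι) (M : Multiset (ρ × Option ι)) (t : ι) :
    lab b (p ::ₘ M) t = (match lf b p with
      | none => 0
      | some (c, y) => if c = t then {y} else 0) + lab b M t := by
  rw [lab_cons]
  obtain ⟨x, o⟩ := p
  cases o with
  | none => simp [lf]
  | some c =>
    by_cases h : c = t
    · subst h; simp [lf]
    · simp [lf, h]

theorem LMatch.lab_eq {p q p' q' : ρ × Option ι} (h : LMatch b p q p' q')
    (R : Multiset (ρ × Option ι)) (t : ι) :
    lab b (p ::ₘ q ::ₘ R) t = lab b (p' ::ₘ q' ::ₘ R) t := by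
  rcases h with ⟨h1, h2⟩ | ⟨h1, h2⟩
  · rw [lab_cons', lab_cons', lab_cons', lab_cons', h1, h2]
  · rw [Multiset.cons_swap p', lab_cons', lab_cons', lab_cons', lab_cons', h1, h2]

theorem le_of_disjoint_pairs {τ : Type*} [DecidableEq τ] {a b c d : τ} {σ M : Multiset τ}
    (h1 : σ ≤ a ::ₘ b ::ₘ M) (h2 : σ ≤ c ::ₘ d ::ₘ M) (hac : a ≠ c) (had : a ≠ d)
    (hbc : b ≠ c) (hbd : b ≠ d) : σ ≤ M := by
  rw [Multiset.le_iff_count] at *
  intro x
  have e1 := h1 x
  have e2 := h2 x
  rw [Multiset.count_cons, Multiset.count_cons] at e1 e2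
  by_cases hxa : x = a
  · subst hxa
    rw [if_neg hac, if_neg had] at e2
    omega
  · by_cases hxb : x = b
    · subst hxb
      rw [if_neg hbc, if_neg hbd] at e2
      omega
    · rw [if_neg hxa, if_neg hxb] at e1
      omega

theorem chain_comparable (l : List ι) (hl : IsChainL b l) (hid : ∀ t x, b t (b t x) = b t x)
    (c d : ι) (hc : c ∈ l) (hd : d ∈ l) :
    (∀ x, b d (b c x) = b d x) ∨ (∀ x, b c (b d x) = b c x) := by
  induction l with
  | nil => simp at hc
  | cons a l ih =>
    have hl' := (List.pairwise_cons.1 hl)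
    rcases List.mem_cons.1 hc with rfl | hc'
    · rcases List.mem_cons.1 hd with rfl | hd'
      · exact Or.inl (hid _)
      · exact Or.inl (hl'.1 d hd')
    · rcases List.mem_cons.1 hd with rfl | hd'
      · exact Or.inr (hl'.1 c hc')
      · exact ih hl'.2 hc' hd'

/-- Labels can be carried along a move that preserves the values of all relevant labels. -/
theorem exists_match (l : List ι) (hl : IsChainL b l) (hid : ∀ t x, b t (b t x) = b t x)
    (u w u' w' : ρ) (hp : ∀ t ∈ l, Pres b t u w u' w') (ℓ m : Option ι)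
    (hℓ : ∀ c, ℓ = some c → c ∈ l) (hm : ∀ c, m = some c → c ∈ l) :
    ∃ ℓ' m', LMatch b (u, ℓ) (w, m) (u', ℓ') (w', m') := by
  cases ℓ with
  | none =>
    cases m with
    | none => exact ⟨none, none, Or.inl ⟨rfl, rfl⟩⟩
    | some d =>
      rcases hp d (hm d rfl) with ⟨h1, h2⟩ | ⟨h1, h2⟩
      · exact ⟨none, some d, Or.inl ⟨rfl, by simp [lf, h2]⟩⟩
      · exact ⟨some d, none, Or.inr ⟨rfl, by simp [lf, h2]⟩⟩
  | some c =>
    cases m with
    | none =>
      rcases hp c (hℓ c rfl) with ⟨h1, h2⟩ | ⟨h1, h2⟩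
      · exact ⟨some c, none, Or.inl ⟨by simp [lf, h1], rfl⟩⟩
      · exact ⟨none, some c, Or.inr ⟨by simp [lf, h1], rfl⟩⟩
    | some d =>
      rcases chain_comparable l hl hid c d (hℓ c rfl) (hm d rfl) with hcd | hcd
      · rcases hp c (hℓ c rfl) with ⟨h1, h2⟩ | ⟨h1, h2⟩
        · refine ⟨some c, some d, Or.inl ⟨by simp [lf, h1], ?_⟩⟩
          have : b d w = b d w' := by rw [← hcd, h2, hcd]
          simp [lf, this]
        · refine ⟨some d, some c, Or.inr ⟨by simp [lf, h1], ?_⟩⟩
          have : b d w = b d u' := by rw [← hcd, h2, hcd]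
          simp [lf, this]
      · rcases hp d (hm d rfl) with ⟨h1, h2⟩ | ⟨h1, h2⟩
        · refine ⟨some c, some d, Or.inl ⟨?_, by simp [lf, h2]⟩⟩
          have : b c u = b c u' := by rw [← hcd, h1, hcd]
          simp [lf, this]
        · refine ⟨some d, some c, Or.inr ⟨?_, by simp [lf, h2]⟩⟩
          have : b c u = b c w' := by rw [← hcd, h1, hcd]
          simp [lf, this]

theorem map_eq_cons' {α β : Type*} (f : α → β) (s : Multiset α) (t : Multiset β)
    (y : β) (h : s.map f = y ::ₘ t) : ∃ a s', s = a ::ₘ s' ∧ f a = y ∧ s'.map f = t := by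
  classical
  obtain ⟨a, ha, h1, h2⟩ := (Multiset.map_eq_cons _ _ _ _).2 h
  exact ⟨a, s.erase a, (Multiset.cons_erase ha).symm, h1, h2⟩

/-- A move between two multisets satisfying the bounds lifts to suitable labellings. -/
theorem exists_lift (l : List ι) (hl : IsChainL b l) (hnd : l.Nodup)
    (hid : ∀ t x, b t (b t x) = b t x)
    (u w u' w' : ρ) (hd : ∀ t ∈ l, Pres b t u w u' w' ∨ Chg b t u w u' w') :
    ∀ (σ : ι → Multiset ρ) (R : Multiset ρ),
      (∀ t ∈ l, σ t ≤ (u ::ₘ w ::ₘ R).map (b t)) →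
      (∀ t ∈ l, σ t ≤ (u' ::ₘ w' ::ₘ R).map (b t)) →
      ∃ (K : Multiset (ρ × Option ι)) (ℓ m ℓ' m' : Option ι), K.map Prod.fst = R ∧
        (∀ t, lab b ((u, ℓ) ::ₘ (w, m) ::ₘ K) t = rho b l σ t) ∧
        LMatch b (u, ℓ) (w, m) (u', ℓ') (w', m') := by
  induction l with
  | nil =>
    intro σ R _ _
    refine ⟨R.map fun x => (x, none), none, none, none, none, by simp, ?_, Or.inl ⟨rfl, rfl⟩⟩
    intro t
    rw [lab_cons, lab_cons, lab_map_none]
    simp [rho_nil]
  | cons s l ih =>
    intro σ R h1 h2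
    have hl' := (List.pairwise_cons.1 hl)
    obtain ⟨hs, hnd'⟩ := List.nodup_cons.1 hnd
    rcases hd s (by simp) with hps | hch
    · -- preserved: all labels in the chain are preserved
      have hp : ∀ t ∈ s :: l, Pres b t u w u' w' := by
        intro t ht
        rcases List.mem_cons.1 ht with rfl | ht
        · exact hps
        · rcases hps with ⟨h3, h4⟩ | ⟨h3, h4⟩
          · left
            exact ⟨by rw [← hl'.1 t ht, h3, hl'.1 t ht], by rw [← hl'.1 t ht, h4, hl'.1 t ht]⟩
          · right
            exact ⟨by rw [← hl'.1 t ht, h3, hl'.1 t ht], by rw [← hl'.1 t ht, h4, hl'.1 t ht]⟩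
      obtain ⟨L, hL1, hL2⟩ := exists_labelling (s :: l) hl hnd σ _ h1
      have hmem : ∀ p ∈ L, ∀ c, p.2 = some c → c ∈ s :: l := by
        intro p hp c hc
        by_contra hcl
        have h3 := hL2 c
        rw [rho_of_not_mem _ _ _ hcl, lab_eq_zero_iff] at h3
        exact h3 p hp hc
      obtain ⟨p, L1, rfl, hpu, hL1'⟩ := map_eq_cons' _ _ _ _ hL1
      obtain ⟨q, K, rfl, hqw, hK⟩ := map_eq_cons' _ _ _ _ hL1'
      obtain ⟨u1, ℓ⟩ := p
      obtain ⟨w1, m⟩ := q
      simp only at hpu hqw
      subst hpu hqw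
      obtain ⟨ℓ', m', hM⟩ := exists_match (s :: l) hl hid u1 w1 u' w' hp ℓ m
        (fun c hc => hmem (u1, ℓ) (by simp) c hc) (fun c hc => hmem (w1, m) (by simp) c hc)
      exact ⟨K, ℓ, m, ℓ', m', hK, hL2, hM⟩
    · have h3 : σ s ≤ R.map (b s) := by
        have e1 := h1 s (by simp)
        have e2 := h2 s (by simp)
        rw [Multiset.map_cons, Multiset.map_cons] at e1 e2
        exact le_of_disjoint_pairs e1 e2 hch.1 hch.2.1 hch.2.2.1 hch.2.2.2
      obtain ⟨R1, R2, rfl, hR1⟩ := exists_sub_of_le_map (b s) (σ s) R h3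
      have h4 : ∀ t ∈ l, R1.map (b t) = (σ s).map (b t) := by
        intro t ht
        rw [← hR1, Multiset.map_map]
        refine Multiset.map_congr rfl fun x _ => ?_
        exact (hl'.1 t ht x).symm
      have h5 : ∀ a c : ρ, (∀ t ∈ s :: l, σ t ≤ (a ::ₘ c ::ₘ (R1 + R2)).map (b t)) →
          ∀ t ∈ l, red b σ s t ≤ (a ::ₘ c ::ₘ R2).map (b t) := by
        intro a c h t ht
        have h6 := h t (by simp [ht])
        have h7 : (a ::ₘ c ::ₘ (R1 + R2)).map (b t) =
            (σ s).map (b t) + (a ::ₘ c ::ₘ R2).map (b t) := by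
          rw [← h4 t ht]
          simp only [Multiset.map_cons, Multiset.map_add, Multiset.add_cons]
        rw [h7] at h6
        exact tsub_le_iff_left.2 h6
      obtain ⟨K, ℓ, m, ℓ', m', hK1, hK2, hK3⟩ := ih hl'.2 hnd'
        (fun t ht => hd t (by simp [ht])) (red b σ s) R2 (h5 u w h1) (h5 u' w' h2)
      refine ⟨R1.map (fun x => (x, some s)) + K, ℓ, m, ℓ', m', ?_, ?_, hK3⟩
      · rw [Multiset.map_add, hK1]; simp
      · intro t
        have e : (u, ℓ) ::ₘ (w, m) ::ₘ (R1.map (fun x => (x, some s)) + K) =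
            R1.map (fun x => (x, some s)) + ((u, ℓ) ::ₘ (w, m) ::ₘ K) := by
          simp only [Multiset.add_cons]
        rw [e, lab_add, lab_map_const, hK2, rho_cons]
        by_cases h6 : t = s
        · subst h6
          simp [hR1, rho_of_not_mem l _ t hs]
        · simp [h6]

/-- A move between multisets of rows that satisfy the bounds. -/
def UStep (b : ι → ρ → ρ) (Mv : ρ → ρ → ρ → ρ → Prop) (Good : Multiset ρ → Prop)
    (l : List ι) (σ : ι → Multiset ρ) (T T' : Multiset ρ) : Prop :=
  ∃ u w u' w' R, T = u ::ₘ w ::ₘ R ∧ T' = u' ::ₘ w' ::ₘ R ∧ Mv u w u' w' ∧ Good T ∧ Good T' ∧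
    (∀ t ∈ l, σ t ≤ T.map (b t)) ∧ (∀ t ∈ l, σ t ≤ T'.map (b t))

/-- A move between multisets of labelled rows. -/
def LStep (b : ι → ρ → ρ) (Mv : ρ → ρ → ρ → ρ → Prop) (Good : Multiset ρ → Prop)
    (L L' : Multiset (ρ × Option ι)) : Prop :=
  ∃ u w u' w' ℓ m ℓ' m' K, L = (u, ℓ) ::ₘ (w, m) ::ₘ K ∧ L' = (u', ℓ') ::ₘ (w', m') ::ₘ K ∧
    Mv u w u' w' ∧ LMatch b (u, ℓ) (w, m) (u', ℓ') (w', m') ∧
    Good (L.map Prod.fst) ∧ Good (L'.map Prod.fst)

variable {Mv : ρ → ρ → ρ → ρ → Prop} {Good : Multiset ρ → Prop}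

theorem LStep.lab_eq {L L' : Multiset (ρ × Option ι)} (h : LStep b Mv Good L L') (t : ι) :
    lab b L t = lab b L' t := by
  obtain ⟨u, w, u', w', ℓ, m, ℓ', m', K, rfl, rfl, _, h2, _, _⟩ := h
  exact h2.lab_eq K t

theorem LSwap.lStep (hrefl : ∀ u w, Mv u w u w) {L L' : Multiset (ρ × Option ι)}
    (h : LSwap b L L') (hG : Good (L.map Prod.fst)) : LStep b Mv Good L L' := by
  have h0 := h.map_fst
  obtain ⟨u, w, ℓ, m, K, rfl, rfl, h1, h2⟩ := h
  refine ⟨u, w, u, w, ℓ, m, m, ℓ, K, rfl, rfl, hrefl u w, Or.inr ⟨?_, ?_⟩, hG, h0 ▸ hG⟩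
  · cases ℓ with
    | none => rfl
    | some c => simp [lf, h1 c rfl]
  · cases m with
    | none => rfl
    | some c => simp [lf, h2 c rfl]

theorem lSwaps_lSteps (hrefl : ∀ u w, Mv u w u w) {L L' : Multiset (ρ × Option ι)}
    (h : ReflTransGen (LSwap b) L L') (hG : Good (L.map Prod.fst)) :
    ReflTransGen (LStep b Mv Good) L L' ∧ L.map Prod.fst = L'.map Prod.fst := by
  induction h with
  | refl => exact ⟨ReflTransGen.refl, rfl⟩
  | tail _ h2 ih =>
    exact ⟨ih.1.tail (h2.lStep hrefl (ih.2 ▸ hG)), ih.2.trans h2.map_fst⟩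

/-- From connectivity with bounds to connectivity with labels. -/
theorem conv_LU (l : List ι) (hl : IsChainL b l) (hnd : l.Nodup)
    (hid : ∀ t x, b t (b t x) = b t x)
    (hMv : ∀ u w u' w', Mv u w u' w' → ∀ t ∈ l, Pres b t u w u' w' ∨ Chg b t u w u' w')
    (hrefl : ∀ u w, Mv u w u w) (L L' : Multiset (ρ × Option ι))
    (hU : ∀ σ : ι → Multiset ρ, (∀ t ∈ l, σ t ≤ (L.map Prod.fst).map (b t)) →
      (∀ t ∈ l, σ t ≤ (L'.map Prod.fst).map (b t)) →
      ReflTransGen (UStep b Mv Good l σ) (L.map Prod.fst) (L'.map Prod.fst))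
    (hG : Good (L.map Prod.fst))
    (hlab : ∀ t, lab b L t = lab b L' t) (hl0 : ∀ t, t ∉ l → lab b L t = 0) :
    ReflTransGen (LStep b Mv Good) L L' := by
  obtain ⟨σ, hσ⟩ : ∃ σ, σ = unred b l (lab b L) := ⟨_, rfl⟩
  have hrho : ∀ t, lab b L t = rho b l σ t := by
    intro t
    by_cases ht : t ∈ l
    · rw [hσ, rho_unred l hnd _ t ht]
    · rw [hl0 t ht, rho_of_not_mem l _ t ht]
  have b1 := bounds_of_lab l hl hnd σ L (fun t _ => hrho t)
  have b2 := bounds_of_lab l hl hnd σ L' (fun t _ => (hlab t).symm.trans (hrho t))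
  have hpath := hU σ b1 b2
  have key : ∀ T'', ReflTransGen (UStep b Mv Good l σ) (L.map Prod.fst) T'' →
      ∀ K : Multiset (ρ × Option ι), K.map Prod.fst = T'' → (∀ t, lab b K t = lab b L t) →
        ReflTransGen (LStep b Mv Good) L K := by
    intro T'' hT''
    induction hT'' with
    | refl =>
      intro K hK1 hK2
      exact (lSwaps_lSteps hrefl (labellings_connected l hl hid _ L K rfl hK1.symm
        (fun t => (hK2 t).symm) (fun t ht => (hK2 t).trans (hl0 t ht))) hG).1
    | tail _ h2 ih =>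
      intro K hK1 hK2
      obtain ⟨u, w, u', w', R, rfl, rfl, hm, hg, hg', hb, hb'⟩ := h2
      obtain ⟨K0, ℓ, m, ℓ', m', hK01, hK02, hK03⟩ :=
        exists_lift l hl hnd hid u w u' w' (hMv u w u' w' hm) σ R hb hb'
      subst hK01
      have h3 := ih ((u, ℓ) ::ₘ (w, m) ::ₘ K0) (by simp)
        (fun t => (hK02 t).trans (hrho t).symm)
      have h4 : LStep b Mv Good ((u, ℓ) ::ₘ (w, m) ::ₘ K0) ((u', ℓ') ::ₘ (w', m') ::ₘ K0) := by
        refine ⟨u, w, u', w', ℓ, m, ℓ', m', K0, rfl, rfl, hm, hK03, ?_, ?_⟩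
        · simpa using hg
        · simpa using hg'
      refine (h3.tail h4).trans ?_
      have h5 : ∀ t, lab b ((u', ℓ') ::ₘ (w', m') ::ₘ K0) t = lab b L t := fun t => by
        rw [← h4.lab_eq, hK02, hrho]
      refine (lSwaps_lSteps hrefl (labellings_connected l hl hid _ _ K rfl ?_
        (fun t => (h5 t).trans (hK2 t).symm) (fun t ht => (hK2 t).trans (hl0 t ht))) ?_).1
      · rw [hK1]; simp
      · simpa using hg'
  exact key _ hpath L' rfl (fun t => (hlab t).symm)

/-- From connectivity with labels to connectivity with bounds. -/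
theorem conv_UL (l : List ι) (hl : IsChainL b l) (hnd : l.Nodup) (σ : ι → Multiset ρ)
    (T T' : Multiset ρ)
    (hL : ∀ L L' : Multiset (ρ × Option ι), L.map Prod.fst = T → L'.map Prod.fst = T' →
      (∀ t, lab b L t = lab b L' t) → (∀ t, t ∉ l → lab b L t = 0) →
      ReflTransGen (LStep b Mv Good) L L')
    (hb : ∀ t ∈ l, σ t ≤ T.map (b t)) (hb' : ∀ t ∈ l, σ t ≤ T'.map (b t)) :
    ReflTransGen (UStep b Mv Good l σ) T T' := by
  obtain ⟨L, hL1, hL2⟩ := exists_labelling l hl hnd σ T hb
  obtain ⟨L', hL1', hL2'⟩ := exists_labelling l hl hnd σ T' hb'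
  have hpath := hL L L' hL1 hL1' (fun t => (hL2 t).trans (hL2' t).symm)
    (fun t ht => (hL2 t).trans (rho_of_not_mem l _ t ht))
  have key : ∀ L'', ReflTransGen (LStep b Mv Good) L L'' →
      ReflTransGen (UStep b Mv Good l σ) T (L''.map Prod.fst) ∧
        (∀ t, lab b L'' t = rho b l σ t) := by
    intro L'' h
    induction h with
    | refl => exact ⟨hL1 ▸ ReflTransGen.refl, hL2⟩
    | tail _ h2 ih =>
      have h3 : ∀ t, lab b _ t = rho b l σ t := fun t => (h2.lab_eq t).symm.trans (ih.2 t)
      refine ⟨ih.1.tail ?_, h3⟩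
      have b1 := bounds_of_lab l hl hnd σ _ (fun t _ => ih.2 t)
      have b2 := bounds_of_lab l hl hnd σ _ (fun t _ => h3 t)
      obtain ⟨u, w, u', w', ℓ, m, ℓ', m', K, rfl, rfl, hm, h5, h6, h7⟩ := h2
      exact ⟨u, w, u', w', K.map Prod.fst, by simp, by simp, hm, h6, h7, b1, b2⟩
  have := (key _ hpath).1
  rwa [hL1'] at this

end Conv

end Pool.Agent.Helper15
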