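import Pool.Agent.Helper15.Alg8

/-!
# The characterization
-/

set_option linter.unusedSectionVars false
set_option linter.unusedSimpArgs false

namespace Pool.Agent.Helper15

open MvPolynomial Relation

theorem exists_cycData {n : ℕ} (E : Fin n → Fin n → Prop) {k : ℕ}
    (f : SimpleGraph.cycleGraph k ↪g SimpleGraph.fromRel E) (hk : 3 < k)
    (hbad : ¬ (k = 4 ∧ ∃ i j : Fin k, i ≠ j ∧ IsSink E (f i) ∧ IsSink E (f j))) :
    ∃ (p q : ℕ) (cyc : ℕ → Fin n), CycData E k p q cyc := by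
  have : NeZero k := ⟨by omega⟩
  have hss : ∀ a b, (SimpleGraph.fromRel E).Adj a b → IsSink E a → ¬ IsSink E b := by
    intro a b hab ha hb
    rw [SimpleGraph.fromRel_adj] at hab
    rcases hab.2 with h | h
    · exact ha b h
    · exact hb a h
  have hadj : ∀ (i j : Fin k) (t : Fin k), (SimpleGraph.fromRel E).Adj (f (i + t)) (f (j + t)) ↔
      (SimpleGraph.cycleGraph k).Adj i j := by
    intro i j t
    rw [f.map_adj_iff, SimpleGraph.cycleGraph_adj', SimpleGraph.cycleGraph_adj',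
      add_sub_add_right_eq_sub, add_sub_add_right_eq_sub]
  obtain ⟨t, ht⟩ : ∃ t : Fin k, ¬ IsSink E (f t) := by
    by_cases h0 : IsSink E (f ⟨0, by omega⟩)
    · refine ⟨⟨1, by omega⟩, hss _ _ ?_ h0⟩
      rw [f.map_adj_iff, cyc_adj (by omega) (Fin.mk_lt_mk.2 (by omega))]
      left; rfl
    · exact ⟨_, h0⟩
  obtain ⟨cyc, hcyc⟩ : ∃ cyc : ℕ → Fin n, cyc = fun i : ℕ =>
    f (⟨i % k, Nat.mod_lt _ (by omega)⟩ + t) := ⟨_, rfl⟩
  have hval : ∀ i (hi : i < k), cyc i = f (⟨i, hi⟩ + t) := by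
    intro i hi
    rw [hcyc]
    simp only [Nat.mod_eq_of_lt hi]
  have hper : cyc k = cyc 0 := by
    rw [hcyc]
    simp only [Nat.mod_self, Nat.zero_mod]
  have hne : ∀ i j, i < j → j < k → cyc i ≠ cyc j := by
    intro i j hij hj h
    rw [hval i (by omega), hval j hj] at h
    have h1 := add_right_cancel (f.injective h)
    have h2 : i = j := congrArg Fin.val h1
    omega
  have hadj2 : ∀ i j, i < j → j < k →
      ((SimpleGraph.fromRel E).Adj (cyc i) (cyc j) ↔ (j = i + 1 ∨ (i = 0 ∧ j + 1 = k))) := by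
    intro i j hij hj
    rw [hval i (by omega), hval j hj, hadj, cyc_adj (by omega) (by exact hij)]
  have h0 : ¬ IsSink E (cyc 0) := by
    rw [hval 0 (by omega)]
    have h1 : (⟨0, by omega⟩ : Fin k) + t = t := by
      have h2 : (⟨0, by omega⟩ : Fin k) = 0 := rfl
      rw [h2, zero_add]
    rw [h1]; exact ht
  have hbad2 : k = 4 → ∀ i j, i < j → j < k → IsSink E (cyc i) → IsSink E (cyc j) → False := by
    intro hk4 i j hij hj hi' hj'
    refine hbad ⟨hk4, ⟨i, by omega⟩ + t, ⟨j, hj⟩ + t, ?_, ?_, ?_⟩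
    · intro h
      have h1 := add_right_cancel h
      have h2 : i = j := congrArg Fin.val h1
      omega
    · rw [← hval]; exact hi'
    · rw [← hval]; exact hj'
  have hsucc : ∀ i, i + 1 < k → IsSink E (cyc i) → ¬ IsSink E (cyc (i + 1)) := by
    intro i hi hs
    exact hss _ _ ((hadj2 i (i + 1) (by omega) hi).2 (Or.inl rfl)) hs
  by_cases h1 : IsSink E (cyc 1)
  · have h2 : ¬ IsSink E (cyc 2) := hsucc 1 (by omega) h1
    have hbet : ∀ i, 0 < i → i < 2 → IsSink E (cyc i) := by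
      intro i hi1 hi2
      have : i = 1 := by omega
      rw [this]; exact h1
    by_cases h3 : IsSink E (cyc 3)
    · have hk5 : 4 < k := by
        by_contra h
        exact hbad2 (by omega) 1 3 (by omega) (by omega) h1 h3
      exact ⟨2, 4, cyc, ⟨by omega, hper, hne, hadj2, by omega, by omega, by omega, h0, h2,
        hsucc 3 (by omega) h3, hbet⟩⟩
    · exact ⟨2, 3, cyc, ⟨by omega, hper, hne, hadj2, by omega, by omega, by omega, h0, h2,
        h3, hbet⟩⟩
  · have hbet : ∀ i, 0 < i → i < 1 → IsSink E (cyc i) := by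
      intro i hi1 hi2
      omega
    by_cases h2 : IsSink E (cyc 2)
    · exact ⟨1, 3, cyc, ⟨by omega, hper, hne, hadj2, by omega, by omega, by omega, h0, h1,
        hsucc 2 (by omega) h2, hbet⟩⟩
    · exact ⟨1, 2, cyc, ⟨by omega, hper, hne, hadj2, by omega, by omega, by omega, h0, h1,
        h2, hbet⟩⟩

theorem main_iff {n : ℕ} (hn : 0 < n) (E : Fin n → Fin n → Prop)
    (hacyc : ∀ i, ¬ TransGen E i i) (κ : Fin n → ℕ) (hκ : ∀ i, 2 ≤ κ i)
    (hperf : ∀ i, ¬ IsSink E i → ∀ a b, E a i → E b i → a ≠ b → E a b ∨ E b a) :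
    primeIdeal E κ = globalIdeal E κ ↔
      ∀ (k : ℕ) (f : SimpleGraph.cycleGraph k ↪g SimpleGraph.fromRel E), 3 < k →
        k = 4 ∧ ∃ i j : Fin k, i ≠ j ∧ IsSink E (f i) ∧ IsSink E (f j) := by
  have z : ∀ i, Fin (κ i) := fun i => ⟨0, by have := hκ i; omega⟩
  constructor
  · intro heq k f hk
    by_contra hbad
    obtain ⟨p, q, cyc, h⟩ := exists_cycData E f hk hbad
    refine h.not_le (z := fun i => ⟨0, by have := hκ i; omega⟩)
      (o := fun i => ⟨1, by have := hκ i; omega⟩) ?_ hn hacyc hperf heq.le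
    intro i hi
    have := congrArg Fin.val hi
    simp at this
  · intro h
    exact le_antisymm (prime_le_global E hn hacyc z hperf h) (global_le_prime E hperf)

/-- The arrows `0 → 2`, `0 → 3`, `1 → 2`, `1 → 3`. -/
theorem example_K22 : ∃ E : Fin 4 → Fin 4 → Prop, (∀ i, ¬ TransGen E i i) ∧
    (∀ i, ¬ IsSink E i → ∀ a b, E a i → E b i → a ≠ b → E a b ∨ E b a) ∧
    primeIdeal E (fun _ => 2) = globalIdeal E (fun _ => 2) ∧
    Nonempty (SimpleGraph.cycleGraph 4 ↪g SimpleGraph.fromRel E) := by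
  obtain ⟨E, hE⟩ : ∃ E : Fin 4 → Fin 4 → Prop,
    E = fun i j => (i = 0 ∨ i = 1) ∧ (j = 2 ∨ j = 3) := ⟨_, rfl⟩
  have hE' : ∀ i j, E i j ↔ (i = 0 ∨ i = 1) ∧ (j = 2 ∨ j = 3) := by
    intro i j; rw [hE]
  have hacyc : ∀ i, ¬ TransGen E i i := by
    have key : ∀ i j, TransGen E i j → (i = 0 ∨ i = 1) ∧ (j = 2 ∨ j = 3) := by
      intro i j h
      induction h with
      | single h => exact (hE' _ _).1 h
      | tail _ h2 ih => exact ⟨ih.1, ((hE' _ _).1 h2).2⟩
    intro i h
    obtain ⟨h1, h2⟩ := key i i h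
    rcases h1 with rfl | rfl <;> rcases h2 with h2 | h2 <;> exact absurd h2 (by decide)
  have hsink : ∀ j, (j = 2 ∨ j = 3) → IsSink E j := by
    intro j hj i h
    have h1 := ((hE' _ _).1 h).1
    rcases hj with rfl | rfl <;> rcases h1 with h1 | h1 <;> exact absurd h1 (by decide)
  have hperf : ∀ i, ¬ IsSink E i → ∀ a b, E a i → E b i → a ≠ b → E a b ∨ E b a := by
    intro i hi a b ha _ _
    exact absurd (hsink i ((hE' _ _).1 ha).2) hi
  refine ⟨E, hacyc, hperf, ?_, ?_⟩
  · rw [main_iff (by omega) E hacyc _ (fun _ => le_rfl) hperf]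
    intro k f hk
    have hcard : k ≤ 4 := by
      have := Fintype.card_le_of_injective f f.injective
      simpa using this
    have hk4 : k = 4 := by omega
    subst hk4
    refine ⟨rfl, ?_⟩
    have hsurj : Function.Surjective f := Finite.surjective_of_injective f.injective
    obtain ⟨i, hi⟩ := hsurj 2
    obtain ⟨j, hj⟩ := hsurj 3
    refine ⟨i, j, ?_, ?_, ?_⟩
    · rintro rfl
      rw [hi] at hj
      exact absurd hj (by decide)
    · rw [hi]; exact hsink 2 (Or.inl rfl)
    · rw [hj]; exact hsink 3 (Or.inr rfl)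
  · refine ⟨⟨⟨fun i => if i = 0 then 0 else if i = 1 then 2 else if i = 2 then 1 else 3, ?_⟩, ?_⟩⟩
    · decide
    · intro a b
      rw [SimpleGraph.fromRel_adj, hE', hE']
      revert a b
      decide

end Pool.Agent.Helper15
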