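import Pool.Agent.Helper15.Rows

/-!
# Connectivity of multisets of rows with lower bounds
-/

set_option linter.unusedSectionVars false
set_option linter.unusedSimpArgs false

namespace Pool.Agent.Helper15

open Relation

variable {V : Type*} [DecidableEq V] [Fintype V] {α : V → Type*} [∀ i, DecidableEq (α i)]
  {ι : Type*} [DecidableEq ι] (z : ∀ i, α i)

/-- A vertex `v` of `W` whose neighbourhood is a clique and such that the index sets containing
it are cliques or form a chain above the neighbourhood. -/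
def NestSimp (Cl : Finset V → Prop) (P : ι → Finset V) (W : Finset V) (v : V) : Prop :=
  ∃ Q : Finset V, Q ⊆ W.erase v ∧ Cl (insert v Q) ∧
    (∀ C, Cl C → C ⊆ W → v ∈ C → C ⊆ insert v Q) ∧
    ∃ l : List ι, l.Nodup ∧ l.Pairwise (fun s t => P t ∩ W ⊆ P s) ∧
      (∀ t ∈ l, v ∈ P t ∧ Q ⊆ P t) ∧ ∀ t, v ∈ P t → t ∈ l ∨ Cl (P t ∩ W)

/-- A move with bounds for all indices. -/
def US (Cl : Finset V → Prop) (P : ι → Finset V) (W : Finset V)
    (σ : ι → Multiset (∀ i, α i)) (T T' : Multiset (∀ i, α i)) : Prop :=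
  ∃ u w u' w' R, T = u ::ₘ w ::ₘ R ∧ T' = u' ::ₘ w' ::ₘ R ∧ Mv z Cl W u w u' w' ∧
    GoodW z P (fun _ => True) σ W T ∧ GoodW z P (fun _ => True) σ W T'

variable {z}

theorem Mv.marg {Cl : Finset V → Prop} {W : Finset V} {u w u' w' : ∀ i, α i}
    (h : Mv z Cl W u w u' w') {C : Finset V} (hC : Cl C) (hCW : C ⊆ W)
    (R : Multiset (∀ i, α i)) :
    (u ::ₘ w ::ₘ R).map (res z C) = (u' ::ₘ w' ::ₘ R).map (res z C) := by
  simp only [Multiset.map_cons]
  rcases h C hC hCW with ⟨h1, h2⟩ | ⟨h1, h2⟩
  · rw [h1, h2]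
  · rw [h1, h2, Multiset.cons_swap]

theorem mv_pres_or_chg {Cl : Finset V → Prop} {W : Finset V} (hs : ∀ i ∈ W, Cl {i})
    {u w u' w' : ∀ i, α i} (h : Mv z Cl W u w u' w') (D : Finset V) (hD : D ⊆ W) :
    Pres (res z) D u w u' w' ∨ Chg (res z) D u w u' w' := by
  refine pres_or_chg z D u w u' w' fun i hi => ?_
  have h1 := h {i} (hs i (hD hi)) (by simpa using hD hi)
  unfold Pres at h1
  simp only [res_eq_iff, Finset.mem_singleton, forall_eq] at h1
  exact h1

theorem uconn (Cl : Finset V → Prop) (P : ι → Finset V) (N : Finset V)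
    (hs : ∀ i ∈ N, Cl {i}) (hdown : ∀ C D, Cl C → D ⊆ C → Cl D) (hemp : Cl ∅)
    (hns : ∀ W ⊆ N, W.Nonempty → ∃ v ∈ W, NestSimp Cl P W v) :
    ∀ (n : ℕ) (W : Finset V), W.card = n → W ⊆ N →
      ∀ (σ : ι → Multiset (∀ i, α i)) (T T' : Multiset (∀ i, α i)),
        GoodW z P (fun _ => True) σ W T → GoodW z P (fun _ => True) σ W T' →
        (∀ C, Cl C → C ⊆ W → T.map (res z C) = T'.map (res z C)) →
        ReflTransGen (US z Cl P W σ) T T' := by
  intro n
  induction n with
  | zero =>
    intro W hW _ σ T T' hT hT' hC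
    rw [Finset.card_eq_zero] at hW
    subst hW
    have h1 : ∀ T : Multiset (∀ i, α i), (∀ r ∈ T, res z ∅ r = r) →
        T = Multiset.replicate (Multiset.card T) z := by
      intro T hT
      rw [Multiset.eq_replicate]
      refine ⟨rfl, fun r hr => ?_⟩
      rw [← hT r hr]
      funext i
      simp [res]
    have h2 : Multiset.card T = Multiset.card T' := by
      have := congrArg Multiset.card (hC ∅ hemp (Finset.Subset.refl _))
      rwa [Multiset.card_map, Multiset.card_map] at this
    rw [h1 T hT.1, h1 T' hT'.1, h2]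
  | succ n ih =>
    intro W hWn hWN σ T T' hT hT' hC
    have hne : W.Nonempty := by
      rw [← Finset.card_pos]; omega
    obtain ⟨v, hv, Q, hQ, hclQ, hcl, l, hnd, hlc, hlv, hlo⟩ := hns W hWN hne
    have hW'n : (W.erase v).card = n := by
      rw [Finset.card_erase_of_mem hv]; omega
    have hW'W : W.erase v ⊆ W := Finset.erase_subset _ _
    have hid : ∀ (W : Finset V) (t : ι) (x : ∀ i, α i),
        res z (P t ∩ W) (res z (P t ∩ W) x) = res z (P t ∩ W) x := by
      intro W t x
      rw [res_res, Finset.inter_self]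
    have hchain : ∀ W' ⊆ W, IsChainL (fun t => res z (P t ∩ W')) l := by
      intro W' hW'
      refine hlc.imp ?_
      intro s t hst x
      simp only
      rw [res_res_of_subset z]
      intro i hi
      rw [Finset.mem_inter] at hi ⊢
      exact ⟨hst (Finset.mem_inter.2 ⟨hi.1, hW' hi.2⟩), hi.2⟩
    have hgood : ∀ T : Multiset (∀ i, α i), GoodW z P (fun _ => True) σ W T →
        GoodW z P (fun t => v ∉ P t) σ W T := fun T h => ⟨h.1, fun t _ => h.2 t trivial⟩
    have hconv : ReflTransGen (UStep (fun t => res z (P t ∩ W)) (Mv z Cl W)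
        (GoodW z P (fun t => v ∉ P t) σ W) l σ) T T' := by
      refine conv_UL l (hchain W (Finset.Subset.refl _)) hnd σ T T' ?_
        (fun t _ => hT.2 t trivial) (fun t _ => hT'.2 t trivial)
      intro L L' hL1 hL1' hlab hl0
      subst hL1 hL1'
      have hLl : ∀ p ∈ L, ∀ t, p.2 = some t → t ∈ l := by
        intro p hp t ht
        by_contra h
        exact (lab_eq_zero_iff L t).1 (hl0 t h) p hp ht
      refine glue P (fun t => v ∉ P t) σ W Q v hv hQ Cl hcl hclQ hdown (fun t ht => ht)
        (fun t => t ∈ l) hlv ?_ L L' (hgood _ hT) (hgood _ hT') hlab hLl hC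
      intro K K' hK hK' hlabK hKl hCK
      refine conv_LU l (hchain _ hW'W) hnd (hid _) ?_ (fun u w C _ _ => Or.inl ⟨rfl, rfl⟩)
        K K' ?_ hK hlabK ?_
      · intro u w u' w' hm t _
        exact mv_pres_or_chg (fun i hi => hs i (hWN (hW'W hi))) hm (P t ∩ W.erase v)
          Finset.inter_subset_right
      · intro σ' hb hb'
        classical
        obtain ⟨σ2, hσ2⟩ : ∃ σ2 : ι → Multiset (∀ i, α i), σ2 = fun t =>
          if v ∈ P t then (if t ∈ l then σ' t else 0) else σ t := ⟨_, rfl⟩
        have hb2 : ∀ K : Multiset (∀ i, α i), GoodW z P (fun t => v ∉ P t) σ (W.erase v) K →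
            (∀ t ∈ l, σ' t ≤ K.map (res z (P t ∩ W.erase v))) →
            GoodW z P (fun _ => True) σ2 (W.erase v) K := by
          intro K h1 h2
          refine ⟨h1.1, fun t _ => ?_⟩
          rw [hσ2]
          simp only
          split_ifs with h3 h4
          · exact h2 t h4
          · exact Multiset.zero_le _
          · exact h1.2 t h3
        have hb3 : ∀ K : Multiset (∀ i, α i), GoodW z P (fun _ => True) σ2 (W.erase v) K →
            GoodW z P (fun t => v ∉ P t) σ (W.erase v) K ∧
            (∀ t ∈ l, σ' t ≤ K.map (res z (P t ∩ W.erase v))) := by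
          intro K h
          refine ⟨⟨h.1, fun t ht => ?_⟩, fun t ht => ?_⟩
          · have := h.2 t trivial
            rw [hσ2] at this
            simp only at this
            rwa [if_neg ht] at this
          · have := h.2 t trivial
            rw [hσ2] at this
            simp only at this
            rwa [if_pos (hlv t ht).1, if_pos ht] at this
        have hpath := ih (W.erase v) hW'n (hW'W.trans hWN) σ2 (K.map Prod.fst) (K'.map Prod.fst)
          (hb2 _ hK hb) (hb2 _ hK' hb') hCK
        refine ReflTransGen.mono ?_ _ _ hpath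
        rintro T1 T2 ⟨u, w, u', w', R, e1, e2, hm, g1, g2⟩
        exact ⟨u, w, u', w', R, e1, e2, hm, (hb3 _ g1).1, (hb3 _ g2).1, (hb3 _ g1).2, (hb3 _ g2).2⟩
      · intro t ht
        rw [lab_eq_zero_iff]
        intro p hp h
        exact ht (hKl p hp t h)
    have key : ∀ T2, ReflTransGen (UStep (fun t => res z (P t ∩ W)) (Mv z Cl W)
        (GoodW z P (fun t => v ∉ P t) σ W) l σ) T T2 →
        ReflTransGen (US z Cl P W σ) T T2 ∧ GoodW z P (fun _ => True) σ W T2 ∧
        (∀ C, Cl C → C ⊆ W → T.map (res z C) = T2.map (res z C)) := by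
      intro T2 h
      induction h with
      | refl => exact ⟨ReflTransGen.refl, hT, fun C _ _ => rfl⟩
      | tail _ h2 ih2 =>
        obtain ⟨i1, i2, i3⟩ := ih2
        obtain ⟨u, w, u', w', R, rfl, rfl, hm, g1, g2, g3, g4⟩ := h2
        have hC' : ∀ C, Cl C → C ⊆ W →
            T.map (res z C) = (u' ::ₘ w' ::ₘ R).map (res z C) :=
          fun C hC hCW => (i3 C hC hCW).trans (hm.marg hC hCW R)
        have hgd : GoodW z P (fun _ => True) σ W (u' ::ₘ w' ::ₘ R) := by
          refine ⟨g2.1, fun t _ => ?_⟩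
          by_cases h3 : v ∉ P t
          · exact g2.2 t h3
          · rcases hlo t (not_not.1 h3) with h4 | h4
            · exact g4 t h4
            · rw [← hC' _ h4 Finset.inter_subset_right]
              exact hT.2 t trivial
        exact ⟨i1.tail ⟨u, w, u', w', R, rfl, rfl, hm, i2, hgd⟩, hgd, hC'⟩
    exact (key _ hconv).1

end Pool.Agent.Helper15
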