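import Pool.Agent.Helper15.Conv

/-!
# Rows and gluing of one coordinate
-/

set_option linter.unusedSectionVars false
set_option linter.unusedSimpArgs false

namespace Pool.Agent.Helper15

open Relation

section Res

variable {V : Type*} [DecidableEq V] {α : V → Type*} (z : ∀ i, α i)

/-- Restriction of a row to a set of coordinates. -/
def res (C : Finset V) (r : ∀ i, α i) : ∀ i, α i := fun i => if i ∈ C then r i else z i

theorem res_apply_mem {C : Finset V} {r : ∀ i, α i} {i : V} (h : i ∈ C) :
    res z C r i = r i := if_pos h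

theorem res_apply_not_mem {C : Finset V} {r : ∀ i, α i} {i : V} (h : i ∉ C) :
    res z C r i = z i := if_neg h

theorem res_res (C D : Finset V) (r : ∀ i, α i) : res z C (res z D r) = res z (C ∩ D) r := by
  funext i
  by_cases h1 : i ∈ C <;> by_cases h2 : i ∈ D <;> simp [res, h1, h2]

theorem res_res_of_subset {C D : Finset V} (h : C ⊆ D) (r : ∀ i, α i) :
    res z C (res z D r) = res z C r := by
  rw [res_res, Finset.inter_eq_left.2 h]

theorem res_eq_iff (C : Finset V) (r r' : ∀ i, α i) :
    res z C r = res z C r' ↔ ∀ i ∈ C, r i = r' i := by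
  constructor
  · intro h i hi
    have := congrFun h i
    rwa [res_apply_mem z hi, res_apply_mem z hi] at this
  · intro h
    funext i
    by_cases hi : i ∈ C
    · rw [res_apply_mem z hi, res_apply_mem z hi, h i hi]
    · rw [res_apply_not_mem z hi, res_apply_not_mem z hi]

theorem res_eq_of_subset {C D : Finset V} (h : C ⊆ D) {r r' : ∀ i, α i}
    (h' : res z D r = res z D r') : res z C r = res z C r' := by
  rw [res_eq_iff] at *
  exact fun i hi => h' i (h hi)

theorem res_update_not_mem {C : Finset V} {v : V} (h : v ∉ C) (r : ∀ i, α i) (a : α v) :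
    res z C (Function.update r v a) = res z C r := by
  rw [res_eq_iff]
  intro i hi
  exact Function.update_of_ne (by rintro rfl; exact h hi) _ _

theorem pres_or_chg (D : Finset V) (u w u' w' : ∀ i, α i)
    (h : ∀ i ∈ D, (u i = u' i ∧ w i = w' i) ∨ (u i = w' i ∧ w i = u' i)) :
    Pres (res z) D u w u' w' ∨ Chg (res z) D u w u' w' := by
  unfold Pres Chg
  simp only [ne_eq, res_eq_iff]
  by_cases h1 : ∀ i ∈ D, u i = u' i ∧ w i = w' i
  · left; left
    exact ⟨fun i hi => (h1 i hi).1, fun i hi => (h1 i hi).2⟩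
  · by_cases h2 : ∀ i ∈ D, u i = w' i ∧ w i = u' i
    · left; right
      exact ⟨fun i hi => (h2 i hi).1, fun i hi => (h2 i hi).2⟩
    · right
      push Not at h1 h2
      obtain ⟨i, hi, hi'⟩ := h1
      obtain ⟨j, hj, hj'⟩ := h2
      have ei : u i = w' i ∧ w i = u' i := by
        rcases h i hi with h3 | h3
        · exact absurd h3.2 (hi' h3.1)
        · exact h3
      have ej : u j = u' j ∧ w j = w' j := by
        rcases h j hj with h3 | h3
        · exact h3
        · exact absurd h3.2 (hj' h3.1)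
      have ni : u i ≠ u' i := by
        intro h3
        exact hi' h3 (by rw [ei.2, ← h3, ei.1])
      have nj : u j ≠ w' j := by
        intro h3
        exact hj' h3 (by rw [ej.2, ← h3, ej.1])
      refine ⟨fun h3 => ni (h3 i hi), fun h3 => nj (h3 j hj), fun h3 => nj ?_, fun h3 => ni ?_⟩
      · rw [← ej.2, h3 j hj, ej.1]
      · rw [ei.1, ← h3 i hi, ei.2]

end Res

section Glue

variable {V : Type*} [DecidableEq V] [Fintype V] {α : V → Type*} [∀ i, DecidableEq (α i)]
  {ι : Type*} [DecidableEq ι] (z : ∀ i, α i)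

/-- The clique marginals of two pairs of rows agree. -/
def Mv (Cl : Finset V → Prop) (W : Finset V) (u w u' w' : ∀ i, α i) : Prop :=
  ∀ C, Cl C → C ⊆ W → Pres (res z) C u w u' w'

/-- All rows are supported on `W` and the bounds with index in `J` hold. -/
def GoodW (P : ι → Finset V) (J : ι → Prop) (σ : ι → Multiset (∀ i, α i)) (W : Finset V)
    (T : Multiset (∀ i, α i)) : Prop :=
  (∀ r ∈ T, res z W r = r) ∧ ∀ t, J t → σ t ≤ T.map (res z (P t ∩ W))

/-- The set of coordinates which, together with the label, controls the coordinate `v`. -/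
def Gam (P : ι → Finset V) (W Q : Finset V) : Option ι → Finset V
  | none => Q
  | some t => P t ∩ W

/-- Exchange of the `v`-values of two rows with the same context. -/
def VSwap (P : ι → Finset V) (W Q : Finset V) (v : V)
    (K K' : Multiset ((∀ i, α i) × Option ι)) : Prop :=
  ∃ x y ℓ R, K = (x, ℓ) ::ₘ (y, ℓ) ::ₘ R ∧
    K' = (Function.update x v (y v), ℓ) ::ₘ (Function.update y v (x v), ℓ) ::ₘ R ∧
    res z (Gam P (W.erase v) Q ℓ) x = res z (Gam P (W.erase v) Q ℓ) y

variable {z}

theorem VSwap.cons {P : ι → Finset V} {W Q : Finset V} {v : V}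
    {K K' : Multiset ((∀ i, α i) × Option ι)} (h : VSwap z P W Q v K K')
    (a : (∀ i, α i) × Option ι) : VSwap z P W Q v (a ::ₘ K) (a ::ₘ K') := by
  obtain ⟨x, y, ℓ, R, rfl, rfl, h1⟩ := h
  refine ⟨x, y, ℓ, a ::ₘ R, ?_, ?_, h1⟩
  · rw [Multiset.cons_swap a, Multiset.cons_swap a]
  · rw [Multiset.cons_swap a, Multiset.cons_swap a]

theorem vSwaps_cons {P : ι → Finset V} {W Q : Finset V} {v : V}
    {K K' : Multiset ((∀ i, α i) × Option ι)} (a : (∀ i, α i) × Option ι)
    (h : ReflTransGen (VSwap z P W Q v) K K') :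
    ReflTransGen (VSwap z P W Q v) (a ::ₘ K) (a ::ₘ K') :=
  ReflTransGen.lift (r := VSwap z P W Q v) (p := VSwap z P W Q v) (fun L => a ::ₘ L)
    (fun _ _ (h : VSwap z P W Q v _ _) => h.cons a) _ _ h

/-- The projection forgetting the coordinate `v`. -/
def pr (z : ∀ i, α i) (W : Finset V) (p : (∀ i, α i) × Option ι) : (∀ i, α i) × Option ι :=
  (res z W p.1, p.2)

/-- The label together with the context including the coordinate `v`. -/
def del (z : ∀ i, α i) (P : ι → Finset V) (W Q : Finset V) (v : V)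
    (p : (∀ i, α i) × Option ι) : (∀ i, α i) × Option ι :=
  (res z (insert v (Gam P (W.erase v) Q p.2)) p.1, p.2)

theorem eq_of_res_erase {W : Finset V} {v : V} {x y : ∀ i, α i}
    (hx : res z W x = x) (hy : res z W y = y)
    (h : res z (W.erase v) x = res z (W.erase v) y) (hv : x v = y v) : x = y := by
  rw [← hx, ← hy, res_eq_iff]
  intro i hi
  by_cases h1 : i = v
  · subst h1; exact hv
  · exact (res_eq_iff z _ _ _).1 h i (Finset.mem_erase.2 ⟨h1, hi⟩)

theorem supp_update {W : Finset V} {v : V} (hv : v ∈ W) {x : ∀ i, α i} (hx : res z W x = x)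
    (a : α v) : res z W (Function.update x v a) = Function.update x v a := by
  funext i
  by_cases hi : i ∈ W
  · rw [res_apply_mem z hi]
  · rw [res_apply_not_mem z hi]
    have h1 : i ≠ v := by rintro rfl; exact hi hv
    rw [Function.update_of_ne h1]
    conv_rhs => rw [← hx]
    rw [res_apply_not_mem z hi]

/-- Matching of `v`-values. -/
theorem vSwaps_connected (P : ι → Finset V) (W Q : Finset V) (v : V) (hv : v ∈ W)
    (hQ : Q ⊆ W.erase v) :
    ∀ (n : ℕ) (K L : Multiset ((∀ i, α i) × Option ι)), L.card = n →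
      (∀ p ∈ K, res z W p.1 = p.1) → (∀ p ∈ L, res z W p.1 = p.1) →
      K.map (pr z (W.erase v)) = L.map (pr z (W.erase v)) →
      K.map (del z P W Q v) = L.map (del z P W Q v) →
      ReflTransGen (VSwap z P W Q v) K L := by
  have hGam : ∀ ℓ, Gam P (W.erase v) Q ℓ ⊆ W.erase v := by
    intro ℓ
    cases ℓ with
    | none => exact hQ
    | some t => exact Finset.inter_subset_right
  have hvG : ∀ ℓ, v ∉ Gam P (W.erase v) Q ℓ := fun ℓ h =>
    (Finset.mem_erase.1 (hGam ℓ h)).1 rfl
  intro n
  induction n with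
  | zero =>
    intro K L hc _ _ h1 _
    rw [Multiset.card_eq_zero] at hc
    subst hc
    rw [Multiset.map_zero, Multiset.map_eq_zero] at h1
    subst h1
    exact ReflTransGen.refl
  | succ n ih =>
    intro K L hc hK hL h1 h2
    obtain ⟨⟨x', ℓ⟩, hx'⟩ : ∃ p, p ∈ L := by
      apply Multiset.card_pos_iff_exists_mem.1; omega
    obtain ⟨L1, rfl⟩ := Multiset.exists_cons_of_mem hx'
    rw [Multiset.map_cons] at h1 h2
    obtain ⟨⟨x, ℓ1⟩, K1, rfl, hpx, hK1⟩ := map_eq_cons' _ _ _ _ h1
    have e1 : res z (W.erase v) x = res z (W.erase v) x' := congrArg Prod.fst hpx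
    have e2 : ℓ1 = ℓ := congrArg Prod.snd hpx
    subst e2
    have hcL : L1.card = n := by simpa using hc
    have hx1 : res z W x = x := hK (x, ℓ1) (by simp)
    have hx2 : res z W x' = x' := hL (x', ℓ1) (by simp)
    by_cases hv1 : x v = x' v
    · have : x = x' := eq_of_res_erase hx1 hx2 e1 hv1
      subst this
      refine vSwaps_cons _ (ih K1 L1 hcL (fun p hp => hK p (by simp [hp]))
        (fun p hp => hL p (by simp [hp])) hK1 ?_)
      rw [Multiset.map_cons] at h2
      exact (Multiset.cons_inj_right _).1 h2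
    · have h3 : del z P W Q v (x', ℓ1) ∈ ((x, ℓ1) ::ₘ K1).map (del z P W Q v) := by
        rw [h2]; exact Multiset.mem_cons_self _ _
      obtain ⟨⟨y, ℓ2⟩, hy, hdy⟩ := Multiset.mem_map.1 h3
      have e3 : res z (insert v (Gam P (W.erase v) Q ℓ2)) y =
          res z (insert v (Gam P (W.erase v) Q ℓ1)) x' := congrArg Prod.fst hdy
      have e4 : ℓ2 = ℓ1 := congrArg Prod.snd hdy
      subst e4
      have e5 : y v = x' v := (res_eq_iff z _ _ _).1 e3 v (Finset.mem_insert_self _ _)
      have hy1 : (y, ℓ2) ∈ K1 := by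
        rcases Multiset.mem_cons.1 hy with h | h
        · have h' : y = x := congrArg Prod.fst h
          rw [h'] at e5
          exact absurd e5 hv1
        · exact h
      obtain ⟨K2, rfl⟩ := Multiset.exists_cons_of_mem hy1
      have hyS : res z W y = y := hK (y, ℓ2) (by simp)
      have e6 : res z (Gam P (W.erase v) Q ℓ2) x = res z (Gam P (W.erase v) Q ℓ2) y := by
        rw [res_eq_of_subset z (hGam ℓ2) e1]
        exact (res_eq_of_subset z (Finset.subset_insert _ _) e3).symm
      have hsw : VSwap z P W Q v ((x, ℓ2) ::ₘ (y, ℓ2) ::ₘ K2)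
          ((Function.update x v (y v), ℓ2) ::ₘ (Function.update y v (x v), ℓ2) ::ₘ K2) :=
        ⟨x, y, ℓ2, K2, rfl, rfl, e6⟩
      have e7 : Function.update x v (y v) = x' := by
        refine eq_of_res_erase (v := v) (supp_update hv hx1 _) hx2 ?_ ?_
        · rw [res_update_not_mem z (by simp), e1]
        · rw [Function.update_self, e5]
      refine ReflTransGen.head hsw ?_
      rw [e7]
      refine vSwaps_cons _ (ih _ L1 hcL ?_ (fun p hp => hL p (by simp [hp])) ?_ ?_)
      · intro p hp
        rcases Multiset.mem_cons.1 hp with rfl | hp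
        · exact supp_update hv hyS _
        · exact hK p (by simp [hp])
      · rw [← hK1, Multiset.map_cons, Multiset.map_cons]
        congr 1
        unfold pr
        simp only
        rw [res_update_not_mem z (by simp)]
      · have h4 : (((x, ℓ2) ::ₘ (y, ℓ2) ::ₘ K2)).map (del z P W Q v) =
            ((Function.update x v (y v), ℓ2) ::ₘ (Function.update y v (x v), ℓ2) ::ₘ K2).map
              (del z P W Q v) := by
          simp only [Multiset.map_cons]
          rw [Multiset.cons_swap (del z P W Q v (Function.update x v (y v), ℓ2))]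
          congr 1
          · unfold del
            simp only
            congr 1
            rw [res_eq_iff]
            intro i hi
            rcases Finset.mem_insert.1 hi with rfl | hi
            · rw [Function.update_self]
            · rw [Function.update_of_ne (by rintro rfl; exact hvG _ hi)]
              exact (res_eq_iff z _ _ _).1 e6 i hi
          · congr 1
            unfold del
            simp only
            congr 1
            rw [res_eq_iff]
            intro i hi
            rcases Finset.mem_insert.1 hi with rfl | hi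
            · rw [Function.update_self]
            · rw [Function.update_of_ne (by rintro rfl; exact hvG _ hi)]
              exact ((res_eq_iff z _ _ _).1 e6 i hi).symm
        rw [h4, e7, Multiset.map_cons] at h2
        exact (Multiset.cons_inj_right _).1 h2

theorem subset_gam {P : ι → Finset V} {W Q : Finset V} (hQ : Q ⊆ W) {ℓ : Option ι}
    (hℓ : ∀ t, ℓ = some t → Q ⊆ P t) : Q ⊆ Gam P W Q ℓ := by
  cases ℓ with
  | none => exact Finset.Subset.refl _
  | some t => exact Finset.subset_inter (hℓ t rfl) hQ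

theorem lift_direct (P : ι → Finset V) (W Q : Finset V) (v : V)
    (hQ : Q ⊆ W.erase v) (Cl : Finset V → Prop)
    (hclQ : ∀ C, Cl C → C ⊆ W → v ∈ C → C ⊆ insert v Q)
    {u w u' w' : ∀ i, α i} {ℓ m : Option ι} (hℓ : ∀ t, ℓ = some t → Q ⊆ P t)
    (hm : ∀ t, m = some t → Q ⊆ P t)
    (hMv : Mv z Cl (W.erase v) (res z (W.erase v) u) (res z (W.erase v) w) u' w')
    (h1 : res z (Gam P (W.erase v) Q ℓ) u = res z (Gam P (W.erase v) Q ℓ) u')
    (h2 : res z (Gam P (W.erase v) Q m) w = res z (Gam P (W.erase v) Q m) w') :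
    Mv z Cl W u w (Function.update u' v (u v)) (Function.update w' v (w v)) ∧
    del z P W Q v (u, ℓ) = del z P W Q v (Function.update u' v (u v), ℓ) ∧
    del z P W Q v (w, m) = del z P W Q v (Function.update w' v (w v), m) ∧
    lf (fun t => res z (P t ∩ W)) (u, ℓ) =
      lf (fun t => res z (P t ∩ W)) (Function.update u' v (u v), ℓ) ∧
    lf (fun t => res z (P t ∩ W)) (w, m) =
      lf (fun t => res z (P t ∩ W)) (Function.update w' v (w v), m) := by
  have key : ∀ (x x' : ∀ i, α i) (C : Finset V), res z C x = res z C x' →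
      res z (insert v C) x = res z (insert v C) (Function.update x' v (x v)) := by
    intro x x' C h
    rw [res_eq_iff] at *
    intro i hi
    by_cases hiv : i = v
    · subst hiv; rw [Function.update_self]
    · rw [Function.update_of_ne hiv]
      rcases Finset.mem_insert.1 hi with h' | h'
      · exact absurd h' hiv
      · exact h i h'
  have k1 := key u u' _ h1
  have k2 := key w w' _ h2
  have hsub : ∀ t, P t ∩ W ⊆ insert v (Gam P (W.erase v) Q (some t)) := by
    intro t i hi
    rw [Finset.mem_inter] at hi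
    by_cases hiv : i = v
    · subst hiv; exact Finset.mem_insert_self _ _
    · exact Finset.mem_insert_of_mem (Finset.mem_inter.2 ⟨hi.1, Finset.mem_erase.2 ⟨hiv, hi.2⟩⟩)
  refine ⟨?_, ?_, ?_, ?_, ?_⟩
  · intro C hC hCW
    by_cases hvC : v ∈ C
    · have h3 := hclQ C hC hCW hvC
      left
      refine ⟨res_eq_of_subset z (h3.trans ?_) k1, res_eq_of_subset z (h3.trans ?_) k2⟩
      · exact Finset.insert_subset_insert _ (subset_gam hQ hℓ)
      · exact Finset.insert_subset_insert _ (subset_gam hQ hm)
    · have h3 : C ⊆ W.erase v := fun i hi =>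
        Finset.mem_erase.2 ⟨by rintro rfl; exact hvC hi, hCW hi⟩
      have h4 := hMv C hC h3
      unfold Pres at *
      rw [res_update_not_mem z hvC, res_update_not_mem z hvC]
      rwa [res_res_of_subset z h3, res_res_of_subset z h3] at h4
  · unfold del; simp only; rw [k1]
  · unfold del; simp only; rw [k2]
  · cases ℓ with
    | none => rfl
    | some t =>
      simp only [lf, Option.map_some]
      rw [res_eq_of_subset z (hsub t) k1]
  · cases m with
    | none => rfl
    | some t =>
      simp only [lf, Option.map_some]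
      rw [res_eq_of_subset z (hsub t) k2]

theorem bounds_pr {P : ι → Finset V} {W : Finset V} {v : V} {t : ι} (ht : v ∉ P t)
    (T : Multiset ((∀ i, α i) × Option ι)) :
    ((T.map (pr z (W.erase v))).map Prod.fst).map (res z (P t ∩ W.erase v)) =
      (T.map Prod.fst).map (res z (P t ∩ W)) := by
  have h : P t ∩ W.erase v = P t ∩ W := by
    ext i
    simp only [Finset.mem_inter, Finset.mem_erase]
    constructor
    · rintro ⟨h1, h2, h3⟩; exact ⟨h1, h3⟩
    · rintro ⟨h1, h2⟩; exact ⟨h1, by rintro rfl; exact ht h1, h2⟩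
  simp only [Multiset.map_map]
  refine Multiset.map_congr rfl fun p _ => ?_
  simp only [Function.comp_apply, pr]
  rw [res_res, h]
  congr 1
  ext i
  simp only [Finset.mem_inter, Finset.mem_erase]
  constructor
  · rintro ⟨h1, h2⟩; exact h1
  · rintro ⟨h1, h2⟩; exact ⟨⟨h1, h2⟩, by rintro rfl; exact ht h1, h2⟩

theorem good_of_pr {P : ι → Finset V} {J : ι → Prop} {σ : ι → Multiset (∀ i, α i)}
    {W : Finset V} {v : V} (hJ : ∀ t, J t → v ∉ P t)
    {T : Multiset ((∀ i, α i) × Option ι)} (hT : ∀ p ∈ T, res z W p.1 = p.1)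
    (h : GoodW z P J σ (W.erase v) ((T.map (pr z (W.erase v))).map Prod.fst)) :
    GoodW z P J σ W (T.map Prod.fst) := by
  refine ⟨?_, fun t ht => ?_⟩
  · intro r hr
    obtain ⟨p, hp, rfl⟩ := Multiset.mem_map.1 hr
    exact hT p hp
  · rw [← bounds_pr (hJ t ht)]
    exact h.2 t ht

theorem pr_good {P : ι → Finset V} {J : ι → Prop} {σ : ι → Multiset (∀ i, α i)}
    {W : Finset V} {v : V} (hJ : ∀ t, J t → v ∉ P t)
    {T : Multiset ((∀ i, α i) × Option ι)}
    (h : GoodW z P J σ W (T.map Prod.fst)) :
    GoodW z P J σ (W.erase v) ((T.map (pr z (W.erase v))).map Prod.fst) := by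
  refine ⟨?_, fun t ht => ?_⟩
  · intro r hr
    rw [Multiset.map_map] at hr
    obtain ⟨p, hp, rfl⟩ := Multiset.mem_map.1 hr
    simp only [Function.comp_apply, pr]
    rw [res_res, Finset.inter_self]
  · rw [bounds_pr (hJ t ht)]
    exact h.2 t ht

/-- Lifting a move from `W.erase v` to `W`. -/
theorem lstep_lift (P : ι → Finset V) (J : ι → Prop) (σ : ι → Multiset (∀ i, α i))
    (W Q : Finset V) (v : V) (hv : v ∈ W) (hQ : Q ⊆ W.erase v) (Cl : Finset V → Prop)
    (hclQ : ∀ C, Cl C → C ⊆ W → v ∈ C → C ⊆ insert v Q) (hcl : Cl Q)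
    (hJ : ∀ t, J t → v ∉ P t)
    (K K'' : Multiset ((∀ i, α i) × Option ι)) (hK : GoodW z P J σ W (K.map Prod.fst))
    (hKl : ∀ p ∈ K, ∀ t, p.2 = some t → Q ⊆ P t)
    (h : LStep (fun t => res z (P t ∩ W.erase v)) (Mv z Cl (W.erase v))
      (GoodW z P J σ (W.erase v)) (K.map (pr z (W.erase v))) K'') :
    ∃ K2, K2.map (pr z (W.erase v)) = K'' ∧
      LStep (fun t => res z (P t ∩ W)) (Mv z Cl W) (GoodW z P J σ W) K K2 ∧
      K2.map (del z P W Q v) = K.map (del z P W Q v) := by
  obtain ⟨u0, w0, u', w', ℓ, m, ℓ', m', R, hK1, rfl, hMv, hLM, hg, hg'⟩ := h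
  obtain ⟨⟨u, ℓ1⟩, K1, rfl, hpu, hK1'⟩ := map_eq_cons' _ _ _ _ hK1
  obtain ⟨⟨w, m1⟩, R1, rfl, hpw, rfl⟩ := map_eq_cons' _ _ _ _ hK1'
  obtain rfl : res z (W.erase v) u = u0 := congrArg Prod.fst hpu
  obtain rfl : ℓ1 = ℓ := congrArg Prod.snd hpu
  obtain rfl : res z (W.erase v) w = w0 := congrArg Prod.fst hpw
  obtain rfl : m1 = m := congrArg Prod.snd hpw
  have hℓ : ∀ t, ℓ1 = some t → Q ⊆ P t := fun t ht => hKl (u, ℓ1) (by simp) t ht
  have hm : ∀ t, m1 = some t → Q ⊆ P t := fun t ht => hKl (w, m1) (by simp) t ht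
  -- the direct case
  have direct : ∀ (u' w' : ∀ i, α i) (ℓ' m' : Option ι),
      Mv z Cl (W.erase v) (res z (W.erase v) u) (res z (W.erase v) w) u' w' →
      GoodW z P J σ (W.erase v) ((((u', ℓ') ::ₘ (w', m') ::ₘ
        R1.map (pr z (W.erase v)))).map Prod.fst) →
      ℓ1 = ℓ' → m1 = m' →
      res z (Gam P (W.erase v) Q ℓ1) u = res z (Gam P (W.erase v) Q ℓ1) u' →
      res z (Gam P (W.erase v) Q m1) w = res z (Gam P (W.erase v) Q m1) w' →
      ∃ K2 : Multiset ((∀ i, α i) × Option ι), K2.map (pr z (W.erase v)) =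
          (u', ℓ') ::ₘ (w', m') ::ₘ R1.map (pr z (W.erase v)) ∧
        LStep (fun t => res z (P t ∩ W)) (Mv z Cl W) (GoodW z P J σ W)
          ((u, ℓ1) ::ₘ (w, m1) ::ₘ R1) K2 ∧
        K2.map (del z P W Q v) = ((u, ℓ1) ::ₘ (w, m1) ::ₘ R1).map (del z P W Q v) := by
    intro u' w' ℓ' m' hMv hg' e1 e2 g1 g2
    subst e1 e2
    obtain ⟨d1, d2, d3, d4, d5⟩ := lift_direct P W Q v hQ Cl hclQ hℓ hm hMv g1 g2
    have hsu : res z (W.erase v) u' = u' := hg'.1 u' (by simp)
    have hsw : res z (W.erase v) w' = w' := hg'.1 w' (by simp)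
    have hsu2 : res z W u' = u' := by
      conv_lhs => rw [← hsu]
      rw [res_res, Finset.inter_eq_right.2 (Finset.erase_subset _ _), hsu]
    have hsw2 : res z W w' = w' := by
      conv_lhs => rw [← hsw]
      rw [res_res, Finset.inter_eq_right.2 (Finset.erase_subset _ _), hsw]
    have hpr : ((Function.update u' v (u v), ℓ1) ::ₘ (Function.update w' v (w v), m1) ::ₘ
        R1).map (pr z (W.erase v)) = (u', ℓ1) ::ₘ (w', m1) ::ₘ R1.map (pr z (W.erase v)) := by
      simp only [Multiset.map_cons]
      congr 1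
      · unfold pr
        simp only
        rw [res_update_not_mem z (by simp), hsu]
      · congr 1
        unfold pr
        simp only
        rw [res_update_not_mem z (by simp), hsw]
    refine ⟨(Function.update u' v (u v), ℓ1) ::ₘ (Function.update w' v (w v), m1) ::ₘ R1,
      hpr, ?_, ?_⟩
    · refine ⟨u, w, _, _, ℓ1, m1, ℓ1, m1, R1, rfl, rfl, d1, Or.inl ⟨d4, d5⟩, hK, ?_⟩
      refine good_of_pr hJ ?_ ?_
      · intro p hp
        rcases Multiset.mem_cons.1 hp with rfl | hp
        · exact supp_update hv hsu2 _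
        · rcases Multiset.mem_cons.1 hp with rfl | hp
          · exact supp_update hv hsw2 _
          · exact hK.1 p.1 (Multiset.mem_map.2 ⟨p, by simp [hp], rfl⟩)
      · rw [hpr]; exact hg'
    · simp only [Multiset.map_cons]
      rw [← d2, ← d3]
  -- matching of contexts
  have hQu : ∀ (x y : ∀ i, α i) (o : Option ι), (∀ t, o = some t → Q ⊆ P t) →
      res z (Gam P (W.erase v) Q o) x = res z (Gam P (W.erase v) Q o) y →
      res z Q x = res z Q y := fun x y o ho h => res_eq_of_subset z (subset_gam hQ ho) h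
  have hctx : ∀ (u' w' : ∀ i, α i) (ℓ' m' : Option ι),
      Mv z Cl (W.erase v) (res z (W.erase v) u) (res z (W.erase v) w) u' w' →
      lf (fun t => res z (P t ∩ W.erase v)) (res z (W.erase v) u, ℓ1) =
        lf (fun t => res z (P t ∩ W.erase v)) (u', ℓ') →
      lf (fun t => res z (P t ∩ W.erase v)) (res z (W.erase v) w, m1) =
        lf (fun t => res z (P t ∩ W.erase v)) (w', m') →
      (ℓ1 = ℓ' ∧ m1 = m') ∧
      ((res z (Gam P (W.erase v) Q ℓ1) u = res z (Gam P (W.erase v) Q ℓ1) u' ∧
      res z (Gam P (W.erase v) Q m1) w = res z (Gam P (W.erase v) Q m1) w') ∨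
      (ℓ1 = none ∧ m1 = none ∧ res z Q u = res z Q w' ∧ res z Q w = res z Q u')) := by
    intro u' w' ℓ' m' hMv h1 h2
    have hq := hMv Q hcl hQ
    unfold Pres at hq
    rw [res_res_of_subset z hQ, res_res_of_subset z hQ] at hq
    have lab1 : ∀ (x x' : ∀ i, α i) (o o' : Option ι),
        lf (fun t => res z (P t ∩ W.erase v)) (res z (W.erase v) x, o) =
        lf (fun t => res z (P t ∩ W.erase v)) (x', o') →
        o = o' ∧ ∀ t, o = some t → res z (P t ∩ W.erase v) x = res z (P t ∩ W.erase v) x' := by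
      intro x x' o o' h
      cases o with
      | none =>
        cases o' with
        | none => exact ⟨rfl, fun t ht => by simp at ht⟩
        | some t => simp [lf] at h
      | some t =>
        cases o' with
        | none => simp [lf] at h
        | some t' =>
          simp only [lf, Option.map_some, Option.some.injEq, Prod.mk.injEq] at h
          obtain ⟨rfl, h⟩ := h
          refine ⟨rfl, fun s hs => ?_⟩
          cases hs
          rwa [res_res_of_subset z Finset.inter_subset_right] at h
    obtain ⟨a1, a2⟩ := lab1 _ _ _ _ h1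
    obtain ⟨b1, b2⟩ := lab1 _ _ _ _ h2
    refine ⟨⟨a1, b1⟩, ?_⟩
    cases hℓ1 : ℓ1 with
    | none =>
      cases hm1 : m1 with
      | none =>
        rcases hq with hq | hq
        · left; exact hq
        · right; exact ⟨rfl, rfl, hq⟩
      | some d =>
        left
        have e1 : res z (Gam P (W.erase v) Q (some d)) w = res z (Gam P (W.erase v) Q (some d)) w' :=
          b2 d hm1
        refine ⟨?_, e1⟩
        have e2 := hQu _ _ _ (fun t ht => hm t (hm1 ▸ ht)) e1
        rcases hq with hq | hq
        · exact hq.1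
        · exact hq.1.trans (e2.symm.trans hq.2)
    | some c =>
      have e1 : res z (Gam P (W.erase v) Q (some c)) u = res z (Gam P (W.erase v) Q (some c)) u' :=
        a2 c hℓ1
      cases hm1 : m1 with
      | none =>
        left
        refine ⟨e1, ?_⟩
        have e2 := hQu _ _ _ (fun t ht => hℓ t (hℓ1 ▸ ht)) e1
        rcases hq with hq | hq
        · exact hq.2
        · exact hq.2.trans (e2.symm.trans hq.1)
      | some d =>
        left
        exact ⟨e1, b2 d hm1⟩
  have hMvs : Mv z Cl (W.erase v) (res z (W.erase v) u) (res z (W.erase v) w) w' u' := by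
    intro C hC hCW
    rcases hMv C hC hCW with h | h
    · exact Or.inr h
    · exact Or.inl h
  rcases hLM with ⟨h1, h2⟩ | ⟨h1, h2⟩
  · obtain ⟨⟨e1, e2⟩, e3 | ⟨e3, e4, e5, e6⟩⟩ := hctx u' w' ℓ' m' hMv h1 h2
    · exact direct u' w' ℓ' m' hMv hg' e1 e2 e3.1 e3.2
    · subst e1 e2
      subst e3 e4
      have := direct w' u' none none hMvs (by rw [Multiset.cons_swap]; exact hg') rfl rfl e5 e6
      rwa [Multiset.cons_swap] at this
  · obtain ⟨⟨e1, e2⟩, e3 | ⟨e3, e4, e5, e6⟩⟩ := hctx w' u' m' ℓ' hMvs h1 h2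
    · have := direct w' u' m' ℓ' hMvs (by rw [Multiset.cons_swap]; exact hg') e1 e2 e3.1 e3.2
      rwa [Multiset.cons_swap] at this
    · subst e1 e2
      subst e3 e4
      exact direct u' w' none none hMv hg' rfl rfl e5 e6

theorem map_del_eq (P : ι → Finset V) (W Q : Finset V) (v : V) (hv : v ∈ W)
    (hQ : Q ⊆ W.erase v) (L L' : Multiset ((∀ i, α i) × Option ι))
    (hlab : ∀ t, lab (fun t => res z (P t ∩ W)) L t = lab (fun t => res z (P t ∩ W)) L' t)
    (hL : ∀ p ∈ L, ∀ t, p.2 = some t → v ∈ P t ∧ Q ⊆ P t)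
    (hL' : ∀ p ∈ L', ∀ t, p.2 = some t → v ∈ P t ∧ Q ⊆ P t)
    (hcl : (L.map Prod.fst).map (res z (insert v Q)) =
      (L'.map Prod.fst).map (res z (insert v Q))) :
    L.map (del z P W Q v) = L'.map (del z P W Q v) := by
  have hins : ∀ t, v ∈ P t → insert v (P t ∩ W.erase v) = P t ∩ W := by
    intro t ht
    ext i
    simp only [Finset.mem_insert, Finset.mem_inter, Finset.mem_erase]
    constructor
    · rintro (rfl | ⟨h1, h2, h3⟩)
      · exact ⟨ht, hv⟩
      · exact ⟨h1, h3⟩
    · rintro ⟨h1, h2⟩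
      by_cases h : i = v
      · exact Or.inl h
      · exact Or.inr ⟨h1, h, h2⟩
  have hcount : ∀ L : Multiset ((∀ i, α i) × Option ι),
      (∀ p ∈ L, ∀ t, p.2 = some t → v ∈ P t ∧ Q ⊆ P t) → ∀ (y : ∀ i, α i) (t : ι),
      Multiset.count (y, some t) ((L.filter fun p => p.2 ≠ none).map (del z P W Q v)) =
        Multiset.count y (lab (fun t => res z (P t ∩ W)) L t) := by
    intro L hL y t
    unfold lab
    rw [Multiset.count_map, Multiset.count_map, Multiset.filter_filter, Multiset.filter_filter]
    congr 1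
    refine Multiset.filter_congr fun p hp => ?_
    obtain ⟨x, o⟩ := p
    simp only [del, Prod.mk.injEq, ne_eq]
    constructor
    · rintro ⟨⟨h1, h2⟩, h3⟩
      subst h2
      refine ⟨?_, rfl⟩
      rw [h1]
      simp only [Gam]
      rw [hins t (hL _ hp t rfl).1]
    · rintro ⟨h1, h2⟩
      subst h2
      refine ⟨⟨?_, rfl⟩, by simp⟩
      rw [h1]
      simp only [Gam]
      rw [hins t (hL _ hp t rfl).1]
  have hB : (L.filter fun p => p.2 ≠ none).map (del z P W Q v) =
      (L'.filter fun p => p.2 ≠ none).map (del z P W Q v) := by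
    ext ⟨y, o⟩
    cases o with
    | none =>
      have : ∀ L : Multiset ((∀ i, α i) × Option ι),
          Multiset.count (y, none) ((L.filter fun p => p.2 ≠ none).map (del z P W Q v)) = 0 := by
        intro L
        rw [Multiset.count_eq_zero]
        intro h
        obtain ⟨p, hp, hp2⟩ := Multiset.mem_map.1 h
        exact (Multiset.mem_filter.1 hp).2 (congrArg Prod.snd hp2)
      rw [this, this]
    | some t => rw [hcount L hL, hcount L' hL', hlab]
  have hBQ' : ∀ L : Multiset ((∀ i, α i) × Option ι),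
      (∀ p ∈ L, ∀ t, p.2 = some t → v ∈ P t ∧ Q ⊆ P t) →
      (L.filter fun p => p.2 ≠ none).map (fun p => res z (insert v Q) p.1) =
      ((L.filter fun p => p.2 ≠ none).map (del z P W Q v)).map
        (fun p => res z (insert v Q) p.1) := by
    intro L hL
    rw [Multiset.map_map]
    refine Multiset.map_congr rfl fun p hp => ?_
    simp only [Function.comp_apply, del]
    rw [res_res_of_subset z (Finset.insert_subset_insert _ (subset_gam hQ
      (fun t ht => (hL p (Multiset.mem_filter.1 hp).1 t ht).2)))]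
  have hBQ : (L.filter fun p => p.2 ≠ none).map (fun p => res z (insert v Q) p.1) =
      (L'.filter fun p => p.2 ≠ none).map (fun p => res z (insert v Q) p.1) := by
    rw [hBQ' L hL, hBQ' L' hL', hB]
  have hsplit : ∀ L : Multiset ((∀ i, α i) × Option ι),
      L = (L.filter fun p => ¬ p.2 ≠ none) + L.filter fun p => p.2 ≠ none := by
    intro L
    rw [add_comm]
    exact (Multiset.filter_add_not _ _).symm
  have hAQ : (L.filter fun p => ¬ p.2 ≠ none).map (fun p => res z (insert v Q) p.1) =
      (L'.filter fun p => ¬ p.2 ≠ none).map (fun p => res z (insert v Q) p.1) := by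
    have h1 := hcl
    rw [Multiset.map_map, Multiset.map_map] at h1
    rw [hsplit L, hsplit L', Multiset.map_add, Multiset.map_add] at h1
    have h2 : (L.filter fun p => p.2 ≠ none).map (res z (insert v Q) ∘ Prod.fst) =
      (L'.filter fun p => p.2 ≠ none).map (res z (insert v Q) ∘ Prod.fst) := hBQ
    rw [h2] at h1
    exact add_right_cancel h1
  have hA' : ∀ L : Multiset ((∀ i, α i) × Option ι),
      (L.filter fun p => ¬ p.2 ≠ none).map (del z P W Q v) =
      ((L.filter fun p => ¬ p.2 ≠ none).map (fun p => res z (insert v Q) p.1)).map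
        (fun y => (y, none)) := by
    intro L
    rw [Multiset.map_map]
    refine Multiset.map_congr rfl fun p hp => ?_
    have := (Multiset.mem_filter.1 hp).2
    rw [not_not] at this
    simp only [Function.comp_apply, del, this, Gam]
  rw [hsplit L, hsplit L', Multiset.map_add, Multiset.map_add, hB, hA' L, hA' L', hAQ]

/-- Adding the coordinate `v`. -/
theorem glue (P : ι → Finset V) (J : ι → Prop) (σ : ι → Multiset (∀ i, α i))
    (W Q : Finset V) (v : V) (hv : v ∈ W) (hQ : Q ⊆ W.erase v) (Cl : Finset V → Prop)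
    (hclQ : ∀ C, Cl C → C ⊆ W → v ∈ C → C ⊆ insert v Q) (hcl : Cl (insert v Q))
    (hdown : ∀ C D, Cl C → D ⊆ C → Cl D)
    (hJ : ∀ t, J t → v ∉ P t) (Lb : ι → Prop) (hLb : ∀ t, Lb t → v ∈ P t ∧ Q ⊆ P t)
    (hrec : ∀ K K' : Multiset ((∀ i, α i) × Option ι),
      GoodW z P J σ (W.erase v) (K.map Prod.fst) → GoodW z P J σ (W.erase v) (K'.map Prod.fst) →
      (∀ t, lab (fun t => res z (P t ∩ W.erase v)) K t =
        lab (fun t => res z (P t ∩ W.erase v)) K' t) →
      (∀ p ∈ K, ∀ t, p.2 = some t → Lb t) →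
      (∀ C, Cl C → C ⊆ W.erase v →
        (K.map Prod.fst).map (res z C) = (K'.map Prod.fst).map (res z C)) →
      ReflTransGen (LStep (fun t => res z (P t ∩ W.erase v)) (Mv z Cl (W.erase v))
        (GoodW z P J σ (W.erase v))) K K')
    (L L' : Multiset ((∀ i, α i) × Option ι))
    (hG : GoodW z P J σ W (L.map Prod.fst)) (hG' : GoodW z P J σ W (L'.map Prod.fst))
    (hlab : ∀ t, lab (fun t => res z (P t ∩ W)) L t = lab (fun t => res z (P t ∩ W)) L' t)
    (hL : ∀ p ∈ L, ∀ t, p.2 = some t → Lb t)
    (hC : ∀ C, Cl C → C ⊆ W → (L.map Prod.fst).map (res z C) = (L'.map Prod.fst).map (res z C)) :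
    ReflTransGen (LStep (fun t => res z (P t ∩ W)) (Mv z Cl W) (GoodW z P J σ W)) L L' := by
  have hL' : ∀ p ∈ L', ∀ t, p.2 = some t → Lb t := by
    intro p hp t ht
    have h1 : res z (P t ∩ W) p.1 ∈ lab (fun t => res z (P t ∩ W)) L' t :=
      mem_lab.2 ⟨p.1, by rw [← ht]; exact hp, rfl⟩
    rw [← hlab] at h1
    obtain ⟨x, hx, _⟩ := mem_lab.1 h1
    exact hL _ hx t rfl
  have hWW : W.erase v ⊆ W := Finset.erase_subset _ _
  have hclQ' : Cl Q := hdown _ _ hcl (Finset.subset_insert _ _)
  have hinsW : insert v Q ⊆ W := Finset.insert_subset hv (hQ.trans hWW)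
  have hlabpr : ∀ (L : Multiset ((∀ i, α i) × Option ι)) (t : ι),
      lab (fun t => res z (P t ∩ W.erase v)) (L.map (pr z (W.erase v))) t =
        (lab (fun t => res z (P t ∩ W)) L t).map (res z (W.erase v)) := by
    intro L t
    unfold lab
    rw [Multiset.filter_map, Multiset.map_map, Multiset.map_map]
    refine Multiset.map_congr rfl fun p _ => ?_
    simp only [Function.comp_apply, pr]
    rw [res_res, res_res]
    congr 1
    ext i
    simp only [Finset.mem_inter, Finset.mem_erase]
    tauto
  have hpath := hrec (L.map (pr z (W.erase v))) (L'.map (pr z (W.erase v)))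
    (pr_good hJ hG) (pr_good hJ hG') (fun t => by rw [hlabpr, hlabpr, hlab])
    (by
      intro p hp t ht
      obtain ⟨q, hq, rfl⟩ := Multiset.mem_map.1 hp
      exact hL q hq t ht)
    (by
      intro C hCl hCW
      have h1 := hC C hCl (hCW.trans hWW)
      have h2 : ∀ L : Multiset ((∀ i, α i) × Option ι),
          ((L.map (pr z (W.erase v))).map Prod.fst).map (res z C) =
          (L.map Prod.fst).map (res z C) := by
        intro L
        simp only [Multiset.map_map]
        refine Multiset.map_congr rfl fun p _ => ?_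
        simp only [Function.comp_apply, pr]
        rw [res_res_of_subset z hCW]
      rw [h2, h2, h1])
  have key : ∀ K'', ReflTransGen (LStep (fun t => res z (P t ∩ W.erase v))
      (Mv z Cl (W.erase v)) (GoodW z P J σ (W.erase v))) (L.map (pr z (W.erase v))) K'' →
      ∃ K2, K2.map (pr z (W.erase v)) = K'' ∧
        ReflTransGen (LStep (fun t => res z (P t ∩ W)) (Mv z Cl W) (GoodW z P J σ W)) L K2 ∧
        K2.map (del z P W Q v) = L.map (del z P W Q v) ∧
        GoodW z P J σ W (K2.map Prod.fst) := by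
    intro K'' h
    induction h with
    | refl => exact ⟨L, rfl, ReflTransGen.refl, rfl, hG⟩
    | tail _ h2 ih =>
      obtain ⟨K2, rfl, h4, h5, h6⟩ := ih
      obtain ⟨K3, h7, h8, h9⟩ := lstep_lift P J σ W Q v hv hQ Cl hclQ hclQ' hJ K2 _ h6 (by
        intro p hp t ht
        have h10 : del z P W Q v p ∈ L.map (del z P W Q v) := by
          rw [← h5]; exact Multiset.mem_map_of_mem _ hp
        obtain ⟨q, hq, hq2⟩ := Multiset.mem_map.1 h10
        have h11 : q.2 = p.2 := (Prod.ext_iff.1 hq2).2
        exact (hLb t (hL q hq t (h11.trans ht))).2) h2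
      refine ⟨K3, h7, h4.tail h8, h9.trans h5, ?_⟩
      obtain ⟨_, _, _, _, _, _, _, _, _, _, _, _, _, _, h12⟩ := h8
      exact h12
  obtain ⟨K2, h1, h2, h3, h4⟩ := key _ hpath
  have h5 := map_del_eq (z := z) P W Q v hv hQ L L' hlab (fun p hp t ht => hLb t (hL p hp t ht))
    (fun p hp t ht => hLb t (hL' p hp t ht)) (hC _ hcl hinsW)
  refine h2.trans ?_
  have hK2S : ∀ p ∈ K2, res z W p.1 = p.1 := fun p hp => h4.1 _ (Multiset.mem_map_of_mem _ hp)
  have h6 := vSwaps_connected P W Q v hv hQ _ K2 L' rfl hK2S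
    (fun p hp => hG'.1 _ (Multiset.mem_map_of_mem _ hp)) h1 (h3.trans h5)
  have hK2l : ∀ p ∈ K2, ∀ t, p.2 = some t → Q ⊆ P t := by
    intro p hp t ht
    have h10 : del z P W Q v p ∈ L.map (del z P W Q v) := by
      rw [← h3]; exact Multiset.mem_map_of_mem _ hp
    obtain ⟨q, hq, hq2⟩ := Multiset.mem_map.1 h10
    have h11 : q.2 = p.2 := (Prod.ext_iff.1 hq2).2
    exact (hLb t (hL q hq t (h11.trans ht))).2
  have key2 : ∀ K'', ReflTransGen (VSwap z P W Q v) K2 K'' →
      ReflTransGen (LStep (fun t => res z (P t ∩ W)) (Mv z Cl W) (GoodW z P J σ W)) K2 K'' ∧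
        GoodW z P J σ W (K''.map Prod.fst) ∧
        (∀ p ∈ K'', ∀ t, p.2 = some t → Q ⊆ P t) := by
    intro K'' h
    induction h with
    | refl => exact ⟨ReflTransGen.refl, h4, hK2l⟩
    | tail _ h7 ih =>
      obtain ⟨i1, i2, i3⟩ := ih
      obtain ⟨x, y, ℓ, R, rfl, rfl, h8⟩ := h7
      have hℓ : ∀ t, ℓ = some t → Q ⊆ P t := fun t ht => i3 (x, ℓ) (by simp) t ht
      have hMv : Mv z Cl (W.erase v) (res z (W.erase v) x) (res z (W.erase v) y)
          (res z (W.erase v) y) (res z (W.erase v) x) := fun C _ _ => Or.inr ⟨rfl, rfl⟩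
      have hMv' : Mv z Cl (W.erase v) (res z (W.erase v) x) (res z (W.erase v) y)
          y x := by
        intro C _ hC2
        right
        exact ⟨res_res_of_subset z hC2 _, res_res_of_subset z hC2 _⟩
      obtain ⟨d1, d2, d3, d4, d5⟩ := lift_direct P W Q v hQ Cl hclQ hℓ hℓ hMv' h8 h8.symm
      have hx : res z W x = x := i2.1 x (by simp)
      have hy : res z W y = y := i2.1 y (by simp)
      have hpreq : ((Function.update x v (y v), ℓ) ::ₘ (Function.update y v (x v), ℓ) ::ₘ
          R).map (pr z (W.erase v)) = ((x, ℓ) ::ₘ (y, ℓ) ::ₘ R).map (pr z (W.erase v)) := by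
        simp only [Multiset.map_cons, pr]
        rw [res_update_not_mem z (by simp), res_update_not_mem z (by simp)]
      have hgood : GoodW z P J σ W (((Function.update x v (y v), ℓ) ::ₘ
          (Function.update y v (x v), ℓ) ::ₘ R).map Prod.fst) := by
        refine good_of_pr hJ ?_ ?_
        · intro p hp
          rcases Multiset.mem_cons.1 hp with rfl | hp
          · exact supp_update hv hx _
          · rcases Multiset.mem_cons.1 hp with rfl | hp
            · exact supp_update hv hy _
            · exact i2.1 _ (Multiset.mem_map_of_mem _ (by simp [hp]))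
        · rw [hpreq]
          exact pr_good hJ i2
      refine ⟨i1.tail ?_, hgood, ?_⟩
      · rw [Multiset.cons_swap (Function.update x v (y v), ℓ)] at hgood ⊢
        exact ⟨x, y, _, _, ℓ, ℓ, ℓ, ℓ, R, rfl, rfl, d1, Or.inl ⟨d4, d5⟩, i2, hgood⟩
      · intro p hp t ht
        rcases Multiset.mem_cons.1 hp with rfl | hp
        · exact hℓ t ht
        · rcases Multiset.mem_cons.1 hp with rfl | hp
          · exact hℓ t ht
          · exact i3 p (by simp [hp]) t ht
  exact (key2 _ h6).1

end Glue

end Pool.Agent.Helper15
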